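import Pool.Agent.H59.L.S8.H888R2.KC.Defs
import Pool.Agent.H59.L.S8.H212R2.KLS.A1
import Pool.Agent.H59.L.S8.H212R2.KLS.A8

/-!
# A1: the derivations
-/

set_option autoImplicit false

namespace Pool.Agent.H888R2.KC

open MeasureTheory Set Matrix
open scoped ENNReal InnerProductSpace
open Pool.Agent.H212R2.KLS (mu Bdd ev gr)

variable {ι : Type} [Fintype ι]

namespace A1x

open Classical in
/-- matrix entries of a linear map -/
noncomputable def en (A : EuclideanSpace ℝ ι →ₗ[ℝ] EuclideanSpace ℝ ι) (k l : ι) : ℝ :=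
  A (EuclideanSpace.single l 1) k

theorem dl_X (A : EuclideanSpace ℝ ι →ₗ[ℝ] EuclideanSpace ℝ ι) (k : ι) :
    dl A (MvPolynomial.X k) = ∑ l, MvPolynomial.C (en A k l) * MvPolynomial.X l := by
  unfold dl
  rw [MvPolynomial.mkDerivation_X]
  rfl

theorem apply_eq (A : EuclideanSpace ℝ ι →ₗ[ℝ] EuclideanSpace ℝ ι) (x : EuclideanSpace ℝ ι)
    (k : ι) : A x k = ∑ l, en A k l * x l := by
  classical
  have hx : x = ∑ l, x l • EuclideanSpace.single l (1 : ℝ) := by
    ext i
    rw [WithLp.ofLp_sum, Finset.sum_apply]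
    simp [Pi.single_apply]
  conv_lhs => rw [hx]
  rw [map_sum, WithLp.ofLp_sum, Finset.sum_apply]
  refine Finset.sum_congr rfl fun l _ => ?_
  rw [map_smul, PiLp.smul_apply, smul_eq_mul, mul_comm]
  unfold en
  congr!

theorem sum_der {κ : Type*} (t : Finset κ)
    (D : κ → Derivation ℝ (MvPolynomial ι ℝ) (MvPolynomial ι ℝ)) (p : MvPolynomial ι ℝ) :
    (∑ j ∈ t, D j) p = ∑ j ∈ t, D j p := by
  classical
  induction t using Finset.induction_on with
  | empty => simp
  | insert j t hj ih => rw [Finset.sum_insert hj, Finset.sum_insert hj, Derivation.add_apply, ih]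

theorem pd_dl (A : EuclideanSpace ℝ ι →ₗ[ℝ] EuclideanSpace ℝ ι) (i : ι) (p : MvPolynomial ι ℝ) :
    MvPolynomial.pderiv i (dl A p) = dl A (MvPolynomial.pderiv i p) +
      ∑ k, MvPolynomial.C (en A k i) * MvPolynomial.pderiv k p := by
  classical
  have h : (⁅(MvPolynomial.pderiv i : Derivation ℝ (MvPolynomial ι ℝ) _), dl A⁆ :
      Derivation ℝ (MvPolynomial ι ℝ) _) =
      ∑ k, (MvPolynomial.C (en A k i) : MvPolynomial ι ℝ) • MvPolynomial.pderiv k := by
    apply MvPolynomial.derivation_ext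
    intro j
    rw [Derivation.commutator_apply, sum_der, dl_X, map_sum]
    have h1 : ∀ l, MvPolynomial.pderiv i (MvPolynomial.C (en A j l) * MvPolynomial.X l :
        MvPolynomial ι ℝ) = if l = i then MvPolynomial.C (en A j l) else 0 := by
      intro l
      rw [Derivation.leibniz, MvPolynomial.pderiv_C, smul_zero, add_zero, MvPolynomial.pderiv_X,
        smul_eq_mul]
      by_cases hl : l = i
      · subst hl; simp
      · rw [if_neg hl, Pi.single_eq_of_ne (fun h' => hl h'), mul_zero]
    have h2 : dl A (MvPolynomial.pderiv i (MvPolynomial.X j : MvPolynomial ι ℝ)) = 0 := by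
      rw [MvPolynomial.pderiv_X]
      by_cases hl : j = i
      · subst hl
        rw [Pi.single_eq_same, Derivation.map_one_eq_zero]
      · rw [Pi.single_eq_of_ne (fun h' => hl h'), map_zero]
    rw [Finset.sum_congr rfl (fun l _ => h1 l), h2, sub_zero, Finset.sum_ite_eq' Finset.univ i,
      if_pos (Finset.mem_univ _)]
    have h3 : ∀ k, ((MvPolynomial.C (en A k i) : MvPolynomial ι ℝ) •
        (MvPolynomial.pderiv k : Derivation ℝ (MvPolynomial ι ℝ) (MvPolynomial ι ℝ)))
        (MvPolynomial.X j) = if k = j then MvPolynomial.C (en A k i) else 0 := by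
      intro k
      rw [Derivation.smul_apply, MvPolynomial.pderiv_X, smul_eq_mul]
      by_cases hl : j = k
      · subst hl; simp
      · rw [if_neg (fun h' => hl h'.symm), Pi.single_eq_of_ne (fun h' => hl h'), mul_zero]
    rw [Finset.sum_congr rfl (fun k _ => h3 k), Finset.sum_ite_eq' Finset.univ j,
      if_pos (Finset.mem_univ _)]
  have h2 := congrArg (fun D : Derivation ℝ (MvPolynomial ι ℝ) (MvPolynomial ι ℝ) => D p) h
  simp only [Derivation.commutator_apply] at h2
  rw [sub_eq_iff_eq_add] at h2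
  rw [h2, sum_der, add_comm]
  rfl

end A1x

open A1x

theorem ev_dl (A : EuclideanSpace ℝ ι →ₗ[ℝ] EuclideanSpace ℝ ι) (p : MvPolynomial ι ℝ)
    (x : EuclideanSpace ℝ ι) : ev (dl A p) x = fderiv ℝ (ev p) x (A x) := by
  rw [(Pool.Agent.H212R2.KLS.A8.ev_hasFDerivAt p x).fderiv,
    Pool.Agent.H212R2.KLS.A8.deriv_eq_sum, Pool.Agent.H212R2.KLS.A8.ev_sum, _root_.sum_apply]
  refine Finset.sum_congr rfl fun i _ => ?_
  rw [Pool.Agent.H212R2.KLS.A8.ev_mul, dl_X, Pool.Agent.H212R2.KLS.A8.ev_sum]
  have : A x i = ∑ l, ev (MvPolynomial.C (en A i l) * MvPolynomial.X l : MvPolynomial ι ℝ) x := by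
    rw [apply_eq]
    refine Finset.sum_congr rfl fun l _ => ?_
    rw [Pool.Agent.H212R2.KLS.A8.ev_mul, Pool.Agent.H212R2.KLS.A8.ev_C,
      Pool.Agent.H212R2.KLS.A8.ev_X]
  rw [← this]
  rfl

theorem dl_sum {κ : Type} [Fintype κ] (A : κ → (EuclideanSpace ℝ ι →ₗ[ℝ] EuclideanSpace ℝ ι))
    (c : κ → ℝ) (B : EuclideanSpace ℝ ι →ₗ[ℝ] EuclideanSpace ℝ ι)
    (hB : ∀ x, B x = ∑ k, c k • A k x) (p : MvPolynomial ι ℝ) :
    dl B p = ∑ k, c k • dl (A k) p := by
  have h : dl B = ∑ k, c k • dl (A k) := by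
    apply MvPolynomial.derivation_ext
    intro j
    rw [dl_X, sum_der]
    have h1 : ∀ k, (c k • dl (A k)) (MvPolynomial.X j : MvPolynomial ι ℝ) =
        ∑ l, MvPolynomial.C (c k * en (A k) j l) * MvPolynomial.X l := by
      intro k
      rw [Derivation.smul_apply, dl_X, Finset.smul_sum]
      refine Finset.sum_congr rfl fun l _ => ?_
      rw [MvPolynomial.smul_eq_C_mul, MvPolynomial.C_mul, mul_assoc]
    rw [Finset.sum_congr rfl (fun k _ => h1 k), Finset.sum_comm]
    refine Finset.sum_congr rfl fun l _ => ?_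
    rw [← Finset.sum_mul, ← map_sum]
    congr 2
    unfold en
    rw [hB, WithLp.ofLp_sum, Finset.sum_apply]
    rfl
  rw [h, sum_der]
  rfl

theorem dl_comm (A B C : EuclideanSpace ℝ ι →ₗ[ℝ] EuclideanSpace ℝ ι)
    (hC : ∀ x, B (A x) - A (B x) = C x) (p : MvPolynomial ι ℝ) :
    dl A (dl B p) - dl B (dl A p) = dl C p := by
  have key : ∀ (A B : EuclideanSpace ℝ ι →ₗ[ℝ] EuclideanSpace ℝ ι) (k : ι),
      dl A (dl B (MvPolynomial.X k)) = ∑ m, MvPolynomial.C (∑ l, en B k l * en A l m) *
        MvPolynomial.X m := by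
    intro A B k
    rw [dl_X, map_sum]
    have h1 : ∀ l, dl A (MvPolynomial.C (en B k l) * MvPolynomial.X l : MvPolynomial ι ℝ) =
        ∑ m, MvPolynomial.C (en B k l * en A l m) * MvPolynomial.X m := by
      intro l
      rw [Derivation.leibniz, MvPolynomial.derivation_C, smul_zero, add_zero, dl_X, smul_eq_mul,
        Finset.mul_sum]
      refine Finset.sum_congr rfl fun m _ => ?_
      rw [MvPolynomial.C_mul, mul_assoc]
    rw [Finset.sum_congr rfl (fun l _ => h1 l), Finset.sum_comm]
    refine Finset.sum_congr rfl fun m _ => ?_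
    rw [← Finset.sum_mul, ← map_sum]
  have h : (⁅dl A, dl B⁆ : Derivation ℝ (MvPolynomial ι ℝ) (MvPolynomial ι ℝ)) = dl C := by
    apply MvPolynomial.derivation_ext
    intro k
    rw [Derivation.commutator_apply, key, key, dl_X, ← Finset.sum_sub_distrib]
    refine Finset.sum_congr rfl fun m _ => ?_
    rw [← sub_mul, ← map_sub]
    congr 2
    have h1 : ∀ (A B : EuclideanSpace ℝ ι →ₗ[ℝ] EuclideanSpace ℝ ι),
        ∑ l, en B k l * en A l m = (open Classical in B (A (EuclideanSpace.single m 1)) k) := by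
      intro A B
      rw [apply_eq B]
      rfl
    rw [h1, h1]
    unfold en
    rw [← hC]
    rfl
  have h2 := congrArg (fun D : Derivation ℝ (MvPolynomial ι ℝ) (MvPolynomial ι ℝ) => D p) h
  simpa only [Derivation.commutator_apply] using h2

theorem dl_deg (A : EuclideanSpace ℝ ι →ₗ[ℝ] EuclideanSpace ℝ ι) (p : MvPolynomial ι ℝ) :
    (dl A p).totalDegree ≤ p.totalDegree := by
  rw [Pool.Agent.H212R2.KLS.A8.deriv_eq_sum]
  refine (MvPolynomial.totalDegree_finset_sum _ _).trans ?_
  refine Finset.sup_le fun i _ => ?_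
  rcases Pool.Agent.H212R2.KLS.A1_pderiv_deg i p with h | h
  · rw [h, zero_mul, MvPolynomial.totalDegree_zero]; exact Nat.zero_le _
  · refine (MvPolynomial.totalDegree_mul _ _).trans ?_
    have h1 : (dl A (MvPolynomial.X i)).totalDegree ≤ 1 := by
      rw [dl_X]
      refine (MvPolynomial.totalDegree_finset_sum _ _).trans ?_
      refine Finset.sup_le fun l _ => ?_
      refine (MvPolynomial.totalDegree_mul _ _).trans ?_
      rw [MvPolynomial.totalDegree_C, MvPolynomial.totalDegree_X]
    omega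

theorem dl_gr (A : EuclideanSpace ℝ ι →ₗ[ℝ] EuclideanSpace ℝ ι)
    (hA : ∀ x y, ⟪A x, y⟫_ℝ = - ⟪x, A y⟫_ℝ) (p q : MvPolynomial ι ℝ) :
    dl A (gr p q) = gr (dl A p) q + gr p (dl A q) := by
  classical
  have hsk : ∀ k i, en A k i = - en A i k := by
    intro k i
    have h1 := hA (EuclideanSpace.single i 1) (EuclideanSpace.single k 1)
    rw [EuclideanSpace.inner_single_right, EuclideanSpace.inner_single_left] at h1
    simp only [map_one, one_mul] at h1
    have h2 : ∀ l m, en A l m = A (EuclideanSpace.single m 1) l := by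
      intro l m
      unfold en
      congr!
    rw [h2, h2]
    simpa using h1
  unfold gr
  rw [map_sum, ← Finset.sum_add_distrib]
  have h2 : ∀ i, MvPolynomial.pderiv i (dl A p) * MvPolynomial.pderiv i q +
      MvPolynomial.pderiv i p * MvPolynomial.pderiv i (dl A q) =
      dl A (MvPolynomial.pderiv i p * MvPolynomial.pderiv i q) +
      (∑ k, MvPolynomial.C (en A k i) * (MvPolynomial.pderiv k p * MvPolynomial.pderiv i q) +
       ∑ k, MvPolynomial.C (en A k i) * (MvPolynomial.pderiv i p * MvPolynomial.pderiv k q)) := by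
    intro i
    rw [Derivation.leibniz, pd_dl, pd_dl, add_mul, mul_add, Finset.sum_mul, Finset.mul_sum]
    simp only [smul_eq_mul]
    have e1 : ∑ k, MvPolynomial.C (en A k i) * MvPolynomial.pderiv k p * MvPolynomial.pderiv i q =
        ∑ k, MvPolynomial.C (en A k i) * (MvPolynomial.pderiv k p * MvPolynomial.pderiv i q) :=
      Finset.sum_congr rfl fun k _ => by ring
    have e2 : ∑ k, MvPolynomial.pderiv i p * (MvPolynomial.C (en A k i) *
        MvPolynomial.pderiv k q) =
        ∑ k, MvPolynomial.C (en A k i) * (MvPolynomial.pderiv i p * MvPolynomial.pderiv k q) :=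
      Finset.sum_congr rfl fun k _ => by ring
    rw [e1, e2]
    ring
  rw [Finset.sum_congr rfl (fun i _ => h2 i), Finset.sum_add_distrib, Finset.sum_add_distrib]
  have h3 : ∑ i, ∑ k, MvPolynomial.C (en A k i) *
      (MvPolynomial.pderiv i p * MvPolynomial.pderiv k q) =
      - ∑ i, ∑ k, MvPolynomial.C (en A k i) *
      (MvPolynomial.pderiv k p * MvPolynomial.pderiv i q) := by
    rw [Finset.sum_comm, ← Finset.sum_neg_distrib]
    refine Finset.sum_congr rfl fun i _ => ?_
    rw [← Finset.sum_neg_distrib]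
    refine Finset.sum_congr rfl fun k _ => ?_
    rw [hsk i k, map_neg, neg_mul]
  rw [h3, add_neg_cancel, add_zero]

end Pool.Agent.H888R2.KC
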