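import Pool.Agent.H59.L.S8.H888R2.KC.Defs

/-!
# A2: the abstract Bochner gap (helper715, after helper58)
-/

set_option autoImplicit false

namespace Pool.Agent.H888R2.KC

namespace A2x

theorem casimir {W : Type*} [AddCommGroup W] [Module ℝ W] {κ : Type*} [Fintype κ]
    (D : κ → W →ₗ[ℝ] W)
    (c : κ → κ → κ → ℝ) (hc1 : ∀ i j k, c j i k = - c i j k) (hc2 : ∀ i j k, c i k j = - c i j k)
    (hcomm : ∀ i j x, D i (D j x) - D j (D i x) = ∑ k, c i j k • D k x) (j : κ) (x : W) :
    ∑ i, D i (D i (D j x)) = D j (∑ i, D i (D i x)) := by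
  rw [map_sum, ← sub_eq_zero, ← Finset.sum_sub_distrib]
  have h1 : ∀ i : κ, D i (D i (D j x)) - D j (D i (D i x)) =
      ∑ k, c i j k • (D i (D k x) + D k (D i x)) := by
    intro i
    have e1 : D i (D i (D j x)) - D j (D i (D i x)) =
        D i (D i (D j x) - D j (D i x)) + (D i (D j (D i x)) - D j (D i (D i x))) := by
      rw [map_sub]
      abel
    rw [e1, hcomm, hcomm, map_sum, ← Finset.sum_add_distrib]
    refine Finset.sum_congr rfl fun k _ => ?_
    rw [map_smul, smul_add]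
  rw [Finset.sum_congr rfl fun i _ => h1 i]
  set S := ∑ i, ∑ k, c i j k • (D i (D k x) + D k (D i x)) with hS
  have h2 : S = - S := by
    conv_lhs => rw [hS, Finset.sum_comm]
    rw [hS, ← Finset.sum_neg_distrib]
    refine Finset.sum_congr rfl fun i _ => ?_
    rw [← Finset.sum_neg_distrib]
    refine Finset.sum_congr rfl fun k _ => ?_
    have : c k j i = - c i j k := by
      have a1 := hc1 j k i
      have a2 := hc2 j i k
      have a3 := hc1 i j k
      linarith
    rw [this, neg_smul, add_comm (D k (D i x))]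
  have h3 : (2 : ℝ) • S = 0 := by
    rw [two_smul]
    nth_rw 1 [h2]
    exact neg_add_cancel _
  exact (smul_eq_zero.1 h3).resolve_left two_ne_zero

end A2x

theorem gap {W : Type*} [AddCommGroup W] [Module ℝ W] {κ : Type*} [Fintype κ]
    (b : W →ₗ[ℝ] W →ₗ[ℝ] ℝ) (hsymm : ∀ x y, b x y = b y x) (hpos : ∀ x, 0 ≤ b x x)
    (D : κ → W →ₗ[ℝ] W) (hskew : ∀ i x y, b (D i x) y = - b x (D i y))
    (c : κ → κ → κ → ℝ) (hc1 : ∀ i j k, c j i k = - c i j k) (hc2 : ∀ i j k, c i k j = - c i j k)
    (hcomm : ∀ i j x, D i (D j x) - D j (D i x) = ∑ k, c i j k • D k x) (κ0 : ℝ)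
    (hkil : ∀ k x, ∑ l, (∑ i, ∑ j, c i j k * c i j l) • D l x = κ0 • D k x) (x : W) :
    κ0 / 4 * ∑ i, b (D i x) (D i x) ≤ b (∑ i, D i (D i x)) (∑ i, D i (D i x)) := by
  have _ := hsymm
  have h2 : b (∑ i, D i (D i x)) (∑ i, D i (D i x)) =
      ∑ i, ∑ j, b (D j (D i x)) (D j (D i x)) := by
    have h1 : ∀ y, b (∑ i, D i (D i x)) y = ∑ i, b (D i (D i x)) y := fun y => by
      rw [map_sum, LinearMap.sum_apply]
    rw [h1]
    refine Finset.sum_congr rfl fun i _ => ?_
    rw [hskew, ← A2x.casimir D c hc1 hc2 hcomm, map_sum, ← Finset.sum_neg_distrib]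
    refine Finset.sum_congr rfl fun j _ => ?_
    rw [hskew j (D i x)]
  have h3 : ∀ u v : W, b (u - v) (u - v) ≤ 2 * b u u + 2 * b v v := by
    intro u v
    have := hpos (u + v)
    simp only [map_add, map_sub, LinearMap.add_apply, LinearMap.sub_apply] at this ⊢
    linarith
  have h4 : ∑ i, ∑ j, b (D i (D j x) - D j (D i x)) (D i (D j x) - D j (D i x)) =
      κ0 * ∑ i, b (D i x) (D i x) := by
    have e1 : ∀ i j, b (D i (D j x) - D j (D i x)) (D i (D j x) - D j (D i x)) =
        ∑ k, ∑ l, c i j k * c i j l * b (D k x) (D l x) := by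
      intro i j
      rw [hcomm, LinearMap.map_sum₂]
      refine Finset.sum_congr rfl fun k _ => ?_
      rw [LinearMap.map_smul₂, map_sum, smul_eq_mul, Finset.mul_sum]
      refine Finset.sum_congr rfl fun l _ => ?_
      rw [map_smul, smul_eq_mul]
      ring
    have e2 : ∀ k, κ0 * b (D k x) (D k x) =
        ∑ l, (∑ i, ∑ j, c i j k * c i j l) * b (D k x) (D l x) := by
      intro k
      have := congrArg (fun y => b (D k x) y) (hkil k x)
      simp only [map_sum, map_smul, smul_eq_mul] at this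
      exact this.symm
    rw [Finset.mul_sum]
    rw [Finset.sum_congr rfl fun k _ => e2 k]
    rw [Finset.sum_congr rfl fun i _ => Finset.sum_congr rfl fun j _ => e1 i j]
    -- reorder the sums
    calc ∑ i, ∑ j, ∑ k, ∑ l, c i j k * c i j l * b (D k x) (D l x)
        = ∑ i, ∑ k, ∑ j, ∑ l, c i j k * c i j l * b (D k x) (D l x) :=
          Finset.sum_congr rfl fun i _ => Finset.sum_comm
      _ = ∑ k, ∑ i, ∑ j, ∑ l, c i j k * c i j l * b (D k x) (D l x) := Finset.sum_comm
      _ = ∑ k, ∑ i, ∑ l, ∑ j, c i j k * c i j l * b (D k x) (D l x) :=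
          Finset.sum_congr rfl fun k _ => Finset.sum_congr rfl fun i _ => Finset.sum_comm
      _ = ∑ k, ∑ l, ∑ i, ∑ j, c i j k * c i j l * b (D k x) (D l x) :=
          Finset.sum_congr rfl fun k _ => Finset.sum_comm
      _ = ∑ k, ∑ l, (∑ i, ∑ j, c i j k * c i j l) * b (D k x) (D l x) := by
          refine Finset.sum_congr rfl fun k _ => Finset.sum_congr rfl fun l _ => ?_
          rw [Finset.sum_mul]
          refine Finset.sum_congr rfl fun i _ => ?_
          rw [Finset.sum_mul]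
  have h5 : ∑ i, ∑ j, b (D i (D j x) - D j (D i x)) (D i (D j x) - D j (D i x)) ≤
      4 * ∑ i, ∑ j, b (D j (D i x)) (D j (D i x)) := by
    have : ∑ i, ∑ j, b (D i (D j x) - D j (D i x)) (D i (D j x) - D j (D i x)) ≤
        ∑ i, ∑ j, (2 * b (D i (D j x)) (D i (D j x)) + 2 * b (D j (D i x)) (D j (D i x))) :=
      Finset.sum_le_sum fun i _ => Finset.sum_le_sum fun j _ => h3 _ _
    refine this.trans (le_of_eq ?_)
    simp only [Finset.sum_add_distrib, ← Finset.mul_sum]
    rw [Finset.sum_comm (f := fun i j => b (D i (D j x)) (D i (D j x)))]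
    ring
  rw [h4] at h5
  rw [h2]
  linarith

end Pool.Agent.H888R2.KC
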