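import Pool.Agent.H59.L.S8.H888R2.KC.Defs
import Pool.Agent.H59.L.S8.H888R2.KC.A1
import Pool.Agent.H59.L.S8.H888R2.KC.A2
import Pool.Agent.H59.L.S8.H212R2.KLS.A6core

/-!
# A3: the angular part, general form (helper972; after `angular_of` of helper498)
-/

set_option autoImplicit false

namespace Pool.Agent.H888R2.KC

open MeasureTheory Set Matrix
open scoped ENNReal InnerProductSpace
open Pool.Agent.H212R2.KLS (mu Bdd ev gr)

namespace A3x

open Pool.Agent.H212R2.KLS.A6 (ev_add ev_sub ev_mul ev_smul ev_sum ev_cont)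

variable {ι : Type} [Fintype ι] {μ : Measure (EuclideanSpace ℝ ι)} [IsFiniteMeasure μ]

theorem ev_int (hb : ∃ R, μ (Metric.closedBall 0 R)ᶜ = 0)
    (p : MvPolynomial ι ℝ) : Integrable (ev p) μ := by
  obtain ⟨R, hR⟩ := hb
  have h1 : μ.restrict (Metric.closedBall 0 R) = μ :=
    Measure.restrict_eq_self_of_ae_mem (mem_ae_iff.2 hR)
  rw [← h1]
  exact (ev_cont p).continuousOn.integrableOn_compact (isCompact_closedBall 0 R)

/-- the integral as a linear functional on polynomials -/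
noncomputable def IL (μ : Measure (EuclideanSpace ℝ ι)) [IsFiniteMeasure μ]
    (hb : ∃ R, μ (Metric.closedBall 0 R)ᶜ = 0) : MvPolynomial ι ℝ →ₗ[ℝ] ℝ where
  toFun p := ∫ x, ev p x ∂μ
  map_add' p q := by
    simp only [ev_add]
    exact integral_add (ev_int hb p) (ev_int hb q)
  map_smul' c p := by
    simp only [ev_smul, RingHom.id_apply, smul_eq_mul]
    exact integral_const_mul c _

theorem IL_apply (hb : ∃ R, μ (Metric.closedBall 0 R)ᶜ = 0)
    (p : MvPolynomial ι ℝ) : IL μ hb p = ∫ x, ev p x ∂μ := rfl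

end A3x

open A3x Pool.Agent.H212R2.KLS.A6 in
theorem angular_gen {ι : Type} [Fintype ι] {κ : Type} [Fintype κ]
    (A : κ → (EuclideanSpace ℝ ι →ₗ[ℝ] EuclideanSpace ℝ ι))
    (hA : ∀ k x y, ⟪A k x, y⟫_ℝ = - ⟪x, A k y⟫_ℝ)
    (c : κ → κ → κ → ℝ) (hc1 : ∀ i j k, c j i k = - c i j k) (hc2 : ∀ i j k, c i k j = - c i j k)
    (hcomm : ∀ i j x, A i (A j x) - A j (A i x) = ∑ k, c i j k • A k x) (κ0 : ℝ) (hκ : 0 < κ0)
    (hkil : ∀ k x, ∑ l, (∑ i, ∑ j, c i j k * c i j l) • A l x = κ0 • A k x)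
    (μ : Measure (EuclideanSpace ℝ ι)) [IsFiniteMeasure μ]
    (hb : ∃ R, μ (Metric.closedBall 0 R)ᶜ = 0)
    (hint : ∀ k p, ∫ x, ev (dl (A k) p) x ∂μ = 0)
    (hpos : ∀ p : MvPolynomial ι ℝ, ∫ x, (ev p x) ^ 2 ∂μ = 0 → p = 0)
    (p : MvPolynomial ι ℝ) :
    ∃ p0 : MvPolynomial ι ℝ, (∀ k, dl (A k) p0 = 0) ∧
      ∫ x, (ev p x - ev p0 x) ∂μ = 0 ∧ ∫ x, ev p0 x * (ev p x - ev p0 x) ∂μ = 0 ∧
      κ0 / 4 * ∫ x, (ev p x - ev p0 x) ^ 2 ∂μ ≤ ∑ k, ∫ x, (ev (dl (A k) p) x) ^ 2 ∂μ ∧
      ∫ x, ev (gr p0 p0) x ∂μ ≤ ∫ x, ev (gr p p) x ∂μ := by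
  classical
  set k := p.totalDegree with hk
  let W := MvPolynomial.restrictTotalDegree ι ℝ k
  -- the bilinear form
  let B : W →ₗ[ℝ] W →ₗ[ℝ] ℝ := LinearMap.mk₂ ℝ (fun f g => IL μ hb (f.1 * g.1))
    (fun f f' g => by
      simp only [Submodule.coe_add]
      rw [add_mul, map_add])
    (fun c f g => by
      simp only [Submodule.coe_smul]
      rw [smul_mul_assoc, map_smul])
    (fun f g g' => by
      simp only [Submodule.coe_add]
      rw [mul_add, map_add])
    (fun c f g => by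
      simp only [Submodule.coe_smul]
      rw [mul_smul_comm, map_smul])
  have hB : ∀ f g : W, B f g = IL μ hb (f.1 * g.1) := fun f g => rfl
  -- the operators
  let D : κ → W →ₗ[ℝ] W := fun i =>
    (dl (A i) : Derivation ℝ (MvPolynomial ι ℝ)
      (MvPolynomial ι ℝ)).toLinearMap.restrict (p := W) (q := W) (by
        intro f hf
        rw [MvPolynomial.mem_restrictTotalDegree] at hf ⊢
        exact (dl_deg (A i) f).trans hf)
  have hD : ∀ i (f : W), (D i f).1 = dl (A i) f.1 := fun i f => rfl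
  have hI0 : ∀ (a : κ) (q : MvPolynomial ι ℝ), IL μ hb (dl (A a) q) = 0 :=
    fun a q => hint a q
  have hsymm : ∀ x y, B x y = B y x := fun x y => by rw [hB, hB, mul_comm]
  have hBsq : ∀ f : W, B f f = ∫ x, (ev f.1 x) ^ 2 ∂μ := by
    intro f
    rw [hB, IL_apply]
    exact integral_congr_ae (Filter.Eventually.of_forall fun x => by
      simp only [ev_mul]; exact (pow_two _).symm)
  have hBnn : ∀ f : W, 0 ≤ B f f := by
    intro f
    rw [hBsq]
    exact integral_nonneg fun x => sq_nonneg _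
  have hBpos : ∀ f : W, f ≠ 0 → 0 < B f f := by
    intro f hf
    refine lt_of_le_of_ne (hBnn f) fun h => hf ?_
    rw [hBsq] at h
    exact Subtype.ext (hpos f.1 h.symm)
  have hleib : ∀ (a : κ) (f g : MvPolynomial ι ℝ),
      IL μ hb (dl (A a) f * g) = - IL μ hb (f * dl (A a) g) := by
    intro a f g
    have h := hI0 a (f * g)
    rw [Derivation.leibniz, smul_eq_mul, smul_eq_mul, map_add] at h
    rw [mul_comm (dl (A a) f) g]
    linarith
  have hskew : ∀ i x y, B (D i x) y = - B x (D i y) := by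
    intro i x y
    rw [hB, hB, hD, hD]
    exact hleib _ _ _
  have hκ4 : (0 : ℝ) < κ0 / 4 := by positivity
  have hcommD : ∀ i j (x : W), D i (D j x) - D j (D i x) = ∑ k, (-c i j k) • D k x := by
    intro i j x
    apply Subtype.ext
    have h1 : dl (A i) (dl (A j) x.1) - dl (A j) (dl (A i) x.1) =
        dl ((A j) ∘ₗ (A i) - (A i) ∘ₗ (A j)) x.1 :=
      dl_comm (A i) (A j) ((A j) ∘ₗ (A i) - (A i) ∘ₗ (A j)) (fun y => rfl) x.1
    have h2 : dl ((A j) ∘ₗ (A i) - (A i) ∘ₗ (A j)) x.1 = ∑ k, (-c i j k) • dl (A k) x.1 := by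
      refine dl_sum A (fun k => -c i j k) _ (fun y => ?_) x.1
      show A j (A i y) - A i (A j y) = _
      rw [← neg_sub, hcomm i j y, ← Finset.sum_neg_distrib]
      exact Finset.sum_congr rfl fun k _ => (neg_smul _ _).symm
    rw [Submodule.coe_sub, Submodule.coe_sum]
    exact h1.trans h2
  have hkilD : ∀ k (x : W), ∑ l, (∑ i, ∑ j, (-c i j k) * (-c i j l)) • D l x = κ0 • D k x := by
    intro k x
    apply Subtype.ext
    have h1 : dl (κ0 • A k) x.1 = ∑ l, (∑ i, ∑ j, c i j k * c i j l) • dl (A l) x.1 := by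
      refine dl_sum A (fun l => ∑ i, ∑ j, c i j k * c i j l) _ (fun y => ?_) x.1
      exact (hkil k y).symm
    have h2 : dl (κ0 • A k) x.1 = ∑ l, (if l = k then κ0 else 0) • dl (A l) x.1 := by
      refine dl_sum A (fun l => if l = k then κ0 else 0) _ (fun y => ?_) x.1
      show κ0 • A k y = _
      simp only [ite_smul, zero_smul]
      rw [Finset.sum_ite_eq' Finset.univ k, if_pos (Finset.mem_univ k)]
    have h3 : ∑ l, (if l = k then κ0 else 0) • dl (A l) x.1 = κ0 • dl (A k) x.1 := by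
      simp only [ite_smul, zero_smul]
      rw [Finset.sum_ite_eq' Finset.univ k, if_pos (Finset.mem_univ k)]
    rw [Submodule.coe_sum, Submodule.coe_smul]
    have h4 : ∀ l, (∑ i, ∑ j, (-c i j k) * (-c i j l)) = ∑ i, ∑ j, c i j k * c i j l := by
      intro l
      simp only [neg_mul_neg]
    simp only [h4]
    exact h1.symm.trans (h2.trans h3)
  have hgap : ∀ x, κ0 / 4 * ∑ i, B (D i x) (D i x) ≤
      B (∑ i, D i (D i x)) (∑ i, D i (D i x)) := by
    intro x
    refine gap B hsymm hBnn D hskew (fun i j k => -c i j k) ?_ ?_ hcommD κ0 hkilD x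
    · intro i j k
      show -c j i k = - -c i j k
      rw [hc1 i j k]
    · intro i j k
      show -c i k j = - -c i j k
      rw [hc2 i j k]
  obtain ⟨x0, hx0, ⟨z, hz⟩, hineq⟩ := Pool.Agent.H212R2.KLS.duality B hsymm hBpos D hskew
    (κ0 / 4) hκ4 hgap ⟨p, (MvPolynomial.mem_restrictTotalDegree _ _ _).2 le_rfl⟩
  set x : W := ⟨p, (MvPolynomial.mem_restrictTotalDegree _ _ _).2 le_rfl⟩ with hx
  set p0 := x0.1 with hp0
  have hDp0 : ∀ a, dl (A a) p0 = 0 := by
    intro a
    have := congrArg Subtype.val (hx0 a)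
    rwa [hD] at this
  have hw : p - p0 = ∑ i : κ, dl (A i) (dl (A i) z.1) := by
    have := congrArg Subtype.val hz
    rw [Submodule.coe_sub, Submodule.coe_sum] at this
    exact this
  have hsub : ∀ y, ev p y - ev p0 y = ev (p - p0) y := fun y => (ev_sub p p0 y).symm
  refine ⟨p0, hDp0, ?_, ?_, ?_, ?_⟩
  · simp only [hsub]
    rw [← IL_apply hb, hw, map_sum]
    exact Finset.sum_eq_zero fun i _ => hI0 _ _
  · have e : ∀ y, ev p0 y * (ev p y - ev p0 y) = ev (p0 * (p - p0)) y := by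
      intro y
      rw [ev_mul, ev_sub]
    simp only [e]
    rw [← IL_apply hb, hw, Finset.mul_sum, map_sum]
    refine Finset.sum_eq_zero fun i _ => ?_
    have := hleib i p0 (dl (A i) z.1)
    rw [hDp0, zero_mul, map_zero] at this
    linarith
  · have h1 : ∫ y, (ev p y - ev p0 y) ^ 2 ∂μ = B (x - x0) (x - x0) := by
      rw [hBsq]
      simp only [hsub]
      rfl
    have h2 : ∑ a, ∫ y, (ev (dl (A a) p) y) ^ 2 ∂μ = ∑ i, B (D i x) (D i x) :=
      Finset.sum_congr rfl fun a _ => by rw [hBsq, hD]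
    rw [h1, h2]
    exact hineq
  · rw [← IL_apply hb, ← IL_apply hb]
    have h0 : IL μ hb (gr p0 (p - p0)) = 0 := by
      rw [hw, gr_sum_right, map_sum]
      refine Finset.sum_eq_zero fun i _ => ?_
      have h := dl_gr (A i) (hA i) p0 (dl (A i) z.1)
      rw [hDp0, gr_zero_left, zero_add] at h
      rw [← h]
      exact hI0 _ _
    have h1 : gr p p = gr p0 p0 + (2 : ℝ) • gr p0 (p - p0) + gr (p - p0) (p - p0) := by
      have e : p = p0 + (p - p0) := by ring
      conv_lhs => rw [e]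
      rw [gr_add_right, gr_comm _ p0, gr_comm _ (p - p0), gr_add_right, gr_add_right,
        gr_comm (p - p0) p0, two_smul]
      ring
    rw [h1, map_add, map_add, map_smul, h0, smul_zero, add_zero]
    have h2 : 0 ≤ IL μ hb (gr (p - p0) (p - p0)) := by
      rw [IL_apply]
      exact integral_nonneg fun y => ev_gr_nonneg _ _
    linarith

end Pool.Agent.H888R2.KC
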