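import Pool.Agent.H59.L.S8.H888R2.KC.Defs

/-! F1: the frame. -/

set_option autoImplicit false

namespace Pool.Agent.H888R2.KC

open MeasureTheory Set Matrix
open scoped ENNReal InnerProductSpace
open Pool.Agent.H212R2.KLS (mu Bdd ev gr)

variable {𝕜 : Type} [RCLike 𝕜] {N : ℕ} {ι : Type} [Fintype ι]
  {Φ : EuclideanSpace ℝ ι →ₗ[ℝ] Matrix (Fin N) (Fin N) 𝕜}

theorem ip_comm (A B : Matrix (Fin N) (Fin N) 𝕜) : ip A B = ip B A := by
  unfold ip
  apply Finset.sum_congr rfl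
  intro i _
  apply Finset.sum_congr rfl
  intro j _
  have h : star (star (A i j) * B i j) = star (B i j) * A i j := by
    rw [star_mul, star_star]
  rw [← h, RCLike.star_def, RCLike.conj_re]

theorem F1x.ip_self (A : Matrix (Fin N) (Fin N) 𝕜) : ip A A = ∑ i, ∑ j, ‖A i j‖ ^ 2 := by
  unfold ip
  apply Finset.sum_congr rfl
  intro i _
  apply Finset.sum_congr rfl
  intro j _
  rw [RCLike.star_def, RCLike.conj_mul]
  norm_cast

theorem inner_Phi (h : Fr Φ) (x y : EuclideanSpace ℝ ι) : ⟪x, y⟫_ℝ = ip (Φ x) (Φ y) := by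
  have key : ∀ z : EuclideanSpace ℝ ι, ip (Φ z) (Φ z) = ‖z‖ ^ 2 := fun z => by
    rw [F1x.ip_self, h.iso]
  have h1 := key (x + y)
  have e1 : ip (Φ x + Φ y) (Φ x + Φ y) =
      ip (Φ x) (Φ x) + 2 * ip (Φ x) (Φ y) + ip (Φ y) (Φ y) := by
    rw [ip_add, ip_comm (Φ x + Φ y) (Φ x), ip_comm (Φ x + Φ y) (Φ y), ip_add, ip_add,
      ip_comm (Φ y) (Φ x)]
    ring
  rw [map_add, e1, key, key] at h1
  have h2 := norm_add_sq_real x y
  linarith

theorem inner_ps (A : Matrix (Fin N) (Fin N) 𝕜) (x : EuclideanSpace ℝ ι) :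
    ⟪ps Φ A, x⟫_ℝ = ip A (Φ x) := by
  classical
  have hx : x = ∑ k, x k • EuclideanSpace.single k (1 : ℝ) := by
    ext j
    simp [Pi.single_apply]
  have hlin : ∀ (s : Finset ι) (f : ι → Matrix (Fin N) (Fin N) 𝕜),
      ip A (∑ k ∈ s, f k) = ∑ k ∈ s, ip A (f k) := by
    intro s f
    induction s using Finset.induction_on with
    | empty => simp [ip]
    | insert a s ha ih => rw [Finset.sum_insert ha, Finset.sum_insert ha, ip_add, ih]
  have h1 : ip A (Φ x) = ∑ k, x k * ip A (Φ (EuclideanSpace.single k 1)) := by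
    conv_lhs => rw [hx, map_sum, hlin]
    apply Finset.sum_congr rfl
    intro k _
    rw [map_smul, ip_smul]
  rw [h1, PiLp.inner_apply]
  apply Finset.sum_congr rfl
  intro k _
  have h2 : (ps Φ A) k = ip (Φ (EuclideanSpace.single k 1)) A := by
    unfold ps
    simp only [LinearMap.coe_mk, AddHom.coe_mk]
  rw [h2, ip_comm A]
  simp

theorem ps_Phi (h : Fr Φ) (x : EuclideanSpace ℝ ι) : ps Φ (Φ x) = x := by
  apply ext_inner_right ℝ
  intro y
  rw [inner_ps, ← inner_Phi h]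

theorem Phi_ps (h : Fr Φ) (A : Matrix (Fin N) (Fin N) 𝕜) (hA : Aᴴ = A) : Φ (ps Φ A) = A := by
  obtain ⟨x, rfl⟩ := h.surj A hA
  rw [ps_Phi h]

end Pool.Agent.H888R2.KC
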