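import Pool.Agent.H59.L.S8.H888R2.KC.Defs
import Pool.Agent.H59.L.S8.H888R2.KC.F1

/-!
# F2: conjugation, commutators, diagonal matrices
-/

set_option autoImplicit false

namespace Pool.Agent.H888R2.KC

open MeasureTheory Set Matrix
open scoped ENNReal InnerProductSpace
open Pool.Agent.H212R2.KLS (mu Bdd ev gr)

variable {𝕜 : Type} [RCLike 𝕜] {N : ℕ} {ι : Type} [Fintype ι]
  {Φ : EuclideanSpace ℝ ι →ₗ[ℝ] Matrix (Fin N) (Fin N) 𝕜}

namespace F2x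

theorem ip_tr (A B : Matrix (Fin N) (Fin N) 𝕜) : ip A B = RCLike.re (Aᴴ * B).trace := by
  unfold ip
  rw [Matrix.trace, map_sum, Finset.sum_comm]
  refine Finset.sum_congr rfl fun j _ => ?_
  rw [Matrix.diag_apply, Matrix.mul_apply, map_sum]
  rfl

theorem ip_conj (U : Matrix (Fin N) (Fin N) 𝕜) (hU : U ∈ Matrix.unitaryGroup (Fin N) 𝕜)
    (A B : Matrix (Fin N) (Fin N) 𝕜) : ip (U * A * Uᴴ) (U * B * Uᴴ) = ip A B := by
  have hUU : Uᴴ * U = 1 := by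
    have := (Matrix.mem_unitaryGroup_iff').1 hU
    rwa [Matrix.star_eq_conjTranspose] at this
  rw [ip_tr, ip_tr]
  congr 1
  rw [Matrix.conjTranspose_mul, Matrix.conjTranspose_mul, Matrix.conjTranspose_conjTranspose]
  calc (U * (Aᴴ * Uᴴ) * (U * B * Uᴴ)).trace
      = (U * (Aᴴ * (Uᴴ * U) * B * Uᴴ)).trace := by
        congr 1
        simp only [Matrix.mul_assoc]
    _ = (U * (Aᴴ * B * Uᴴ)).trace := by rw [hUU, Matrix.mul_one]
    _ = (Aᴴ * B * Uᴴ * U).trace := by rw [Matrix.trace_mul_comm]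
    _ = (Aᴴ * B * (Uᴴ * U)).trace := by rw [Matrix.mul_assoc]
    _ = (Aᴴ * B).trace := by rw [hUU, Matrix.mul_one]

theorem dm_herm (l : EuclideanSpace ℝ (Fin N)) : (dm 𝕜 l)ᴴ = dm 𝕜 l := by
  rw [dm, Matrix.diagonal_conjTranspose]
  congr 1
  ext i
  simp

theorem one_dm : (1 : Matrix (Fin N) (Fin N) 𝕜) = dm 𝕜 (WithLp.toLp 2 fun _ => (1 : ℝ)) := by
  rw [dm]
  simp

theorem ip_dm (l m : EuclideanSpace ℝ (Fin N)) : ip (dm 𝕜 l) (dm 𝕜 m) = ∑ i, l i * m i := by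
  rw [ip_tr, dm_herm, dm, dm, Matrix.diagonal_mul_diagonal, Matrix.trace_diagonal, map_sum]
  refine Finset.sum_congr rfl fun i _ => ?_
  rw [← RCLike.ofReal_mul, RCLike.ofReal_re]

end F2x

open F2x

theorem Phi_cj (h : Fr Φ) (U : Matrix (Fin N) (Fin N) 𝕜) (x : EuclideanSpace ℝ ι) :
    Φ (cj Φ U x) = U * Φ x * Uᴴ := by
  refine Phi_ps h _ ?_
  rw [Matrix.conjTranspose_mul, Matrix.conjTranspose_mul, Matrix.conjTranspose_conjTranspose,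
    h.herm, Matrix.mul_assoc]

theorem cj_cj (h : Fr Φ) (U W : Matrix (Fin N) (Fin N) 𝕜) (x : EuclideanSpace ℝ ι) :
    cj Φ U (cj Φ W x) = cj Φ (U * W) x := by
  show ps Φ (U * Φ (cj Φ W x) * Uᴴ) = ps Φ ((U * W) * Φ x * (U * W)ᴴ)
  rw [Phi_cj h, Matrix.conjTranspose_mul]
  congr 1
  simp only [Matrix.mul_assoc]

theorem cj_one (h : Fr Φ) (x : EuclideanSpace ℝ ι) : cj Φ 1 x = x := by
  show ps Φ (1 * Φ x * 1ᴴ) = x
  rw [Matrix.conjTranspose_one, Matrix.one_mul, Matrix.mul_one, ps_Phi h]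

theorem norm_cj (h : Fr Φ) (U : Matrix (Fin N) (Fin N) 𝕜) (hU : U ∈ Matrix.unitaryGroup (Fin N) 𝕜)
    (x : EuclideanSpace ℝ ι) : ‖cj Φ U x‖ = ‖x‖ := by
  have h1 : ‖cj Φ U x‖ ^ 2 = ‖x‖ ^ 2 := by
    rw [← real_inner_self_eq_norm_sq, ← real_inner_self_eq_norm_sq, inner_Phi h,
      inner_Phi h, Phi_cj h, ip_conj U hU]
  exact (sq_eq_sq₀ (norm_nonneg _) (norm_nonneg _)).1 h1

theorem mp_cj (h : Fr Φ) (U : Matrix (Fin N) (Fin N) 𝕜) (hU : U ∈ Matrix.unitaryGroup (Fin N) 𝕜) :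
    MeasurePreserving (cj Φ U) (volume : Measure (EuclideanSpace ℝ ι)) volume := by
  have hUU : Uᴴ * U = 1 := by
    have := (Matrix.mem_unitaryGroup_iff').1 hU
    rwa [Matrix.star_eq_conjTranspose] at this
  have hUU' : U * Uᴴ = 1 := by
    have := (Matrix.mem_unitaryGroup_iff).1 hU
    rwa [Matrix.star_eq_conjTranspose] at this
  have hl : ∀ x, cj Φ Uᴴ (cj Φ U x) = x := fun x => by rw [cj_cj h, hUU, cj_one h]
  have hr : ∀ x, cj Φ U (cj Φ Uᴴ x) = x := fun x => by rw [cj_cj h, hUU', cj_one h]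
  let e0 : EuclideanSpace ℝ ι ≃ₗ[ℝ] EuclideanSpace ℝ ι :=
    { cj Φ U with
      invFun := cj Φ Uᴴ
      left_inv := hl
      right_inv := hr }
  let e : EuclideanSpace ℝ ι ≃ₗᵢ[ℝ] EuclideanSpace ℝ ι :=
    { e0 with norm_map' := fun x => norm_cj h U hU x }
  exact e.measurePreserving

theorem Phi_ad (h : Fr Φ) (K : Matrix (Fin N) (Fin N) 𝕜) (hK : Kᴴ = -K)
    (x : EuclideanSpace ℝ ι) : Φ (ad Φ K x) = K * Φ x - Φ x * K := by
  refine Phi_ps h _ ?_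
  rw [Matrix.conjTranspose_sub, Matrix.conjTranspose_mul, Matrix.conjTranspose_mul, h.herm, hK]
  rw [Matrix.mul_neg, Matrix.neg_mul]
  abel

theorem ad_skew (h : Fr Φ) (K : Matrix (Fin N) (Fin N) 𝕜) (hK : Kᴴ = -K)
    (x y : EuclideanSpace ℝ ι) : ⟪ad Φ K x, y⟫_ℝ = - ⟪x, ad Φ K y⟫_ℝ := by
  rw [inner_Phi h, inner_Phi h, Phi_ad h K hK, Phi_ad h K hK, ip_tr, ip_tr, ← map_neg]
  congr 1
  rw [Matrix.conjTranspose_sub, Matrix.conjTranspose_mul, Matrix.conjTranspose_mul, h.herm, hK]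
  rw [Matrix.sub_mul, Matrix.mul_sub, Matrix.trace_sub, Matrix.trace_sub, Matrix.mul_neg,
    Matrix.neg_mul, Matrix.neg_mul, Matrix.neg_mul, Matrix.trace_neg, Matrix.trace_neg]
  have h1 : (K * Φ x * Φ y).trace = (Φ x * (Φ y * K)).trace := by
    rw [Matrix.mul_assoc, Matrix.trace_mul_comm, Matrix.mul_assoc]
  have h2 : (Φ x * K * Φ y).trace = (Φ x * (K * Φ y)).trace := by
    rw [Matrix.mul_assoc]
  rw [h1, h2]
  ring

theorem Phi_dg (h : Fr Φ) (l : EuclideanSpace ℝ (Fin N)) : Φ (dg Φ l) = dm 𝕜 l :=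
  Phi_ps h _ (dm_herm l)

theorem norm_dg (h : Fr Φ) (l : EuclideanSpace ℝ (Fin N)) : ‖dg Φ l‖ = ‖l‖ := by
  have h1 : ‖dg Φ l‖ ^ 2 = ‖l‖ ^ 2 := by
    rw [← real_inner_self_eq_norm_sq, inner_Phi h, Phi_dg h, ip_dm,
      EuclideanSpace.real_norm_sq_eq]
    refine Finset.sum_congr rfl fun i _ => ?_
    ring
  exact (sq_eq_sq₀ (norm_nonneg _) (norm_nonneg _)).1 h1

theorem norm_tv (h : Fr Φ) (hN : 1 ≤ N) : ‖tv Φ‖ = 1 := by
  have hN' : (0 : ℝ) < N := by exact_mod_cast hN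
  have h1 : ps Φ 1 = dg Φ (WithLp.toLp 2 fun _ => (1 : ℝ)) := by
    rw [one_dm]; rfl
  have h2 : ‖ps Φ 1‖ = Real.sqrt N := by
    rw [h1, norm_dg h, EuclideanSpace.norm_eq]
    simp
  rw [tv, norm_smul, h2, norm_inv, Real.norm_eq_abs, abs_of_pos (Real.sqrt_pos.2 hN')]
  exact inv_mul_cancel₀ (Real.sqrt_pos.2 hN').ne'

theorem inner_tv_dg (h : Fr Φ) (l : EuclideanSpace ℝ (Fin N)) :
    ⟪tv Φ, dg Φ l⟫_ℝ = (Real.sqrt N)⁻¹ * ∑ i, l i := by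
  have h1 : ps Φ 1 = dg Φ (WithLp.toLp 2 fun _ => (1 : ℝ)) := by
    rw [one_dm]; rfl
  rw [tv, real_inner_smul_left, h1, inner_Phi h, Phi_dg h, Phi_dg h, ip_dm]
  simp

theorem inner_tv_cj (h : Fr Φ) (U : Matrix (Fin N) (Fin N) 𝕜)
    (hU : U ∈ Matrix.unitaryGroup (Fin N) 𝕜) (x : EuclideanSpace ℝ ι) :
    ⟪tv Φ, cj Φ U x⟫_ℝ = ⟪tv Φ, x⟫_ℝ := by
  have hUU' : U * Uᴴ = 1 := by
    have := (Matrix.mem_unitaryGroup_iff).1 hU
    rwa [Matrix.star_eq_conjTranspose] at this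
  rw [tv, real_inner_smul_left, real_inner_smul_left, inner_ps, inner_ps, Phi_cj h]
  congr 1
  have := ip_conj U hU 1 (Φ x)
  rwa [Matrix.mul_one, hUU'] at this

end Pool.Agent.H888R2.KC
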