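import Pool.Agent.H59.L.S8.H888R2.KC.Defs
import Pool.Agent.H59.L.S8.H888R2.KC.F1
import Pool.Agent.H59.L.S8.H888R2.KC.F2

/-!
Task W1: the spectral theorem with increasing eigenvalues.
-/

set_option autoImplicit false

namespace Pool.Agent.H888R2.KC

open MeasureTheory Set Matrix
open scoped ENNReal InnerProductSpace
open Pool.Agent.H212R2.KLS (mu Bdd ev gr)

variable {𝕜 : Type} [RCLike 𝕜] {N : ℕ} {ι : Type} [Fintype ι]
  {Φ : EuclideanSpace ℝ ι →ₗ[ℝ] Matrix (Fin N) (Fin N) 𝕜}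

theorem spectral (h : Fr Φ) (x : EuclideanSpace ℝ ι) :
    ∃ U ∈ Matrix.unitaryGroup (Fin N) 𝕜, ∃ l : EuclideanSpace ℝ (Fin N),
      (Monotone fun i => l i) ∧ x = cj Φ U (dg Φ l) := by
  have hA : (Φ x).IsHermitian := h.herm x
  have h1 := hA.spectral_theorem
  rw [Unitary.conjStarAlgAut_apply, Matrix.star_eq_conjTranspose] at h1
  have hV : (hA.eigenvectorUnitary : Matrix (Fin N) (Fin N) 𝕜) *
      (hA.eigenvectorUnitary : Matrix (Fin N) (Fin N) 𝕜)ᴴ = 1 := by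
    have := Unitary.coe_mul_star_self hA.eigenvectorUnitary
    rwa [Unitary.coe_star, Matrix.star_eq_conjTranspose] at this
  obtain ⟨V, hVd⟩ : ∃ V : Matrix (Fin N) (Fin N) 𝕜,
    V = (hA.eigenvectorUnitary : Matrix (Fin N) (Fin N) 𝕜) := ⟨_, rfl⟩
  rw [← hVd] at hV h1
  obtain ⟨d, hd⟩ : ∃ d : Fin N → ℝ, d = hA.eigenvalues := ⟨_, rfl⟩
  rw [← hd] at h1
  have hmono : Monotone (d ∘ Tuple.sort d) := Tuple.monotone_sort d
  refine ⟨V.submatrix id (Tuple.sort d), ?_, WithLp.toLp 2 (d ∘ Tuple.sort d), hmono, ?_⟩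
  · rw [Matrix.mem_unitaryGroup_iff, Matrix.star_eq_conjTranspose, Matrix.conjTranspose_submatrix,
      Matrix.submatrix_mul_equiv, hV, Matrix.submatrix_id_id]
  · have e1 : dm 𝕜 (WithLp.toLp 2 (d ∘ Tuple.sort d) : EuclideanSpace ℝ (Fin N)) =
        (Matrix.diagonal (RCLike.ofReal ∘ d) : Matrix (Fin N) (Fin N) 𝕜).submatrix
          (Tuple.sort d) (Tuple.sort d) := by
      rw [Matrix.submatrix_diagonal_equiv]
      rfl
    change x = ps Φ (V.submatrix id (Tuple.sort d) *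
      Φ (dg Φ (WithLp.toLp 2 (d ∘ Tuple.sort d))) * (V.submatrix id (Tuple.sort d))ᴴ)
    rw [Phi_dg h, e1, Matrix.conjTranspose_submatrix, Matrix.submatrix_mul_equiv,
      Matrix.submatrix_mul_equiv, Matrix.submatrix_id_id, ← h1, ps_Phi h]

end Pool.Agent.H888R2.KC
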