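import Pool.Agent.H59.L.S8.H888R2.KC.Defs

/-! W2: the sign lemma (helper642). -/

set_option autoImplicit false

namespace Pool.Agent.H888R2.KC

open Matrix

variable {𝕜 : Type} [RCLike 𝕜] {N : ℕ}

namespace W2x

theorem affine (U : Matrix (Fin N) (Fin N) 𝕜) (ε : Fin N → ℝ) (a : Fin N) (t : ℝ) :
    (1 + U * Matrix.diagonal fun i => ((Function.update ε a t i : ℝ) : 𝕜)).det =
      ((1 + U * Matrix.diagonal fun i => ((ε i : ℝ) : 𝕜)).updateCol a (Pi.single a 1)).det +
      (t : 𝕜) * ((1 + U * Matrix.diagonal fun i => ((ε i : ℝ) : 𝕜)).updateCol a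
        (fun i => U i a)).det := by
  have h : (1 + U * Matrix.diagonal fun i => ((Function.update ε a t i : ℝ) : 𝕜)) =
      (1 + U * Matrix.diagonal fun i => ((ε i : ℝ) : 𝕜)).updateCol a
        (Pi.single a 1 + (t : 𝕜) • fun i => U i a) := by
    ext i j
    by_cases hj : j = a
    · subst hj
      rw [Matrix.updateCol_self]
      simp only [Matrix.add_apply, Matrix.mul_diagonal, Function.update_self, Pi.add_apply,
        Pi.smul_apply, smul_eq_mul, Matrix.one_apply, Pi.single_apply]
      ring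
    · rw [Matrix.updateCol_ne hj]
      simp only [Matrix.add_apply, Matrix.mul_diagonal, Function.update_of_ne hj]
  rw [h, Matrix.det_updateCol_add, Matrix.det_updateCol_smul]

theorem step (U : Matrix (Fin N) (Fin N) 𝕜) (S : Finset (Fin N)) :
    ∃ ε : Fin N → ℝ, (∀ i ∈ S, ε i = 1 ∨ ε i = -1) ∧ (∀ i, i ∉ S → ε i = 0) ∧
      (1 + U * Matrix.diagonal fun i => ((ε i : ℝ) : 𝕜)).det ≠ 0 := by
  classical
  induction S using Finset.induction_on with
  | empty =>
    refine ⟨fun _ => 0, ?_, ?_, ?_⟩
    · intro i hi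
      simp at hi
    · intro i _
      rfl
    · simp
  | insert a S ha ih =>
    obtain ⟨ε, h1, h2, h3⟩ := ih
    have key : ∃ t : ℝ, (t = 1 ∨ t = -1) ∧
        (1 + U * Matrix.diagonal fun i => ((Function.update ε a t i : ℝ) : 𝕜)).det ≠ 0 := by
      by_contra hcon
      push Not at hcon
      have e1 := hcon 1 (Or.inl rfl)
      have e2 := hcon (-1) (Or.inr rfl)
      have e0 : (1 + U * Matrix.diagonal fun i => ((Function.update ε a 0 i : ℝ) : 𝕜)).det ≠
          0 := by
        have : Function.update ε a 0 = ε := by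
          rw [← h2 a ha, Function.update_eq_self]
        rw [this]
        exact h3
      apply e0
      rw [affine] at e1 e2 ⊢
      have hx : ∀ x y : 𝕜, x + ((1 : ℝ) : 𝕜) * y = 0 → x + ((-1 : ℝ) : 𝕜) * y = 0 →
          x + ((0 : ℝ) : 𝕜) * y = 0 := by
        intro x y hx hy
        push_cast at hx hy ⊢
        linear_combination (1 / 2 : 𝕜) * hx + (1 / 2 : 𝕜) * hy
      exact hx _ _ e1 e2
    obtain ⟨t, ht, hdet⟩ := key
    refine ⟨Function.update ε a t, ?_, ?_, hdet⟩
    · intro i hi
      rcases Finset.mem_insert.1 hi with rfl | hi'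
      · rw [Function.update_self]
        exact ht
      · have hne : i ≠ a := by
          intro he
          rw [he] at hi'
          exact ha hi'
        rw [Function.update_of_ne hne]
        exact h1 i hi'
    · intro i hi
      rw [Finset.mem_insert, not_or] at hi
      rw [Function.update_of_ne hi.1]
      exact h2 i hi.2

end W2x

theorem sign_lemma (U : Matrix (Fin N) (Fin N) 𝕜) : ∃ ε : Fin N → ℝ, (∀ i, ε i = 1 ∨ ε i = -1) ∧
    (1 + U * Matrix.diagonal fun i => ((ε i : ℝ) : 𝕜)).det ≠ 0 := by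
  obtain ⟨ε, h1, _, h3⟩ := W2x.step U Finset.univ
  exact ⟨ε, fun i => h1 i (Finset.mem_univ i), h3⟩

end Pool.Agent.H888R2.KC
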