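import Pool.Agent.H59.L.S8.H888R2.KC.Defs

set_option autoImplicit false

namespace Pool.Agent.H888R2.KC

open MeasureTheory Set Matrix
open scoped ENNReal InnerProductSpace

namespace W2bx

variable {𝕜 : Type} [RCLike 𝕜] {N : ℕ}

open scoped ComplexOrder in
lemma unit1 (K : Matrix (Fin N) (Fin N) 𝕜) (hK : Kᴴ = -K) : IsUnit (1 + K).det := by
  rw [isUnit_iff_ne_zero]
  intro hdet
  obtain ⟨v, hv, hv0⟩ := Matrix.exists_mulVec_eq_zero_iff.mpr hdet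
  have h1 : K *ᵥ v = -v := by
    rw [Matrix.add_mulVec, Matrix.one_mulVec] at hv0
    exact (neg_eq_of_add_eq_zero_right hv0).symm
  have h2 : star (star v ⬝ᵥ (K *ᵥ v)) = - (star v ⬝ᵥ (K *ᵥ v)) := by
    have e1 : star (star v ⬝ᵥ (K *ᵥ v)) = star (K *ᵥ v) ⬝ᵥ v := by
      rw [← Matrix.star_dotProduct_star, star_star]
    rw [e1, Matrix.star_mulVec, hK, ← Matrix.dotProduct_mulVec, Matrix.neg_mulVec,
      dotProduct_neg]
  have h3 : star v ⬝ᵥ (K *ᵥ v) = - (star v ⬝ᵥ v) := by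
    rw [h1, dotProduct_neg]
  have h4 : star (star v ⬝ᵥ v) = star v ⬝ᵥ v := by
    rw [← Matrix.star_dotProduct_star, star_star]
  rw [h3, star_neg, h4, neg_neg] at h2
  have h5 : star v ⬝ᵥ v = 0 := by
    have : (2 : 𝕜) * (star v ⬝ᵥ v) = 0 := by linear_combination -h2
    rcases mul_eq_zero.mp this with h | h
    · exact absurd h two_ne_zero
    · exact h
  exact hv (dotProduct_star_self_eq_zero.mp h5)

end W2bx

open W2bx

variable {𝕜 : Type} [RCLike 𝕜] {N : ℕ}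

theorem cay_unit (K : Matrix (Fin N) (Fin N) 𝕜) (hK : Kᴴ = -K) :
    IsUnit (1 + K).det ∧ IsUnit (1 - K).det ∧ cay K ∈ Matrix.unitaryGroup (Fin N) 𝕜 := by
  have h1 := unit1 K hK
  have h2 : IsUnit (1 - K).det := by
    rw [sub_eq_add_neg]
    apply unit1
    rw [Matrix.conjTranspose_neg, hK]
  refine ⟨h1, h2, ?_⟩
  rw [Matrix.mem_unitaryGroup_iff, Matrix.star_eq_conjTranspose, cay,
    Matrix.conjTranspose_mul, Matrix.conjTranspose_nonsing_inv, Matrix.conjTranspose_add,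
    Matrix.conjTranspose_sub, Matrix.conjTranspose_one, hK, sub_neg_eq_add,
    ← sub_eq_add_neg]
  have hc : (1 - K) * (1 + K) = (1 + K) * (1 - K) := by noncomm_ring
  have hc2 : (1 + K)⁻¹ * (1 - K)⁻¹ = (1 - K)⁻¹ * (1 + K)⁻¹ := by
    rw [← Matrix.mul_inv_rev, ← Matrix.mul_inv_rev, hc]
  calc (1 - K) * (1 + K)⁻¹ * ((1 - K)⁻¹ * (1 + K)) =
      (1 - K) * ((1 + K)⁻¹ * (1 - K)⁻¹) * (1 + K) := by simp only [Matrix.mul_assoc]
    _ = ((1 - K) * (1 - K)⁻¹) * ((1 + K)⁻¹ * (1 + K)) := by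
      rw [hc2]; simp only [Matrix.mul_assoc]
    _ = 1 := by rw [Matrix.mul_nonsing_inv _ h2, Matrix.nonsing_inv_mul _ h1, one_mul]

theorem exists_cay (U : Matrix (Fin N) (Fin N) 𝕜) (hU : U ∈ Matrix.unitaryGroup (Fin N) 𝕜)
    (hd : (1 + U).det ≠ 0) : ∃ K, Kᴴ = -K ∧ U = cay K := by
  have h1 : IsUnit (1 + U).det := isUnit_iff_ne_zero.mpr hd
  have hU2 : Uᴴ * U = 1 := by
    rw [← Matrix.star_eq_conjTranspose]
    exact Matrix.mem_unitaryGroup_iff'.mp hU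
  have h2 : IsUnit (1 + Uᴴ).det := by
    have : (1 + Uᴴ) = (1 + U)ᴴ := by
      rw [Matrix.conjTranspose_add, Matrix.conjTranspose_one]
    rw [this, Matrix.det_conjTranspose]
    exact h1.star
  refine ⟨(1 - U) * (1 + U)⁻¹, ?_, ?_⟩
  · rw [Matrix.conjTranspose_mul, Matrix.conjTranspose_nonsing_inv, Matrix.conjTranspose_add,
      Matrix.conjTranspose_sub, Matrix.conjTranspose_one]
    have key : (1 - Uᴴ) * (1 + U) = (1 + Uᴴ) * (U - 1) := by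
      have e1 : (1 - Uᴴ) * (1 + U) = 1 + U - Uᴴ - Uᴴ * U := by noncomm_ring
      have e2 : (1 + Uᴴ) * (U - 1) = U - 1 - Uᴴ + Uᴴ * U := by noncomm_ring
      rw [e1, e2, hU2]
      abel
    calc (1 + Uᴴ)⁻¹ * (1 - Uᴴ) = (1 + Uᴴ)⁻¹ * ((1 - Uᴴ) * ((1 + U) * (1 + U)⁻¹)) := by
          rw [Matrix.mul_nonsing_inv _ h1, Matrix.mul_one]
      _ = (1 + Uᴴ)⁻¹ * ((1 - Uᴴ) * (1 + U)) * (1 + U)⁻¹ := by simp only [Matrix.mul_assoc]
      _ = ((1 + Uᴴ)⁻¹ * (1 + Uᴴ)) * (U - 1) * (1 + U)⁻¹ := by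
          rw [key]; simp only [Matrix.mul_assoc]
      _ = -((1 - U) * (1 + U)⁻¹) := by
          rw [Matrix.nonsing_inv_mul _ h2, Matrix.one_mul, ← neg_sub 1 U, Matrix.neg_mul]
  · set K := (1 - U) * (1 + U)⁻¹ with hKdef
    have hKU : K * (1 + U) = 1 - U := by
      rw [hKdef, Matrix.mul_assoc, Matrix.nonsing_inv_mul _ h1, Matrix.mul_one]
    have e1 : (1 + K) * (1 + U) = (2 : 𝕜) • (1 : Matrix (Fin N) (Fin N) 𝕜) := by
      rw [add_mul, hKU, one_mul, two_smul]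
      abel
    have e2 : (1 - K) * (1 + U) = (2 : 𝕜) • U := by
      rw [sub_mul, hKU, one_mul, two_smul]
      abel
    have e3 : (1 + K)⁻¹ = (2 : 𝕜)⁻¹ • (1 + U) := by
      apply Matrix.inv_eq_right_inv
      rw [Matrix.mul_smul, e1, smul_smul, inv_mul_cancel₀ two_ne_zero, one_smul]
    rw [cay, e3, Matrix.mul_smul, e2, smul_smul, inv_mul_cancel₀ two_ne_zero, one_smul]

end Pool.Agent.H888R2.KC
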