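import Pool.Agent.H59.L.S8.H888R2.KC.Defs
import Pool.Agent.H59.L.S8.H888R2.KC.A1
import Pool.Agent.H59.L.S8.H888R2.KC.F1
import Pool.Agent.H59.L.S8.H888R2.KC.F2
import Pool.Agent.H59.L.S8.H888R2.KC.F4
import Pool.Agent.H59.L.S8.H888R2.KC.W1
import Pool.Agent.H59.L.S8.H888R2.KC.W2
import Pool.Agent.H59.L.S8.H888R2.KC.W2b
import Pool.Agent.H59.L.S8.H212R2.KLS.A8

/-!
# Polynomials annihilated by all commutator fields are invariant under conjugation
-/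

set_option autoImplicit false

namespace Pool.Agent.H888R2.KC

open MeasureTheory Set Matrix
open scoped ENNReal InnerProductSpace
open Pool.Agent.H212R2.KLS (mu Bdd ev gr)

variable {𝕜 : Type} [RCLike 𝕜] {N : ℕ} {ι : Type} [Fintype ι]
  {Φ : EuclideanSpace ℝ ι →ₗ[ℝ] Matrix (Fin N) (Fin N) 𝕜}

namespace A6x

open Filter Topology

theorem dl_zero (p : MvPolynomial ι ℝ) (hp : ∀ k, dl (ad Φ (Km 𝕜 k)) p = 0)
    (K : Matrix (Fin N) (Fin N) 𝕜) (hK : Kᴴ = -K) : dl (ad Φ K) p = 0 := by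
  rw [dl_sum (fun k => ad Φ (Km 𝕜 k)) (fun k => ip (Km 𝕜 k) K) (ad Φ K) _ p]
  · apply Finset.sum_eq_zero
    intro k _
    rw [hp k, smul_zero]
  · intro x
    have h1 : K * Φ x - Φ x * K =
        ∑ k, ip (Km 𝕜 k) K • (Km 𝕜 k * Φ x - Φ x * Km 𝕜 k) := by
      conv_lhs => rw [← Km_complete K hK]
      rw [Finset.sum_mul, Finset.mul_sum, ← Finset.sum_sub_distrib]
      apply Finset.sum_congr rfl
      intro k _
      rw [smul_mul_assoc, mul_smul_comm, smul_sub]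
    show ps Φ (K * Φ x - Φ x * K) = ∑ k, ip (Km 𝕜 k) K • ps Φ (Km 𝕜 k * Φ x - Φ x * Km 𝕜 k)
    rw [h1, map_sum]
    apply Finset.sum_congr rfl
    intro k _
    rw [map_smul]

/-- the resolvent -/
noncomputable def Rs (K : Matrix (Fin N) (Fin N) 𝕜) (s : ℝ) : Matrix (Fin N) (Fin N) 𝕜 :=
  (1 + s • K)⁻¹

theorem skew_smul {K : Matrix (Fin N) (Fin N) 𝕜} (hK : Kᴴ = -K) (s : ℝ) :
    (s • K)ᴴ = -(s • K) := by
  rw [conjTranspose_smul, hK, star_trivial, smul_neg]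

theorem Rs_mul {K : Matrix (Fin N) (Fin N) 𝕜} (hK : Kᴴ = -K) (s : ℝ) :
    Rs K s * (1 + s • K) = 1 :=
  Matrix.nonsing_inv_mul _ (cay_unit (s • K) (skew_smul hK s)).1

theorem mul_Rs {K : Matrix (Fin N) (Fin N) 𝕜} (hK : Kᴴ = -K) (s : ℝ) :
    (1 + s • K) * Rs K s = 1 :=
  Matrix.mul_nonsing_inv _ (cay_unit (s • K) (skew_smul hK s)).1

theorem cay_eq {K : Matrix (Fin N) (Fin N) 𝕜} (hK : Kᴴ = -K) (s : ℝ) :
    cay (s • K) = (2 : ℝ) • Rs K s - 1 := by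
  have h1 : (1 - s • K) = (2 : ℝ) • (1 : Matrix (Fin N) (Fin N) 𝕜) - (1 + s • K) := by
    rw [two_smul]
    abel
  have h2 := mul_Rs hK s
  unfold cay
  show (1 - s • K) * Rs K s = _
  rw [h1, sub_mul, h2, smul_mul_assoc, one_mul]

theorem Rs_cont {K : Matrix (Fin N) (Fin N) 𝕜} (hK : Kᴴ = -K) : Continuous (Rs K) := by
  have h1 : Rs K = fun s : ℝ => (1 + s • K).det⁻¹ • (1 + s • K).adjugate := by
    funext s
    unfold Rs
    rw [Matrix.inv_def, Ring.inverse_eq_inv']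
  rw [h1]
  have hc : Continuous fun s : ℝ => (1 + s • K : Matrix (Fin N) (Fin N) 𝕜) :=
    continuous_const.add (continuous_id.smul continuous_const)
  refine Continuous.smul (Continuous.inv₀ hc.matrix_det ?_) hc.matrix_adjugate
  intro s
  exact (cay_unit (s • K) (skew_smul hK s)).1.ne_zero

theorem Rs_sub {K : Matrix (Fin N) (Fin N) 𝕜} (hK : Kᴴ = -K) (s t : ℝ) :
    Rs K t - Rs K s = -((t - s) • (Rs K t * K * Rs K s)) := by
  have h1 : Rs K t * ((1 + s • K) - (1 + t • K)) * Rs K s = Rs K t - Rs K s := by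
    rw [mul_sub, sub_mul, mul_assoc, mul_Rs hK s, mul_one, Rs_mul hK t, one_mul]
  rw [← h1]
  have h2 : (1 + s • K) - (1 + t • K) = -((t - s) • K) := by
    rw [sub_smul]
    abel
  rw [h2, mul_neg, neg_mul, mul_smul_comm, smul_mul_assoc]

theorem RRs {K : Matrix (Fin N) (Fin N) 𝕜} (hK : Kᴴ = -K) (s : ℝ) :
    (Rs K s)ᴴ * ((2 : ℝ) • Rs K s - 1) = Rs K s := by
  have h1 : (Rs K s)ᴴ * (1 - s • K) = 1 := by
    have := congrArg conjTranspose (mul_Rs hK s)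
    rw [conjTranspose_mul, conjTranspose_add, conjTranspose_one, skew_smul hK s] at this
    rw [sub_eq_add_neg]
    exact this
  have h2 : (Rs K s)ᴴ * ((1 - s • K) + (1 + s • K)) * Rs K s = Rs K s + (Rs K s)ᴴ := by
    rw [mul_add, add_mul, h1, one_mul, mul_assoc, mul_Rs hK s, mul_one]
  have h3 : (1 - s • K) + (1 + s • K) = (2 : ℝ) • (1 : Matrix (Fin N) (Fin N) 𝕜) := by
    rw [two_smul]
    abel
  rw [h3, mul_smul_comm, mul_one, smul_mul_assoc] at h2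
  rw [mul_sub, mul_one, mul_smul_comm, h2]
  abel

/-- the secant -/
noncomputable def Ws (K : Matrix (Fin N) (Fin N) 𝕜) (s t : ℝ) : Matrix (Fin N) (Fin N) 𝕜 :=
  (-2 : ℝ) • (Rs K t * K * (Rs K s)ᴴ)

theorem Ws_skew {K : Matrix (Fin N) (Fin N) 𝕜} (hK : Kᴴ = -K) (s : ℝ) :
    (Ws K s s)ᴴ = -Ws K s s := by
  unfold Ws
  rw [conjTranspose_smul, conjTranspose_mul, conjTranspose_mul, conjTranspose_conjTranspose, hK,
    star_trivial, ← smul_neg, ← mul_assoc, mul_neg, neg_mul]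

theorem cay_path {K : Matrix (Fin N) (Fin N) 𝕜} (hK : Kᴴ = -K) (s t : ℝ) :
    cay (t • K) = (1 + (t - s) • Ws K s t) * cay (s • K) := by
  rw [cay_eq hK, cay_eq hK, add_mul, one_mul]
  have h1 : (t - s) • Ws K s t * ((2 : ℝ) • Rs K s - 1) =
      (2 : ℝ) • (Rs K t - Rs K s) := by
    unfold Ws
    rw [smul_mul_assoc, smul_mul_assoc, mul_assoc (Rs K t * K), RRs hK s, Rs_sub hK s t,
      smul_comm, neg_smul, smul_neg]
  rw [h1, smul_sub]
  abel

theorem ps_cont : Continuous (ps Φ) := LinearMap.continuous_of_finiteDimensional _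

theorem cj_expand (h : Fr Φ) (W : Matrix (Fin N) (Fin N) 𝕜) (δ : ℝ) (v : EuclideanSpace ℝ ι) :
    cj Φ (1 + δ • W) v = v + δ • (ps Φ (W * Φ v + Φ v * Wᴴ) + δ • ps Φ (W * Φ v * Wᴴ)) := by
  have h1 : (1 + δ • W) * Φ v * (1 + δ • W)ᴴ =
      Φ v + δ • ((W * Φ v + Φ v * Wᴴ) + δ • (W * Φ v * Wᴴ)) := by
    rw [conjTranspose_add, conjTranspose_one, conjTranspose_smul, star_trivial]
    simp only [add_mul, mul_add, one_mul, mul_one, smul_mul_assoc, mul_smul_comm, smul_add]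
    abel
  show ps Φ ((1 + δ • W) * Φ v * (1 + δ • W)ᴴ) = _
  rw [h1, map_add, ps_Phi h, map_smul, map_add, map_smul]

theorem path_deriv (h : Fr Φ) {K : Matrix (Fin N) (Fin N) 𝕜} (hK : Kᴴ = -K)
    (x : EuclideanSpace ℝ ι) (s : ℝ) :
    HasDerivAt (fun t : ℝ => cj Φ (cay (t • K)) x)
      (ad Φ (Ws K s s) (cj Φ (cay (s • K)) x)) s := by
  rw [hasDerivAt_iff_tendsto_slope]
  set v := cj Φ (cay (s • K)) x with hv
  have hW : Continuous (Ws K s) := by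
    unfold Ws
    exact (((Rs_cont hK).mul continuous_const).mul continuous_const).const_smul (-2 : ℝ)
  have hWH : Continuous fun t => (Ws K s t)ᴴ := hW.matrix_conjTranspose
  have hcont : Continuous fun t : ℝ => ps Φ (Ws K s t * Φ v + Φ v * (Ws K s t)ᴴ) +
      (t - s) • ps Φ (Ws K s t * Φ v * (Ws K s t)ᴴ) := by
    have c1 : Continuous fun t : ℝ => ps Φ (Ws K s t * Φ v + Φ v * (Ws K s t)ᴴ) :=
      ps_cont.comp ((hW.mul continuous_const).add (continuous_const.mul hWH))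
    have c2 : Continuous fun t : ℝ => ps Φ (Ws K s t * Φ v * (Ws K s t)ᴴ) :=
      ps_cont.comp ((hW.mul continuous_const).mul hWH)
    have c3 : Continuous fun t : ℝ => t - s := continuous_id.sub continuous_const
    exact c1.add (c3.smul c2)
  have hval : ps Φ (Ws K s s * Φ v + Φ v * (Ws K s s)ᴴ) +
      (s - s) • ps Φ (Ws K s s * Φ v * (Ws K s s)ᴴ) = ad Φ (Ws K s s) v := by
    rw [sub_self, zero_smul, add_zero, Ws_skew hK, mul_neg, ← sub_eq_add_neg]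
    rfl
  have ht := hcont.tendsto s
  rw [hval] at ht
  refine (ht.mono_left nhdsWithin_le_nhds).congr' ?_
  filter_upwards [self_mem_nhdsWithin] with t hts
  have hne : t - s ≠ 0 := sub_ne_zero.2 hts
  rw [slope_def_module, ← hv]
  have h1 : cj Φ (cay (t • K)) x = cj Φ (1 + (t - s) • Ws K s t) v := by
    rw [hv, cj_cj h, ← cay_path hK s t]
  rw [h1, cj_expand h, add_sub_cancel_left, smul_smul, inv_mul_cancel₀ hne, one_smul]

theorem inv_cay (h : Fr Φ) (p : MvPolynomial ι ℝ) (hp : ∀ k, dl (ad Φ (Km 𝕜 k)) p = 0)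
    {K : Matrix (Fin N) (Fin N) 𝕜} (hK : Kᴴ = -K) (x : EuclideanSpace ℝ ι) :
    ev p (cj Φ (cay K) x) = ev p x := by
  have hd : ∀ s : ℝ, HasDerivAt (fun t : ℝ => ev p (cj Φ (cay (t • K)) x)) 0 s := by
    intro s
    have h1 : DifferentiableAt ℝ (ev p) (cj Φ (cay (s • K)) x) :=
      (Pool.Agent.H212R2.KLS.ev_contDiff p 1).differentiable (by norm_num) _
    have h2 := h1.hasFDerivAt.comp_hasDerivAt s (path_deriv h hK x s)
    rw [← ev_dl, dl_zero p hp _ (Ws_skew hK s)] at h2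
    have h3 : ev (0 : MvPolynomial ι ℝ) (cj Φ (cay (s • K)) x) = 0 := by
      unfold ev
      rw [map_zero]
    rw [h3] at h2
    exact h2
  have hconst := is_const_of_deriv_eq_zero (fun s => (hd s).differentiableAt)
    (fun s => (hd s).deriv) 1 0
  have h0 : cay ((0 : ℝ) • K) = 1 := by
    unfold cay
    rw [zero_smul, sub_zero, add_zero, inv_one, mul_one]
  rw [one_smul, h0, cj_one h] at hconst
  exact hconst

theorem inv_dg (h : Fr Φ) (p : MvPolynomial ι ℝ) (hp : ∀ k, dl (ad Φ (Km 𝕜 k)) p = 0)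
    (V : Matrix (Fin N) (Fin N) 𝕜) (hV : V ∈ Matrix.unitaryGroup (Fin N) 𝕜)
    (l : EuclideanSpace ℝ (Fin N)) : ev p (cj Φ V (dg Φ l)) = ev p (dg Φ l) := by
  obtain ⟨ε, hε, hdet⟩ := sign_lemma V
  set D : Matrix (Fin N) (Fin N) 𝕜 := Matrix.diagonal fun i => ((ε i : ℝ) : 𝕜) with hD
  have hee : ∀ i, ((ε i : ℝ) : 𝕜) * ((ε i : ℝ) : 𝕜) = 1 := by
    intro i
    rcases hε i with h1 | h1 <;> rw [h1] <;> simp
  have hDH : Dᴴ = D := by
    rw [hD, Matrix.diagonal_conjTranspose]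
    congr 1
    funext i
    simp
  have hDD : D * Dᴴ = 1 := by
    rw [hDH, hD, Matrix.diagonal_mul_diagonal]
    rw [← Matrix.diagonal_one]
    congr 1
    funext i
    exact hee i
  have hDl : D * dm 𝕜 l * Dᴴ = dm 𝕜 l := by
    rw [hDH, hD]
    unfold dm
    rw [Matrix.diagonal_mul_diagonal, Matrix.diagonal_mul_diagonal]
    congr 1
    funext i
    have := hee i
    calc ((ε i : ℝ) : 𝕜) * ((l i : ℝ) : 𝕜) * ((ε i : ℝ) : 𝕜) =
        ((ε i : ℝ) : 𝕜) * ((ε i : ℝ) : 𝕜) * ((l i : ℝ) : 𝕜) := by ring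
      _ = ((l i : ℝ) : 𝕜) := by rw [this, one_mul]
  have hDun : D ∈ Matrix.unitaryGroup (Fin N) 𝕜 := by
    rw [Matrix.mem_unitaryGroup_iff, Matrix.star_eq_conjTranspose]
    exact hDD
  obtain ⟨K, hK, hVK⟩ := exists_cay (V * D) (mul_mem hV hDun) hdet
  have h1 : cj Φ D (dg Φ l) = dg Φ l := by
    show ps Φ (D * Φ (dg Φ l) * Dᴴ) = ps Φ (dm 𝕜 l)
    rw [Phi_dg h, hDl]
  have h2 : cj Φ V (dg Φ l) = cj Φ (cay K) (dg Φ l) := by
    conv_lhs => rw [← h1]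
    rw [cj_cj h, hVK]
  rw [h2]
  exact inv_cay h p hp hK _

end A6x

theorem inv_of_dl (h : Fr Φ) (p : MvPolynomial ι ℝ) (hp : ∀ k, dl (ad Φ (Km 𝕜 k)) p = 0) :
    ∀ U ∈ Matrix.unitaryGroup (Fin N) 𝕜, ∀ x, ev p (cj Φ U x) = ev p x := by
  intro U hU x
  obtain ⟨V, hV, l, _, rfl⟩ := spectral h x
  rw [cj_cj h, A6x.inv_dg h p hp (U * V) (mul_mem hU hV) l, A6x.inv_dg h p hp V hV l]

end Pool.Agent.H888R2.KC
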