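import Pool.Agent.H59.L.S8.H888R2.KC.Defs
import Pool.Agent.H59.L.S8.H888R2.KC.F2

/-!
# F3: the operator norm
-/

set_option autoImplicit false

namespace Pool.Agent.H888R2.KC

open MeasureTheory Set Matrix
open scoped ENNReal InnerProductSpace
open Pool.Agent.H212R2.KLS (mu Bdd ev gr)

variable {𝕜 : Type} [RCLike 𝕜] {N : ℕ} {ι : Type} [Fintype ι]
  {Φ : EuclideanSpace ℝ ι →ₗ[ℝ] Matrix (Fin N) (Fin N) 𝕜}

namespace F3x

theorem unit_norm (U : Matrix (Fin N) (Fin N) 𝕜) (hU : U ∈ Matrix.unitaryGroup (Fin N) 𝕜)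
    (w : Fin N → 𝕜) : ‖(WithLp.toLp 2 (U *ᵥ w) : EuclideanSpace 𝕜 (Fin N))‖ =
      ‖(WithLp.toLp 2 w : EuclideanSpace 𝕜 (Fin N))‖ := by
  have h1 : Uᴴ * U = 1 := Matrix.mem_unitaryGroup_iff'.1 hU
  have h2 : (U *ᵥ w) ⬝ᵥ star (U *ᵥ w) = w ⬝ᵥ star w := by
    rw [dotProduct_comm, Matrix.star_mulVec, Matrix.dotProduct_mulVec, Matrix.vecMul_vecMul, h1,
      Matrix.vecMul_one, dotProduct_comm]
  have h3 : ∀ z : Fin N → 𝕜, ‖(WithLp.toLp 2 z : EuclideanSpace 𝕜 (Fin N))‖ ^ 2 =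
      RCLike.re (z ⬝ᵥ star z) := by
    intro z
    rw [← inner_self_eq_norm_sq (𝕜 := 𝕜), EuclideanSpace.inner_eq_star_dotProduct]
  have h4 : ‖(WithLp.toLp 2 (U *ᵥ w) : EuclideanSpace 𝕜 (Fin N))‖ ^ 2 =
      ‖(WithLp.toLp 2 w : EuclideanSpace 𝕜 (Fin N))‖ ^ 2 := by
    rw [h3, h3, h2]
  exact (pow_left_inj₀ (norm_nonneg _) (norm_nonneg _) two_ne_zero).1 h4

theorem unit_star {U : Matrix (Fin N) (Fin N) 𝕜} (hU : U ∈ Matrix.unitaryGroup (Fin N) 𝕜) :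
    Uᴴ ∈ Matrix.unitaryGroup (Fin N) 𝕜 := by
  rw [Matrix.mem_unitaryGroup_iff]
  have h1 : Uᴴ * U = 1 := Matrix.mem_unitaryGroup_iff'.1 hU
  rw [Matrix.star_eq_conjTranspose, Matrix.conjTranspose_conjTranspose]; exact h1

theorem OpL_conj (U A : Matrix (Fin N) (Fin N) 𝕜) (hU : U ∈ Matrix.unitaryGroup (Fin N) 𝕜)
    (r : ℝ) (h : OpL r A) : OpL r (U * A * Uᴴ) := by
  intro v
  rw [← Matrix.mulVec_mulVec, ← Matrix.mulVec_mulVec, unit_norm U hU]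
  refine (h (WithLp.toLp 2 (Uᴴ *ᵥ v.ofLp))).trans (le_of_eq ?_)
  rw [unit_norm _ (unit_star hU)]

end F3x

open F3x

theorem OpL_cj (h : Fr Φ) (U : Matrix (Fin N) (Fin N) 𝕜) (hU : U ∈ Matrix.unitaryGroup (Fin N) 𝕜)
    (r : ℝ) (x : EuclideanSpace ℝ ι) : OpL r (Φ (cj Φ U x)) ↔ OpL r (Φ x) := by
  rw [Phi_cj h]
  constructor
  · intro h1
    have h2 := OpL_conj Uᴴ _ (unit_star hU) r h1
    have h3 : Uᴴ * U = 1 := Matrix.mem_unitaryGroup_iff'.1 hU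
    have h4 : Uᴴ * (U * Φ x * Uᴴ) * Uᴴᴴ = Φ x := by
      rw [Matrix.conjTranspose_conjTranspose]
      calc Uᴴ * (U * Φ x * Uᴴ) * U = (Uᴴ * U) * Φ x * (Uᴴ * U) := by simp only [Matrix.mul_assoc]
        _ = Φ x := by rw [h3, Matrix.one_mul, Matrix.mul_one]
    rwa [h4] at h2
  · exact OpL_conj U _ hU r

theorem OpL_dm (r : ℝ) (l : EuclideanSpace ℝ (Fin N)) (hl : OpL r (dm 𝕜 l)) (i : Fin N) :
    |l i| ≤ r := by
  have h1 := hl (EuclideanSpace.single i 1)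
  have h2 : (WithLp.toLp 2 (dm 𝕜 l *ᵥ (EuclideanSpace.single i (1 : 𝕜)).ofLp) :
      EuclideanSpace 𝕜 (Fin N)) = EuclideanSpace.single i ((l i : ℝ) : 𝕜) := by
    ext j
    simp only [dm, Matrix.mulVec_diagonal, EuclideanSpace.single_apply]
    by_cases hj : j = i
    · subst hj; simp
    · simp [hj]
  rw [h2, EuclideanSpace.norm_single, EuclideanSpace.norm_single, norm_one, mul_one,
    RCLike.norm_ofReal] at h1
  exact h1

theorem norm_le_OpL (h : Fr Φ) (r : ℝ) (hr : 0 ≤ r) (x : EuclideanSpace ℝ ι)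
    (hx : OpL r (Φ x)) : ‖x‖ ≤ Real.sqrt N * r := by
  have h1 : ∀ j : Fin N, ∑ i, ‖Φ x i j‖ ^ 2 ≤ r ^ 2 := by
    intro j
    have h2 := hx (EuclideanSpace.single j 1)
    rw [EuclideanSpace.norm_single, norm_one, mul_one] at h2
    have h3 : ‖(WithLp.toLp 2 (Φ x *ᵥ (EuclideanSpace.single j (1 : 𝕜)).ofLp) :
      EuclideanSpace 𝕜 (Fin N))‖ ^ 2 = ∑ i, ‖Φ x i j‖ ^ 2 := by
      rw [EuclideanSpace.norm_sq_eq]
      refine Finset.sum_congr rfl (fun i _ => ?_)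
      congr 2
      simp only [Matrix.mulVec, dotProduct]
      rw [Finset.sum_eq_single j]
      · simp
      · intro k _ hk
        simp [hk]
      · intro hj
        exact absurd (Finset.mem_univ _) hj
    rw [← h3]
    exact pow_le_pow_left₀ (norm_nonneg _) h2 2
  have h4 : ‖x‖ ^ 2 ≤ (Real.sqrt N * r) ^ 2 := by
    rw [← h.iso x, Finset.sum_comm, mul_pow, Real.sq_sqrt (Nat.cast_nonneg N)]
    refine (Finset.sum_le_card_nsmul _ _ _ (fun j _ => h1 j)).trans (le_of_eq ?_)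
    rw [Finset.card_univ, Fintype.card_fin, nsmul_eq_mul]
  exact (sq_le_sq₀ (norm_nonneg _) (by positivity)).1 h4

theorem OpL_closed (r : ℝ) : IsClosed {x : EuclideanSpace ℝ ι | OpL r (Φ x)} := by
  have h1 : {x : EuclideanSpace ℝ ι | OpL r (Φ x)} = ⋂ v : EuclideanSpace 𝕜 (Fin N),
      {x : EuclideanSpace ℝ ι |
        ‖(WithLp.toLp 2 (Φ x *ᵥ v.ofLp) : EuclideanSpace 𝕜 (Fin N))‖ ≤ r * ‖v‖} := by
    ext x
    simp [OpL]
  rw [h1]
  refine isClosed_iInter (fun v => ?_)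
  have hc : Continuous (fun x : EuclideanSpace ℝ ι => Φ x) := Φ.continuous_of_finiteDimensional
  have h2 : Continuous (fun x : EuclideanSpace ℝ ι =>
      (WithLp.toLp 2 (Φ x *ᵥ v.ofLp) : EuclideanSpace 𝕜 (Fin N))) :=
    (PiLp.continuous_toLp 2 _).comp (hc.matrix_mulVec continuous_const)
  exact isClosed_le h2.norm continuous_const

theorem OpL_convex (r : ℝ) : Convex ℝ {x : EuclideanSpace ℝ ι | OpL r (Φ x)} := by
  intro x hx y hy a b ha hb hab v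
  have h1 : (WithLp.toLp 2 (Φ (a • x + b • y) *ᵥ v.ofLp) : EuclideanSpace 𝕜 (Fin N)) =
      a • (WithLp.toLp 2 (Φ x *ᵥ v.ofLp) : EuclideanSpace 𝕜 (Fin N)) +
      b • (WithLp.toLp 2 (Φ y *ᵥ v.ofLp) : EuclideanSpace 𝕜 (Fin N)) := by
    rw [map_add, map_smul, map_smul, Matrix.add_mulVec, Matrix.smul_mulVec, Matrix.smul_mulVec]
    rfl
  rw [h1]
  calc _ ≤ a * ‖(WithLp.toLp 2 (Φ x *ᵥ v.ofLp) : EuclideanSpace 𝕜 (Fin N))‖ +
        b * ‖(WithLp.toLp 2 (Φ y *ᵥ v.ofLp) : EuclideanSpace 𝕜 (Fin N))‖ := by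
        refine (norm_add_le _ _).trans (le_of_eq ?_)
        rw [norm_smul, norm_smul, Real.norm_of_nonneg ha, Real.norm_of_nonneg hb]
    _ ≤ a * (r * ‖v‖) + b * (r * ‖v‖) :=
        add_le_add (mul_le_mul_of_nonneg_left (hx v) ha) (mul_le_mul_of_nonneg_left (hy v) hb)
    _ = r * ‖v‖ := by rw [← add_mul, hab, one_mul]

end Pool.Agent.H888R2.KC
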