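import Pool.Agent.H59.L.S8.H888R2.KC.Defs
import Pool.Agent.H59.L.S8.H888R2.KC.F2
import Pool.Agent.H59.L.S8.H888R2.KC.F3

/-!
# KLS for conjugation invariant log-concave measures: L1, basic constructions of densities
-/

set_option autoImplicit false

namespace Pool.Agent.H888R2.KC

open MeasureTheory Set Matrix
open scoped ENNReal InnerProductSpace
open Pool.Agent.H212R2.KLS (mu Bdd ev gr)

variable {𝕜 : Type} [RCLike 𝕜] {N : ℕ} {ι : Type} [Fintype ι]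
  {Φ : EuclideanSpace ℝ ι →ₗ[ℝ] Matrix (Fin N) (Fin N) 𝕜}

namespace L1x

theorem map_mu (h : Fr Φ) {ρ : EuclideanSpace ℝ ι → ℝ} (hρ : Dn Φ ρ)
    (U : Matrix (Fin N) (Fin N) 𝕜) (hU : U ∈ Matrix.unitaryGroup (Fin N) 𝕜) :
    (mu ρ).map (cj Φ U) = mu ρ := by
  have hmp := mp_cj h U hU
  ext s hs
  rw [Measure.map_apply hmp.measurable hs]
  unfold mu
  rw [withDensity_apply _ (hmp.measurable hs), withDensity_apply _ hs,
    ← hmp.setLIntegral_comp_preimage hs hρ.meas.ennreal_ofReal]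
  simp only [hρ.inv U hU]

theorem indicator {ρ : EuclideanSpace ℝ ι → ℝ} (hρ : Dn Φ ρ) (B : Set (EuclideanSpace ℝ ι))
    (hB : Convex ℝ B) (hBm : MeasurableSet B)
    (hBi : ∀ U ∈ Matrix.unitaryGroup (Fin N) 𝕜, ∀ x, cj Φ U x ∈ B ↔ x ∈ B) :
    Dn Φ (B.indicator ρ) where
  nonneg x := indicator_nonneg (fun x _ => hρ.nonneg x) x
  meas := hρ.meas.indicator hBm
  logc x y t ht0 ht1 := by
    have hn : 0 ≤ B.indicator ρ ((1 - t) • x + t • y) :=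
      indicator_nonneg (fun x _ => hρ.nonneg x) _
    by_cases hx : x ∈ B
    · by_cases hy : y ∈ B
      · have hz : (1 - t) • x + t • y ∈ B := hB hx hy (by linarith) ht0.le (by ring)
        rw [indicator_of_mem hx, indicator_of_mem hy, indicator_of_mem hz]
        exact hρ.logc x y t ht0 ht1
      · rw [indicator_of_notMem hy, Real.zero_rpow ht0.ne', mul_zero]
        exact hn
    · rw [indicator_of_notMem hx, Real.zero_rpow (by linarith : 1 - t ≠ 0), zero_mul]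
      exact hn
  inv U hU x := by
    by_cases hx : x ∈ B
    · rw [indicator_of_mem hx, indicator_of_mem ((hBi U hU x).2 hx), hρ.inv U hU]
    · rw [indicator_of_notMem hx, indicator_of_notMem (fun h => hx ((hBi U hU x).1 h))]

theorem smul {ρ : EuclideanSpace ℝ ι → ℝ} (h : Dn Φ ρ) (c : ℝ) (hc : 0 ≤ c) :
    Dn Φ (fun x => c * ρ x) where
  nonneg x := mul_nonneg hc (h.nonneg x)
  meas := h.meas.const_mul c
  logc x y t ht0 ht1 := by
    have h1 := h.logc x y t ht0 ht1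
    rw [Real.mul_rpow hc (h.nonneg x), Real.mul_rpow hc (h.nonneg y)]
    have h2 : c ^ (1 - t) * c ^ t ≤ c := by
      rcases hc.eq_or_lt with h3 | h3
      · rw [← h3, Real.zero_rpow ht0.ne']
        simp
      · rw [← Real.rpow_add h3]
        simp
    calc c ^ (1 - t) * ρ x ^ (1 - t) * (c ^ t * ρ y ^ t)
        = (c ^ (1 - t) * c ^ t) * (ρ x ^ (1 - t) * ρ y ^ t) := by ring
      _ ≤ c * ρ ((1 - t) • x + t • y) := by
        apply mul_le_mul h2 h1 _ hc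
        exact mul_nonneg (Real.rpow_nonneg (h.nonneg x) _) (Real.rpow_nonneg (h.nonneg y) _)
  inv g hg x := by rw [h.inv g hg x]

theorem tilt (h : Fr Φ) {ρ : EuclideanSpace ℝ ι → ℝ} (hρ : Dn Φ ρ) (K : ℝ) (hK : 0 < K) (τ : ℝ) :
    Dn Φ (fun x => ρ x * Real.exp (-((⟪tv Φ, x⟫_ℝ - τ) ^ 2 / (2 * K)))) where
  nonneg x := mul_nonneg (hρ.nonneg x) (Real.exp_pos _).le
  meas := by
    apply hρ.meas.mul
    apply Continuous.measurable
    fun_prop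
  logc x y t ht0 ht1 := by
    have h1 := hρ.logc x y t ht0 ht1
    rw [Real.mul_rpow (hρ.nonneg x) (Real.exp_pos _).le,
      Real.mul_rpow (hρ.nonneg y) (Real.exp_pos _).le, ← Real.exp_mul, ← Real.exp_mul]
    have e1 : ⟪tv Φ, (1 - t) • x + t • y⟫_ℝ = (1 - t) * ⟪tv Φ, x⟫_ℝ + t * ⟪tv Φ, y⟫_ℝ := by
      rw [inner_add_right, inner_smul_right, inner_smul_right]
    rw [e1]
    set a := ⟪tv Φ, x⟫_ℝ with ha
    set b := ⟪tv Φ, y⟫_ℝ with hb
    have h2 : -((a - τ) ^ 2 / (2 * K)) * (1 - t) + -((b - τ) ^ 2 / (2 * K)) * t ≤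
        -(((1 - t) * a + t * b - τ) ^ 2 / (2 * K)) := by
      have h3 : ((1 - t) * a + t * b - τ) ^ 2 ≤ (1 - t) * (a - τ) ^ 2 + t * (b - τ) ^ 2 := by
        have h4 : (1 - t) * (a - τ) ^ 2 + t * (b - τ) ^ 2 - ((1 - t) * a + t * b - τ) ^ 2 =
            t * (1 - t) * (a - b) ^ 2 := by ring
        have h5 : 0 ≤ t * (1 - t) * (a - b) ^ 2 :=
          mul_nonneg (mul_nonneg ht0.le (by linarith)) (sq_nonneg _)
        linarith
      have h4 : ((1 - t) * a + t * b - τ) ^ 2 / (2 * K) ≤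
          ((1 - t) * (a - τ) ^ 2 + t * (b - τ) ^ 2) / (2 * K) :=
        div_le_div_of_nonneg_right h3 (by positivity)
      have h5 : ((1 - t) * (a - τ) ^ 2 + t * (b - τ) ^ 2) / (2 * K) =
          (a - τ) ^ 2 / (2 * K) * (1 - t) + (b - τ) ^ 2 / (2 * K) * t := by ring
      linarith
    calc ρ x ^ (1 - t) * Real.exp (-((a - τ) ^ 2 / (2 * K)) * (1 - t)) *
          (ρ y ^ t * Real.exp (-((b - τ) ^ 2 / (2 * K)) * t))
        = (ρ x ^ (1 - t) * ρ y ^ t) *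
          Real.exp (-((a - τ) ^ 2 / (2 * K)) * (1 - t) + -((b - τ) ^ 2 / (2 * K)) * t) := by
          rw [Real.exp_add]
          ring
      _ ≤ ρ ((1 - t) • x + t • y) *
          Real.exp (-(((1 - t) * a + t * b - τ) ^ 2 / (2 * K))) :=
        mul_le_mul h1 (Real.exp_le_exp.2 h2) (Real.exp_pos _).le (hρ.nonneg _)
  inv U hU x := by rw [hρ.inv U hU, inner_tv_cj h U hU]

theorem mid {ρ : EuclideanSpace ℝ ι → ℝ} (hρ : Dn Φ ρ) (x y : EuclideanSpace ℝ ι) :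
    ρ x * ρ y ≤ (ρ ((1 / 2 : ℝ) • (x + y))) ^ 2 := by
  have h1 := hρ.logc x y (1 / 2) (by norm_num) (by norm_num)
  have e1 : (1 - (1 / 2 : ℝ)) = 1 / 2 := by norm_num
  rw [e1, ← smul_add, ← Real.sqrt_eq_rpow, ← Real.sqrt_eq_rpow,
    ← Real.sqrt_mul (hρ.nonneg x)] at h1
  have h2 := pow_le_pow_left₀ (Real.sqrt_nonneg _) h1 2
  rwa [Real.sq_sqrt (mul_nonneg (hρ.nonneg x) (hρ.nonneg y))] at h2

theorem tilt_ts {ρ : EuclideanSpace ℝ ι → ℝ} (hρ : Dn Φ ρ) (K : ℝ) (hK : 0 < K) (τ : ℝ) :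
    Ts Φ K (fun x => ρ x * Real.exp (-((⟪tv Φ, x⟫_ℝ - τ) ^ 2 / (2 * K)))) := by
  intro x y
  have h1 := mid hρ x y
  have e1 : ⟪tv Φ, (1 / 2 : ℝ) • (x + y)⟫_ℝ = (1 / 2) * (⟪tv Φ, x⟫_ℝ + ⟪tv Φ, y⟫_ℝ) := by
    rw [inner_smul_right, inner_add_right]
  have e2 : ⟪tv Φ, x - y⟫_ℝ = ⟪tv Φ, x⟫_ℝ - ⟪tv Φ, y⟫_ℝ := inner_sub_right _ _ _
  simp only [e1, e2]
  set a := ⟪tv Φ, x⟫_ℝ with ha
  set b := ⟪tv Φ, y⟫_ℝ with hb
  have e3 : Real.exp (-((a - τ) ^ 2 / (2 * K))) * Real.exp (-((b - τ) ^ 2 / (2 * K))) =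
      Real.exp (-((1 / 2 * (a + b) - τ) ^ 2 / (2 * K))) ^ 2 *
        Real.exp (-((a - b) ^ 2 / (4 * K))) := by
    rw [← Real.exp_add, ← Real.exp_nat_mul, ← Real.exp_add]
    congr 1
    push_cast
    field_simp
    ring
  calc ρ x * Real.exp (-((a - τ) ^ 2 / (2 * K))) * (ρ y * Real.exp (-((b - τ) ^ 2 / (2 * K))))
      = (ρ x * ρ y) * (Real.exp (-((a - τ) ^ 2 / (2 * K))) *
        Real.exp (-((b - τ) ^ 2 / (2 * K)))) := by ring
    _ = (ρ x * ρ y) * (Real.exp (-((1 / 2 * (a + b) - τ) ^ 2 / (2 * K))) ^ 2 *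
        Real.exp (-((a - b) ^ 2 / (4 * K)))) := by rw [e3]
    _ ≤ (ρ ((1 / 2 : ℝ) • (x + y))) ^ 2 * (Real.exp (-((1 / 2 * (a + b) - τ) ^ 2 / (2 * K))) ^ 2 *
        Real.exp (-((a - b) ^ 2 / (4 * K)))) := mul_le_mul_of_nonneg_right h1 (by positivity)
    _ = _ := by ring

end L1x

open L1x in
theorem Dn.basic (h : Fr Φ) {ρ : EuclideanSpace ℝ ι → ℝ} (hρ : Dn Φ ρ) :
    (∀ U ∈ Matrix.unitaryGroup (Fin N) 𝕜, (mu ρ).map (cj Φ U) = mu ρ) ∧
    (∀ r, Dn Φ ({x | OpL r (Φ x)}.indicator ρ)) ∧ (∀ r, Dn Φ ({x | ‖x‖ ≤ r}.indicator ρ)) ∧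
    (∀ c, 0 ≤ c → Dn Φ (fun x => c * ρ x)) ∧
    (∀ K : ℝ, 0 < K → ∀ τ : ℝ,
      Dn Φ (fun x => ρ x * Real.exp (-((⟪tv Φ, x⟫_ℝ - τ) ^ 2 / (2 * K)))) ∧
      Ts Φ K (fun x => ρ x * Real.exp (-((⟪tv Φ, x⟫_ℝ - τ) ^ 2 / (2 * K))))) := by
  refine ⟨map_mu h hρ, fun r => ?_, fun r => ?_, smul hρ, fun K hK τ =>
    ⟨tilt h hρ K hK τ, tilt_ts hρ K hK τ⟩⟩
  · exact L1x.indicator hρ _ (OpL_convex r) (OpL_closed r).measurableSet
      (fun U hU x => OpL_cj h U hU r x)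
  · refine L1x.indicator hρ _ ?_ ?_ (fun U hU x => ?_)
    · have : {x : EuclideanSpace ℝ ι | ‖x‖ ≤ r} = Metric.closedBall 0 r := by
        ext x
        simp
      rw [this]
      exact convex_closedBall 0 r
    · exact (isClosed_le continuous_norm continuous_const).measurableSet
    · show ‖cj Φ U x‖ ≤ r ↔ ‖x‖ ≤ r
      rw [norm_cj h U hU]

end Pool.Agent.H888R2.KC
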