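import Pool.Agent.H59.L.S8.H888R2.KC.Defs
import Pool.Agent.H59.L.S8.H888R2.KC.A3
import Pool.Agent.H59.L.S8.H888R2.KC.A4
import Pool.Agent.H59.L.S8.H888R2.KC.A5
import Pool.Agent.H59.L.S8.H888R2.KC.A6
import Pool.Agent.H59.L.S8.H888R2.KC.A7
import Pool.Agent.H59.L.S8.H888R2.KC.F2
import Pool.Agent.H59.L.S8.H888R2.KC.F4
import Pool.Agent.H59.L.S8.H888R2.KC.F5
import Pool.Agent.H59.L.S8.H888R2.KC.L1
import Pool.Agent.H59.L.S8.H212R2.KLS.A8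

/-!
# Task A8: assembly of the angular part
-/

set_option autoImplicit false

namespace Pool.Agent.H888R2.KC

open MeasureTheory Set Matrix
open scoped ENNReal InnerProductSpace
open Pool.Agent.H212R2.KLS (mu Bdd ev gr)

variable {𝕜 : Type} [RCLike 𝕜] {N : ℕ} {ι : Type} [Fintype ι]
  {Φ : EuclideanSpace ℝ ι →ₗ[ℝ] Matrix (Fin N) (Fin N) 𝕜}

namespace A8x

theorem ball_null (ρ : EuclideanSpace ℝ ι → ℝ) (hb : Bdd ρ) :
    ∃ R, mu ρ (Metric.closedBall 0 R)ᶜ = 0 := by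
  obtain ⟨R, hR⟩ := hb
  refine ⟨R, ?_⟩
  unfold mu
  rw [withDensity_apply _ Metric.isClosed_closedBall.measurableSet.compl]
  refine (setLIntegral_congr_fun Metric.isClosed_closedBall.measurableSet.compl
    (g := fun _ => 0) fun x hx => ?_).trans (by simp)
  rw [mem_compl_iff, mem_closedBall_zero_iff, not_le] at hx
  simp only
  rw [hR x hx, ENNReal.ofReal_zero]

theorem ae_op (ρ : EuclideanSpace ℝ ι → ℝ) (hm : Measurable ρ) (r : ℝ)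
    (hs : ∀ x, ¬ OpL r (Φ x) → ρ x = 0) : ∀ᵐ x ∂(mu ρ), OpL r (Φ x) := by
  unfold mu
  rw [ae_withDensity_iff hm.ennreal_ofReal]
  refine Filter.Eventually.of_forall fun x hx => ?_
  by_contra h
  exact hx (by rw [hs x h, ENNReal.ofReal_zero])

theorem integrable_of_cont (μ : Measure (EuclideanSpace ℝ ι)) [IsFiniteMeasure μ]
    (hb : ∃ R, μ (Metric.closedBall 0 R)ᶜ = 0) (f : EuclideanSpace ℝ ι → ℝ) (hf : Continuous f) :
    Integrable f μ := by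
  obtain ⟨R, hR⟩ := hb
  have h1 : μ.restrict (Metric.closedBall 0 R) = μ :=
    Measure.restrict_eq_self_of_ae_mem (by
      rw [ae_iff]
      exact hR)
  have h2 : IntegrableOn f (Metric.closedBall 0 R) μ :=
    hf.continuousOn.integrableOn_compact (isCompact_closedBall _ _)
  unfold IntegrableOn at h2
  rwa [h1] at h2

end A8x

open A8x

theorem angular (h : Fr Φ) (hN : 3 ≤ N) (ρ : EuclideanSpace ℝ ι → ℝ) (hρ : Dn Φ ρ)
    [IsFiniteMeasure (mu ρ)] (hb : Bdd ρ) (hne : mu ρ ≠ 0) (r : ℝ) (hr : 0 < r)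
    (hs : ∀ x, ¬ OpL r (Φ x) → ρ x = 0) (p : MvPolynomial ι ℝ) :
    ∃ p0 : MvPolynomial ι ℝ, (∀ U ∈ Matrix.unitaryGroup (Fin N) 𝕜, ∀ x, ev p0 (cj Φ U x) = ev p0 x) ∧
      ∫ x, (ev p x - ev p0 x) ∂(mu ρ) = 0 ∧ ∫ x, ev p0 x * (ev p x - ev p0 x) ∂(mu ρ) = 0 ∧
      ∫ x, (ev p x - ev p0 x) ^ 2 ∂(mu ρ) ≤
        48 * r ^ 2 / N * ∫ x, ‖fderiv ℝ (ev p) x‖ ^ 2 ∂(mu ρ) ∧
      ∫ x, ‖fderiv ℝ (ev p0) x‖ ^ 2 ∂(mu ρ) ≤ ∫ x, ‖fderiv ℝ (ev p) x‖ ^ 2 ∂(mu ρ) := by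
  obtain ⟨c, κ0, hκ, hc1, hc2, hcomm, hkil⟩ := struc h (show 1 ≤ N by omega)
  have hN' : (3 : ℝ) ≤ N := by exact_mod_cast hN
  have hκ0 : 0 < κ0 := by linarith
  have hball := ball_null ρ hb
  have hcont : ∀ q : MvPolynomial ι ℝ, Continuous (ev q) := fun q =>
    (Pool.Agent.H212R2.KLS.ev_contDiff q 0).continuous
  obtain ⟨p0, h0, h1, h2, h3, h4⟩ := angular_gen (fun k => ad Φ (Km 𝕜 k))
    (fun k x y => ad_skew h (Km 𝕜 k) (Km_skew k) x y) c hc1 hc2 hcomm κ0 hκ0 hkil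
    (mu ρ) hball
    (fun k q => dl_ad_integral h (mu ρ) (Dn.basic h hρ).1 hball (Km 𝕜 k)
      (Km_skew k) q)
    (fun q hq => ev_pos ρ hρ.nonneg hρ.meas hρ.logc hb hne q hq) p
  refine ⟨p0, inv_of_dl h p0 h0, h1, h2, ?_, ?_⟩
  · have hgr : (fun x => ‖fderiv ℝ (ev p) x‖ ^ 2) = fun x => ev (gr p p) x := by
      funext x
      rw [Pool.Agent.H212R2.KLS.ev_gr]
    have hJi : Integrable (fun x => ‖fderiv ℝ (ev p) x‖ ^ 2) (mu ρ) := by
      rw [hgr]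
      exact integrable_of_cont _ hball _ (hcont _)
    have hki : ∀ k : KI N, Integrable (fun x => (ev (dl (ad Φ (Km 𝕜 k)) p) x) ^ 2) (mu ρ) :=
      fun k => integrable_of_cont _ hball _ ((hcont _).pow 2)
    have hsum : ∑ k, ∫ x, (ev (dl (ad Φ (Km 𝕜 k)) p) x) ^ 2 ∂(mu ρ) ≤
        4 * r ^ 2 * ∫ x, ‖fderiv ℝ (ev p) x‖ ^ 2 ∂(mu ρ) := by
      rw [← integral_finsetSum _ (fun k _ => hki k), ← integral_const_mul]
      refine integral_mono_ae (integrable_finsetSum _ fun k _ => hki k) (hJi.const_mul _) ?_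
      filter_upwards [ae_op ρ hρ.meas r hs] with x hx
      exact dl_bound h p x r hr.le hx
    have hI : 0 ≤ ∫ x, (ev p x - ev p0 x) ^ 2 ∂(mu ρ) := integral_nonneg fun x => sq_nonneg _
    have h5 := h3.trans hsum
    generalize ∫ x, (ev p x - ev p0 x) ^ 2 ∂(mu ρ) = II at *
    generalize ∫ x, ‖fderiv ℝ (ev p) x‖ ^ 2 ∂(mu ρ) = JJ at *
    have h6 : (N : ℝ) / 3 * II ≤ κ0 * II := mul_le_mul_of_nonneg_right (by linarith) hI
    have hNpos : (0 : ℝ) < N := by linarith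
    rw [div_mul_eq_mul_div, le_div_iff₀ hNpos]
    nlinarith
  · have hgr : ∀ q : MvPolynomial ι ℝ, (fun x => ‖fderiv ℝ (ev q) x‖ ^ 2) =
        fun x => ev (gr q q) x := by
      intro q
      funext x
      rw [Pool.Agent.H212R2.KLS.ev_gr]
    rw [hgr p, hgr p0]
    exact h4

end Pool.Agent.H888R2.KC
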