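import Pool.Agent.H59.L.S8.H888R2.KC.Defs

/-! R1: midpoint inequality for the Vandermonde product (helper642). -/

set_option autoImplicit false

namespace Pool.Agent.H888R2.KC

variable {N : ℕ}

namespace R1x

/-- the two-point inequality -/
theorem two (r a b : ℝ) (hr : 0 < r) (ha : 0 < a) (hb : 0 < b) (h : a + b ≤ 4 * r) :
    a * b ≤ ((a + b) / 2) ^ 2 * Real.exp (-((a - b) ^ 2 / (16 * r ^ 2))) := by
  have hab : 0 < a + b := by positivity
  have h1 : a * b = ((a + b) / 2) ^ 2 * (1 - (a - b) ^ 2 / (a + b) ^ 2) := by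
    field_simp
    ring
  rw [h1]
  refine mul_le_mul_of_nonneg_left ?_ (by positivity)
  have h2 : 1 - (a - b) ^ 2 / (a + b) ^ 2 ≤ Real.exp (-((a - b) ^ 2 / (a + b) ^ 2)) := by
    have := Real.add_one_le_exp (-((a - b) ^ 2 / (a + b) ^ 2))
    linarith
  refine h2.trans (Real.exp_le_exp.2 (neg_le_neg ?_))
  have h3 : (a + b) ^ 2 ≤ 16 * r ^ 2 := by nlinarith
  exact div_le_div_of_nonneg_left (sq_nonneg _) (by positivity) h3

/-- the sum over pairs -/
theorem pairs (v : Fin N → ℝ) :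
    ∑ p : {p : Fin N × Fin N // p.1 < p.2}, (v p.1.2 - v p.1.1) ^ 2 =
      N * ∑ i, v i ^ 2 - (∑ i, v i) ^ 2 := by
  have h1 : ∑ p : {p : Fin N × Fin N // p.1 < p.2}, (v p.1.2 - v p.1.1) ^ 2 =
      ∑ i, ∑ j, if i < j then (v j - v i) ^ 2 else 0 := by
    rw [← Finset.sum_subtype (Finset.univ.filter fun p : Fin N × Fin N => p.1 < p.2)
      (by simp) (fun p : Fin N × Fin N => (v p.2 - v p.1) ^ 2), Finset.sum_filter,
      Fintype.sum_prod_type]
  have h2 : ∑ i, ∑ j, (v j - v i) ^ 2 =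
      (∑ i, ∑ j, if i < j then (v j - v i) ^ 2 else 0) +
      ∑ i, ∑ j, if j < i then (v j - v i) ^ 2 else 0 := by
    rw [← Finset.sum_add_distrib]
    refine Finset.sum_congr rfl fun i _ => ?_
    rw [← Finset.sum_add_distrib]
    refine Finset.sum_congr rfl fun j _ => ?_
    rcases lt_trichotomy i j with h | h | h
    · rw [if_pos h, if_neg (not_lt.2 h.le), add_zero]
    · subst h
      simp
    · rw [if_neg (not_lt.2 h.le), if_pos h, zero_add]
  have h3 : (∑ i, ∑ j, if j < i then (v j - v i) ^ 2 else 0) =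
      ∑ i, ∑ j, if i < j then (v j - v i) ^ 2 else 0 := by
    rw [Finset.sum_comm]
    refine Finset.sum_congr rfl fun i _ => Finset.sum_congr rfl fun j _ => ?_
    split_ifs
    · ring
    · rfl
  have h4 : ∑ i, ∑ j, (v j - v i) ^ 2 = 2 * (N * ∑ i, v i ^ 2 - (∑ i, v i) ^ 2) := by
    have e : ∀ i j : Fin N, (v j - v i) ^ 2 = v j ^ 2 + v i ^ 2 - 2 * (v i * v j) := by
      intro i j
      ring
    simp only [e, Finset.sum_sub_distrib, Finset.sum_add_distrib, ← Finset.mul_sum,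
      Finset.sum_const, Finset.card_univ, Fintype.card_fin, nsmul_eq_mul, ← Finset.sum_mul]
    ring
  rw [h1]
  rw [h4, h3] at h2
  linarith

end R1x

theorem cw_mid (β : ℕ) (hβ : 1 ≤ β) (r : ℝ) (hr : 0 < r) (l m : EuclideanSpace ℝ (Fin N))
    (hl : l ∈ Ch N) (hm : m ∈ Ch N) (hlr : ∀ i, |l i| ≤ r) (hmr : ∀ i, |m i| ≤ r) :
    vd l ^ β * vd m ^ β ≤ (vd ((1 / 2 : ℝ) • (l + m)) ^ β) ^ 2 *
      Real.exp (-((N * ‖l - m‖ ^ 2 - (∑ i, (l i - m i)) ^ 2) / (16 * r ^ 2))) := by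
  have hl' : ∀ p : {p : Fin N × Fin N // p.1 < p.2}, 0 < l p.1.2 - l p.1.1 := by
    intro p
    have := hl p.2
    simp only at this
    linarith
  have hm' : ∀ p : {p : Fin N × Fin N // p.1 < p.2}, 0 < m p.1.2 - m p.1.1 := by
    intro p
    have := hm p.2
    simp only at this
    linarith
  have hS : N * ‖l - m‖ ^ 2 - (∑ i, (l i - m i)) ^ 2 =
      ∑ p : {p : Fin N × Fin N // p.1 < p.2}, ((l p.1.2 - l p.1.1) - (m p.1.2 - m p.1.1)) ^ 2 := by
    rw [EuclideanSpace.norm_sq_eq]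
    have := R1x.pairs (fun i => l i - m i)
    simp only at this
    rw [show (∑ i, ‖(l - m) i‖ ^ 2) = ∑ i, (l i - m i) ^ 2 by
      refine Finset.sum_congr rfl fun i _ => ?_
      rw [Real.norm_eq_abs, sq_abs]
      rfl]
    rw [← this]
    refine Finset.sum_congr rfl fun p _ => ?_
    ring
  have h1 : vd l * vd m ≤ vd ((1 / 2 : ℝ) • (l + m)) ^ 2 *
      Real.exp (-((N * ‖l - m‖ ^ 2 - (∑ i, (l i - m i)) ^ 2) / (16 * r ^ 2))) := by
    rw [hS]
    unfold vd
    rw [← Finset.prod_mul_distrib, ← Finset.prod_pow, Finset.sum_div, ← Finset.sum_neg_distrib,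
      Real.exp_sum, ← Finset.prod_mul_distrib]
    refine Finset.prod_le_prod (fun p _ => (mul_pos (hl' p) (hm' p)).le) fun p _ => ?_
    have h2 := R1x.two r _ _ hr (hl' p) (hm' p) (by
      have e1 := abs_le.1 (hlr p.1.1)
      have e2 := abs_le.1 (hlr p.1.2)
      have e3 := abs_le.1 (hmr p.1.1)
      have e4 := abs_le.1 (hmr p.1.2)
      linarith)
    refine h2.trans (le_of_eq ?_)
    congr 2
    simp only [PiLp.smul_apply, PiLp.add_apply, smul_eq_mul]
    ring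
  have hS0 : 0 ≤ (N * ‖l - m‖ ^ 2 - (∑ i, (l i - m i)) ^ 2) / (16 * r ^ 2) := by
    rw [hS]
    positivity
  have hl0 : 0 ≤ vd l := Finset.prod_nonneg fun p _ => (hl' p).le
  have hm0 : 0 ≤ vd m := Finset.prod_nonneg fun p _ => (hm' p).le
  rw [← mul_pow]
  refine (pow_le_pow_left₀ (mul_nonneg hl0 hm0) h1 β).trans ?_
  rw [mul_pow, ← pow_mul, mul_comm 2 β, pow_mul]
  refine mul_le_mul_of_nonneg_left ?_ (by positivity)
  exact pow_le_of_le_one (Real.exp_pos _).le (Real.exp_le_one_iff.2 (by linarith)) (by omega)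

end Pool.Agent.H888R2.KC
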