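import Pool.Agent.H59.L.S8.H888R2.KC.Defs

/-! # W5d (explicit frame) -/

set_option autoImplicit false

namespace Pool.Agent.H888R2.KC

open MeasureTheory Set Matrix
open scoped ENNReal InnerProductSpace

variable {𝕜 : Type} [RCLike 𝕜] {N : ℕ}

namespace W5dx

theorem F0_lt (x : EuclideanSpace ℝ (II 𝕜 N)) {i j : Fin N} (h : i < j) :
    F0 𝕜 N x i j = up x ⟨(i, j), h⟩ := by
  change (if h : i < j then up x ⟨(i, j), h⟩ else if h : j < i then star (up x ⟨(j, i), h⟩) else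
      ((x (Sum.inl i) : ℝ) : 𝕜)) = _
  rw [dif_pos h]

theorem F0_gt (x : EuclideanSpace ℝ (II 𝕜 N)) {i j : Fin N} (h : j < i) :
    F0 𝕜 N x i j = star (up x ⟨(j, i), h⟩) := by
  change (if h : i < j then up x ⟨(i, j), h⟩ else if h : j < i then star (up x ⟨(j, i), h⟩) else
      ((x (Sum.inl i) : ℝ) : 𝕜)) = _
  rw [dif_neg (not_lt.2 h.le), dif_pos h]

theorem F0_diag (x : EuclideanSpace ℝ (II 𝕜 N)) (i : Fin N) :
    F0 𝕜 N x i i = ((x (Sum.inl i) : ℝ) : 𝕜) := by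
  change (if h : i < i then up x ⟨(i, i), h⟩ else if h : i < i then star (up x ⟨(i, i), h⟩) else
      ((x (Sum.inl i) : ℝ) : 𝕜)) = _
  rw [dif_neg (lt_irrefl i), dif_neg (lt_irrefl i)]

theorem norm_up (x : EuclideanSpace ℝ (II 𝕜 N)) (p : {p : Fin N × Fin N // p.1 < p.2}) :
    ‖up x p‖ ^ 2 = (1 / 2) * ∑ t, x (Sum.inr (p, t)) ^ 2 := by
  have h1 : up x p = (Real.sqrt 2)⁻¹ • ((stdOrthonormalBasis ℝ 𝕜).repr.symm
      (WithLp.toLp 2 fun t => x (Sum.inr (p, t)))) := by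
    rw [← OrthonormalBasis.sum_repr_symm]
    rfl
  rw [h1, norm_smul, mul_pow, LinearIsometryEquiv.norm_map, EuclideanSpace.real_norm_sq_eq]
  congr 1
  rw [norm_inv, Real.norm_eq_abs, inv_pow, sq_abs, Real.sq_sqrt (by norm_num)]
  norm_num

theorem sum_split (f : Fin N → Fin N → ℝ) :
    ∑ i, ∑ j, f i j = ∑ i, f i i + ∑ p : {p : Fin N × Fin N // p.1 < p.2},
      (f p.1.1 p.1.2 + f p.1.2 p.1.1) := by
  classical
  have h1 : ∀ g : Fin N → Fin N → ℝ, ∑ p : {p : Fin N × Fin N // p.1 < p.2}, g p.1.1 p.1.2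
      = ∑ i, ∑ j, if i < j then g i j else 0 := by
    intro g
    rw [← Fintype.sum_prod_type' (fun i j => if i < j then g i j else 0)]
    rw [← Finset.sum_filter]
    rw [Finset.sum_subtype (Finset.univ.filter fun p : Fin N × Fin N => p.1 < p.2)
      (p := fun p : Fin N × Fin N => p.1 < p.2) (fun x => by simp) (fun p => g p.1 p.2)]
  rw [Finset.sum_add_distrib, h1 f, h1 (fun i j => f j i)]
  rw [Finset.sum_comm (f := fun i j => if i < j then f j i else 0), ← Finset.sum_add_distrib,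
    ← Finset.sum_add_distrib]
  apply Finset.sum_congr rfl
  intro i _
  have h2 : f i i = ∑ j, if i = j then f i j else 0 := by simp
  rw [h2, ← Finset.sum_add_distrib, ← Finset.sum_add_distrib]
  apply Finset.sum_congr rfl
  intro j _
  rcases lt_trichotomy i j with h | h | h
  · simp [h, h.ne, not_lt.2 h.le]
  · simp [h]
  · simp [h, h.ne', not_lt.2 h.le]

theorem herm (x : EuclideanSpace ℝ (II 𝕜 N)) : (F0 𝕜 N x)ᴴ = F0 𝕜 N x := by
  ext i j
  rw [Matrix.conjTranspose_apply]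
  rcases lt_trichotomy i j with h | h | h
  · rw [F0_lt x h, F0_gt x h, star_star]
  · subst h
    rw [F0_diag]
    simp
  · rw [F0_gt x h, F0_lt x h]

theorem iso (x : EuclideanSpace ℝ (II 𝕜 N)) : ∑ i, ∑ j, ‖F0 𝕜 N x i j‖ ^ 2 = ‖x‖ ^ 2 := by
  rw [sum_split, EuclideanSpace.real_norm_sq_eq, Fintype.sum_sum_type, Fintype.sum_prod_type]
  congr 1
  · apply Finset.sum_congr rfl
    intro i _
    rw [F0_diag, RCLike.norm_ofReal, sq_abs]
  · apply Finset.sum_congr rfl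
    intro p _
    rw [F0_lt x p.2, F0_gt x p.2, norm_star]
    rw [norm_up]
    ring

theorem surj (A : Matrix (Fin N) (Fin N) 𝕜) (hA : Aᴴ = A) : ∃ x, F0 𝕜 N x = A := by
  have hA' : ∀ i j, star (A j i) = A i j := by
    intro i j
    conv_rhs => rw [← hA]
    rw [Matrix.conjTranspose_apply]
  refine ⟨WithLp.toLp 2 (Sum.elim (fun i => RCLike.re (A i i)) (fun q : JJ 𝕜 N =>
    Real.sqrt 2 * (stdOrthonormalBasis ℝ 𝕜).repr (A q.1.1.1 q.1.1.2) q.2)), ?_⟩
  set x : EuclideanSpace ℝ (II 𝕜 N) := WithLp.toLp 2 (Sum.elim (fun i => RCLike.re (A i i))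
    (fun q : JJ 𝕜 N => Real.sqrt 2 * (stdOrthonormalBasis ℝ 𝕜).repr (A q.1.1.1 q.1.1.2) q.2))
    with hx
  have hup : ∀ p : {p : Fin N × Fin N // p.1 < p.2}, up x p = A p.1.1 p.1.2 := by
    intro p
    have h1 : up x p = (Real.sqrt 2)⁻¹ • ∑ t, (Real.sqrt 2 *
      (stdOrthonormalBasis ℝ 𝕜).repr (A p.1.1 p.1.2) t) • stdOrthonormalBasis ℝ 𝕜 t := rfl
    rw [h1]
    simp_rw [mul_smul]
    rw [← Finset.smul_sum, smul_smul, inv_mul_cancel₀ (by positivity), one_smul,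
      OrthonormalBasis.sum_repr]
  ext i j
  rcases lt_trichotomy i j with h | h | h
  · rw [F0_lt x h, hup]
  · subst h
    rw [F0_diag]
    have h1 : x (Sum.inl i) = RCLike.re (A i i) := rfl
    rw [h1]
    have h2 := hA' i i
    exact RCLike.conj_eq_iff_re.1 h2
  · rw [F0_gt x h, hup, hA']

end W5dx

-- W5d (explicit frame)
theorem F0_frame (𝕜 : Type) [RCLike 𝕜] (N : ℕ) : Fr (F0 𝕜 N) :=
  ⟨W5dx.herm, W5dx.surj, W5dx.iso⟩

theorem dp_F0 (y : EuclideanSpace ℝ (II 𝕜 N)) (i : Fin N) : dp (F0 𝕜 N) y i = y (Sum.inl i) := by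
  change RCLike.re (F0 𝕜 N y i i) = _
  rw [W5dx.F0_diag, RCLike.ofReal_re]

theorem ip_F0 (y : EuclideanSpace ℝ (II 𝕜 N)) :
    ip (sk (F0 𝕜 N y)) (sk (F0 𝕜 N y)) = ∑ j : JJ 𝕜 N, y (Sum.inr j) ^ 2 := by
  have h0 : ∀ z : 𝕜, RCLike.re (star z * z) = ‖z‖ ^ 2 := by
    intro z
    rw [← RCLike.normSq_eq_def', RCLike.star_def, ← RCLike.ofReal_re (K := 𝕜) (RCLike.normSq z)]
    congr 1
    rw [RCLike.normSq_eq_def', RCLike.conj_mul]
    simp
  unfold ip
  rw [W5dx.sum_split, Fintype.sum_prod_type]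
  have h1 : ∑ i, RCLike.re (star (sk (F0 𝕜 N y) i i) * sk (F0 𝕜 N y) i i) = 0 := by
    apply Finset.sum_eq_zero
    intro i _
    simp [sk]
  rw [h1, zero_add]
  apply Finset.sum_congr rfl
  intro p _
  rw [h0, h0]
  have h2 : sk (F0 𝕜 N y) p.1.1 p.1.2 = up y p := by
    simp only [sk, Matrix.of_apply]
    rw [if_pos p.2, W5dx.F0_lt y p.2]
  have h3 : sk (F0 𝕜 N y) p.1.2 p.1.1 = - star (up y p) := by
    simp only [sk, Matrix.of_apply]
    rw [if_neg (not_lt.2 p.2.le), if_pos p.2, W5dx.F0_gt y p.2]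
  rw [h2, h3, norm_neg, norm_star, W5dx.norm_up]
  ring

end Pool.Agent.H888R2.KC
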