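import Pool.Agent.H59.L.S8.H888R2.KC.Defs
import Pool.Agent.H59.L.S8.H888R2.KC.F2
import Pool.Agent.H59.L.S8.H888R2.KC.W1

/-!
# W3: almost every Hermitian matrix has simple spectrum
-/

set_option autoImplicit false

namespace Pool.Agent.H888R2.KC

open MeasureTheory Set Matrix
open scoped ENNReal InnerProductSpace

namespace W3x

variable {𝕜 : Type} [RCLike 𝕜] {N : ℕ} {ι : Type} [Fintype ι]
  {Φ : EuclideanSpace ℝ ι →ₗ[ℝ] Matrix (Fin N) (Fin N) 𝕜}

/-- a set all of whose traces on lines in a fixed direction are null is null -/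
theorem null_dir {F : Type*} [NormedAddCommGroup F] [NormedSpace ℝ F] [FiniteDimensional ℝ F]
    [MeasurableSpace F] [BorelSpace F] (ν : Measure F) [ν.IsAddHaarMeasure] (S : Set F)
    (hS : MeasurableSet S) (J : F) (h : ∀ x, volume {t : ℝ | x + t • J ∈ S} = 0) : ν S = 0 := by
  have hmeas : Measurable (fun p : F × ℝ => S.indicator (1 : F → ℝ≥0∞) (p.1 + p.2 • J)) := by
    have h1 : Measurable (S.indicator (1 : F → ℝ≥0∞)) := measurable_one.indicator hS
    exact h1.comp (by fun_prop)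
  have h2 : ∫⁻ t : ℝ in Icc (0:ℝ) 1, (∫⁻ x, S.indicator (1 : F → ℝ≥0∞) (x + t • J) ∂ν) =
      ∫⁻ x, (∫⁻ t : ℝ in Icc (0:ℝ) 1, S.indicator (1 : F → ℝ≥0∞) (x + t • J)) ∂ν := by
    rw [lintegral_lintegral_swap]
    exact (hmeas.comp measurable_swap).aemeasurable
  have h3 : ∀ t : ℝ, ∫⁻ x, S.indicator (1 : F → ℝ≥0∞) (x + t • J) ∂ν = ν S := by
    intro t
    rw [lintegral_add_right_eq_self (μ := ν) (fun x => S.indicator (1 : F → ℝ≥0∞) x) (t • J)]
    rw [lintegral_indicator_one hS]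
  have h4 : ∀ x : F, ∫⁻ t in Icc (0:ℝ) 1, S.indicator (1 : F → ℝ≥0∞) (x + t • J) = 0 := by
    intro x
    have h5 : ∫⁻ t : ℝ, S.indicator (1 : F → ℝ≥0∞) (x + t • J) = 0 := by
      have : (fun t : ℝ => S.indicator (1 : F → ℝ≥0∞) (x + t • J)) =
          {t : ℝ | x + t • J ∈ S}.indicator 1 := by
        funext t
        by_cases ht : x + t • J ∈ S
        · rw [indicator_of_mem ht, indicator_of_mem (show t ∈ {t : ℝ | x + t • J ∈ S} from ht)]
          rfl
        · rw [indicator_of_notMem ht, indicator_of_notMem (show t ∉ {t : ℝ | x + t • J ∈ S} from ht)]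
      rw [this, lintegral_indicator_one]
      · exact h x
      · exact (show Measurable fun t : ℝ => x + t • J by fun_prop) hS
    exact le_antisymm ((setLIntegral_le_lintegral _ _).trans h5.le) bot_le
  simp only [h3, h4] at h2
  simpa using h2

/-- the discriminant, as a determinant of power sums -/
noncomputable def Q (A : Matrix (Fin N) (Fin N) 𝕜) : ℝ :=
  (Matrix.of fun a b : Fin N => RCLike.re ((A ^ ((a : ℕ) + (b : ℕ))).trace)).det

theorem pow_conj (U D : Matrix (Fin N) (Fin N) 𝕜) (hU : Uᴴ * U = 1) (k : ℕ) (hU' : U * Uᴴ = 1) :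
    (U * D * Uᴴ) ^ k = U * D ^ k * Uᴴ := by
  induction k with
  | zero => rw [pow_zero, pow_zero, Matrix.mul_one, hU']
  | succ k ih =>
    rw [pow_succ, ih, pow_succ]
    calc U * D ^ k * Uᴴ * (U * D * Uᴴ) = U * D ^ k * (Uᴴ * U) * D * Uᴴ := by
          simp only [Matrix.mul_assoc]
      _ = U * (D ^ k * D) * Uᴴ := by rw [hU]; simp only [Matrix.mul_assoc, Matrix.mul_one]

theorem Q_spec (U : Matrix (Fin N) (Fin N) 𝕜) (hU : U ∈ Matrix.unitaryGroup (Fin N) 𝕜)
    (l : EuclideanSpace ℝ (Fin N)) :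
    Q (U * dm 𝕜 l * Uᴴ) = (Matrix.vandermonde fun i => l i).det ^ 2 := by
  have h1 : Uᴴ * U = 1 := Matrix.mem_unitaryGroup_iff'.1 hU
  have h2 : U * Uᴴ = 1 := Matrix.mem_unitaryGroup_iff.1 hU
  have h3 : (Matrix.of fun a b : Fin N =>
      RCLike.re (((U * dm 𝕜 l * Uᴴ) ^ ((a : ℕ) + (b : ℕ))).trace)) =
      (Matrix.vandermonde fun i => l i)ᵀ * Matrix.vandermonde fun i => l i := by
    ext a b
    rw [Matrix.vandermonde_transpose_mul_vandermonde, Matrix.of_apply, pow_conj U _ h1 _ h2,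
      Matrix.trace_mul_cycle, h1, Matrix.one_mul, dm, Matrix.diagonal_pow, Matrix.trace_diagonal,
      map_sum]
    apply Finset.sum_congr rfl
    intro i _
    rw [Pi.pow_apply, ← RCLike.ofReal_pow, RCLike.ofReal_re]
  unfold Q
  rw [h3, Matrix.det_mul, Matrix.det_transpose, sq]

theorem Q_ne_zero (U : Matrix (Fin N) (Fin N) 𝕜) (hU : U ∈ Matrix.unitaryGroup (Fin N) 𝕜)
    (l : EuclideanSpace ℝ (Fin N)) :
    Q (U * dm 𝕜 l * Uᴴ) ≠ 0 ↔ Function.Injective fun i => l i := by
  rw [Q_spec U hU, ← Matrix.det_vandermonde_ne_zero_iff]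
  simp

theorem an_pow (A B : Matrix (Fin N) (Fin N) 𝕜) (k : ℕ) (i j : Fin N) (t₀ : ℝ) :
    AnalyticAt ℝ (fun t : ℝ => ((A + t • B) ^ k) i j) t₀ := by
  induction k generalizing i j with
  | zero =>
    simp only [pow_zero]
    exact analyticAt_const
  | succ k ih =>
    simp only [pow_succ, Matrix.mul_apply, Matrix.add_apply, Matrix.smul_apply]
    apply Finset.analyticAt_fun_sum
    intro l _
    apply (ih i l).mul
    apply analyticAt_const.add
    exact analyticAt_id.smul analyticAt_const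

theorem an_Q (A B : Matrix (Fin N) (Fin N) 𝕜) (t₀ : ℝ) :
    AnalyticAt ℝ (fun t : ℝ => Q (A + t • B)) t₀ := by
  unfold Q
  simp only [Matrix.det_apply', Matrix.of_apply, Matrix.trace, Matrix.diag_apply]
  apply Finset.analyticAt_fun_sum
  intro σ _
  apply analyticAt_const.mul
  apply Finset.analyticAt_fun_prod
  intro i _
  have h : AnalyticAt ℝ (fun t : ℝ => ∑ x : Fin N,
      ((A + t • B) ^ (((σ i : Fin N) : ℕ) + (i : ℕ))) x x) t₀ := by
    apply Finset.analyticAt_fun_sum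
    intro x _
    exact an_pow A B _ x x t₀
  exact ((RCLike.reCLM : 𝕜 →L[ℝ] ℝ).analyticAt _).comp h

theorem cont_Q : Continuous (fun A : Matrix (Fin N) (Fin N) 𝕜 => Q A) := by
  unfold Q
  refine Continuous.matrix_det ?_
  refine continuous_matrix fun a b => ?_
  simp only [Matrix.of_apply]
  exact RCLike.continuous_re.comp (Continuous.matrix_trace (continuous_id.pow _))

theorem cont_Phi (Φ : EuclideanSpace ℝ ι →ₗ[ℝ] Matrix (Fin N) (Fin N) 𝕜) :
    Continuous (fun x => Φ x) := by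
  refine continuous_matrix fun i j => ?_
  exact ((Matrix.entryLinearMap ℝ 𝕜 i j).comp Φ).continuous_of_finiteDimensional

end W3x

open W3x in
theorem ae_simple {𝕜 : Type} [RCLike 𝕜] {N : ℕ} {ι : Type} [Fintype ι]
    {Φ : EuclideanSpace ℝ ι →ₗ[ℝ] Matrix (Fin N) (Fin N) 𝕜} (h : Fr Φ) :
    ∀ᵐ x : EuclideanSpace ℝ ι,
    ∃ U ∈ Matrix.unitaryGroup (Fin N) 𝕜, ∃ l ∈ Ch N, x = cj Φ U (dg Φ l) := by
  -- spectral form of `Φ x`
  have hspec : ∀ (U : Matrix (Fin N) (Fin N) 𝕜) (l : EuclideanSpace ℝ (Fin N)),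
      Φ (cj Φ U (dg Φ l)) = U * dm 𝕜 l * Uᴴ := by
    intro U l
    rw [Phi_cj h, Phi_dg h]
  set J : EuclideanSpace ℝ ι := dg Φ (WithLp.toLp 2 fun i : Fin N => ((i : ℕ) : ℝ)) with hJ
  have hQJ : Q (Φ J) ≠ 0 := by
    have e : Φ J = 1 * dm 𝕜 (WithLp.toLp 2 fun i : Fin N => ((i : ℕ) : ℝ)) * 1ᴴ := by
      rw [hJ, Phi_dg h]
      simp
    rw [e, Q_ne_zero 1 (one_mem _)]
    intro a b hab
    simp only at hab
    exact Fin.ext (by exact_mod_cast hab)
  -- scaling
  have hscale : ∀ (s : ℝ) (y : EuclideanSpace ℝ ι), Q (Φ y) = 0 → Q (Φ (s • y)) = 0 := by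
    intro s y hy
    obtain ⟨U, hU, l, -, rfl⟩ := spectral h y
    have e : s • cj Φ U (dg Φ l) = cj Φ U (dg Φ (s • l)) := by
      rw [map_smul, map_smul]
    rw [e]
    rw [hspec] at hy ⊢
    by_contra hne
    have hinj := (Q_ne_zero U hU (s • l)).1 hne
    apply (Q_ne_zero U hU l).2 _ hy
    intro a b hab
    apply hinj
    simp only [PiLp.smul_apply, smul_eq_mul]
    simp only at hab
    rw [hab]
  have hcont : Continuous (fun x : EuclideanSpace ℝ ι => Q (Φ x)) := cont_Q.comp (cont_Phi Φ)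
  have hnull : (volume : Measure (EuclideanSpace ℝ ι)) {x | Q (Φ x) = 0} = 0 := by
    apply null_dir volume _ ((isClosed_singleton.preimage hcont).measurableSet) J
    intro x
    have han : AnalyticOnNhd ℝ (fun t : ℝ => Q (Φ x + t • Φ J)) univ := fun t _ => an_Q _ _ t
    have hne : ∃ t : ℝ, Q (Φ x + t • Φ J) ≠ 0 := by
      by_contra hall
      push Not at hall
      have h1 : ∀ s : ℝ, s ≠ 0 → Q (Φ (s • x + J)) = 0 := by
        intro s hs
        have h2 := hall s⁻¹
        rw [← map_smul, ← map_add] at h2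
        have h3 := hscale s _ h2
        rwa [smul_add, smul_smul, mul_inv_cancel₀ hs, one_smul] at h3
      have h4 : Filter.Tendsto (fun s : ℝ => Q (Φ (s • x + J))) (nhdsWithin 0 {0}ᶜ)
          (nhds (Q (Φ ((0 : ℝ) • x + J)))) := by
        have h5 : Continuous (fun s : ℝ => Q (Φ (s • x + J))) := by
          apply hcont.comp
          fun_prop
        exact (h5.tendsto 0).mono_left nhdsWithin_le_nhds
      have h6 : Filter.Tendsto (fun s : ℝ => Q (Φ (s • x + J))) (nhdsWithin 0 {0}ᶜ) (nhds 0) := by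
        apply tendsto_const_nhds.congr'
        filter_upwards [self_mem_nhdsWithin] with s hs
        exact (h1 s hs).symm
      have h7 := tendsto_nhds_unique h4 h6
      rw [zero_smul, zero_add] at h7
      exact hQJ h7
    obtain ⟨t₁, ht₁⟩ := hne
    have hcod := han.preimage_zero_mem_codiscrete (x := t₁) ht₁
    have hae : ∀ᵐ t : ℝ, t ∈ (fun t : ℝ => Q (Φ x + t • Φ J)) ⁻¹' {0}ᶜ := by
      have h8 := ae_restrict_le_codiscreteWithin (μ := (volume : Measure ℝ)) MeasurableSet.univ hcod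
      rwa [Measure.restrict_univ] at h8
    rw [ae_iff] at hae
    convert hae using 2
    ext t
    simp only [mem_preimage, mem_compl_iff, mem_singleton_iff, not_not, map_add, map_smul,
      Set.mem_ofPred_eq]
  have hae : ∀ᵐ x : EuclideanSpace ℝ ι, Q (Φ x) ≠ 0 := by
    rw [ae_iff]
    simpa using hnull
  filter_upwards [hae] with x hx
  obtain ⟨U, hU, l, hl, hxe⟩ := spectral h x
  refine ⟨U, hU, l, ?_, hxe⟩
  rw [hxe, hspec] at hx
  exact hl.strictMono_of_injective ((Q_ne_zero U hU l).1 hx)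

end Pool.Agent.H888R2.KC
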