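import Pool.Agent.H59.L.S8.H888R2.KC.Defs
import Pool.Agent.H59.L.S8.H888R2.KC.F1
import Pool.Agent.H59.L.S8.H888R2.KC.F2
import Pool.Agent.H59.L.S8.H888R2.KC.W2b

/-!
# W5c: the linear map `MM`
-/

set_option autoImplicit false

namespace Pool.Agent.H888R2.KC

open MeasureTheory Set Matrix
open scoped ENNReal InnerProductSpace

variable {𝕜 : Type} [RCLike 𝕜] {N : ℕ} {ι : Type} [Fintype ι]
  {Φ : EuclideanSpace ℝ ι →ₗ[ℝ] Matrix (Fin N) (Fin N) 𝕜}

namespace W5cx

theorem sk_skew (A : Matrix (Fin N) (Fin N) 𝕜) (hA : Aᴴ = A) : (sk A)ᴴ = - sk A := by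
  have hA' : ∀ i j, star (A i j) = A j i := fun i j => by
    have := congrFun (congrFun hA j) i
    simpa [Matrix.conjTranspose_apply] using this
  ext i j
  simp only [Matrix.conjTranspose_apply, sk, Matrix.of_apply, Matrix.neg_apply]
  rcases lt_trichotomy i j with h | h | h
  · rw [if_neg (not_lt.2 h.le), if_pos h, if_pos h, star_neg, hA']
  · subst h
    simp
  · rw [if_pos h, if_neg (not_lt.2 h.le), if_pos h, hA', neg_neg]

theorem cont_Phi : Continuous fun y : EuclideanSpace ℝ ι => Φ y :=
  Φ.continuous_of_finiteDimensional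

theorem cont_sk {X : Type} [TopologicalSpace X] {f : X → Matrix (Fin N) (Fin N) 𝕜}
    (hf : Continuous f) : Continuous fun x => sk (f x) := by
  refine continuous_matrix fun i j => ?_
  simp only [sk, Matrix.of_apply]
  split_ifs
  · exact hf.matrix_elem i j
  · exact (hf.matrix_elem i j).neg
  · exact continuous_const

theorem cont_inv {X : Type} [TopologicalSpace X] {f : X → Matrix (Fin N) (Fin N) 𝕜}
    (hf : Continuous f) (h0 : ∀ x, (f x).det ≠ 0) : Continuous fun x => (f x)⁻¹ := by
  have : (fun x => (f x)⁻¹) = fun x => ((f x).det)⁻¹ • (f x).adjugate := by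
    funext x
    rw [Matrix.inv_def, Ring.inverse_eq_inv']
  rw [this]
  exact (hf.matrix_det.inv₀ h0).smul hf.matrix_adjugate

end W5cx

theorem MM_facts (h : Fr Φ) :
    (Continuous fun y : EuclideanSpace ℝ ι => LinearMap.det (MM Φ (sk (Φ y)))) ∧
    LinearMap.det (MM Φ 0) ≠ 0 ∧
    (∀ (y : EuclideanSpace ℝ ι) (l : EuclideanSpace ℝ (Fin N)), sk (Φ (y + dg Φ l)) = sk (Φ y)) := by
  classical
  refine ⟨?_, ?_, ?_⟩
  · have hd : (fun y : EuclideanSpace ℝ ι => LinearMap.det (MM Φ (sk (Φ y)))) =
        fun y => (LinearMap.toMatrix (EuclideanSpace.basisFun ι ℝ).toBasis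
          (EuclideanSpace.basisFun ι ℝ).toBasis (MM Φ (sk (Φ y)))).det := by
      funext y
      rw [LinearMap.det_toMatrix]
    rw [hd]
    refine Continuous.matrix_det ?_
    refine continuous_matrix fun i j => ?_
    have hK : Continuous fun y : EuclideanSpace ℝ ι => sk (Φ y) := W5cx.cont_sk W5cx.cont_Phi
    have h1 : Continuous fun y : EuclideanSpace ℝ ι => (1 + sk (Φ y))⁻¹ :=
      W5cx.cont_inv (continuous_const.add hK)
        fun y => (cay_unit _ (W5cx.sk_skew _ (h.herm y))).1.ne_zero
    have h2 : Continuous fun y : EuclideanSpace ℝ ι => (1 - sk (Φ y))⁻¹ :=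
      W5cx.cont_inv (continuous_const.sub hK)
        fun y => (cay_unit _ (W5cx.sk_skew _ (h.herm y))).2.1.ne_zero
    have h3 : Continuous fun y : EuclideanSpace ℝ ι =>
        MM Φ (sk (Φ y)) ((EuclideanSpace.basisFun ι ℝ).toBasis j) := by
      have hps : Continuous (ps Φ) := (ps Φ).continuous_of_finiteDimensional
      refine hps.comp (continuous_const.add (W5cx.cont_sk ?_))
      exact ((h2.matrix_mul continuous_const).matrix_mul h1).const_smul (-2 : ℝ)
    have h4 : Continuous fun v : EuclideanSpace ℝ ι => v i := by fun_prop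
    have := h4.comp h3
    simpa [LinearMap.toMatrix_apply, Function.comp_def] using this
  · have hinj : Function.Injective (MM Φ 0) := by
      rw [← LinearMap.ker_eq_bot, LinearMap.ker_eq_bot']
      intro m hm
      have hherm : (Matrix.diagonal (fun i => Φ m i i) +
          sk ((-2 : ℝ) • ((1 - (0 : Matrix (Fin N) (Fin N) 𝕜))⁻¹ * sk (Φ m) *
            (1 + (0 : Matrix (Fin N) (Fin N) 𝕜))⁻¹)))ᴴ =
          Matrix.diagonal (fun i => Φ m i i) +
          sk ((-2 : ℝ) • ((1 - (0 : Matrix (Fin N) (Fin N) 𝕜))⁻¹ * sk (Φ m) *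
            (1 + (0 : Matrix (Fin N) (Fin N) 𝕜))⁻¹)) := by
        have hA' : ∀ i j, star (Φ m i j) = Φ m j i := fun i j => by
          have := congrFun (congrFun (h.herm m) j) i
          simpa [Matrix.conjTranspose_apply] using this
        ext i j
        simp only [sub_zero, add_zero, inv_one, one_mul, mul_one, Matrix.conjTranspose_apply,
          Matrix.add_apply, sk, Matrix.of_apply, Matrix.smul_apply, star_add, Matrix.diagonal_apply]
        rcases lt_trichotomy i j with hij | hij | hij
        · simp only [if_neg (not_lt.2 hij.le), if_pos hij, if_neg hij.ne', if_neg hij.ne, star_zero,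
            zero_add, smul_neg, neg_neg, star_smul, hA', star_trivial]
        · subst hij
          simp [hA']
        · simp only [if_neg (not_lt.2 hij.le), if_pos hij, if_neg hij.ne', if_neg hij.ne, star_zero,
            zero_add, smul_neg, neg_neg, star_smul, hA', star_trivial]
      have hP : Matrix.diagonal (fun i => Φ m i i) +
          sk ((-2 : ℝ) • ((1 - (0 : Matrix (Fin N) (Fin N) 𝕜))⁻¹ * sk (Φ m) *
            (1 + (0 : Matrix (Fin N) (Fin N) 𝕜))⁻¹)) = 0 := by
        rw [← Phi_ps h _ hherm]
        have : ps Φ (Matrix.diagonal (fun i => Φ m i i) +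
          sk ((-2 : ℝ) • ((1 - (0 : Matrix (Fin N) (Fin N) 𝕜))⁻¹ * sk (Φ m) *
            (1 + (0 : Matrix (Fin N) (Fin N) 𝕜))⁻¹))) = 0 := hm
        rw [this, map_zero]
      have h0 : Φ m = 0 := by
        ext i j
        have := congrFun (congrFun hP i) j
        simp only [sub_zero, add_zero, inv_one, one_mul, mul_one,
          Matrix.add_apply, sk, Matrix.of_apply, Matrix.smul_apply, Matrix.diagonal_apply,
          Matrix.zero_apply] at this
        rcases lt_trichotomy i j with hij | hij | hij
        · rw [if_neg hij.ne, if_pos hij, if_pos hij, zero_add] at this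
          simpa using this
        · subst hij
          simpa using this
        · rw [if_neg hij.ne', if_neg (not_lt.2 hij.le), if_pos hij, if_neg (not_lt.2 hij.le),
            if_pos hij, zero_add] at this
          simpa using this
      rw [← ps_Phi h m, h0, map_zero]
    have hu := LinearEquiv.isUnit_det' (LinearEquiv.ofInjectiveEndo (MM Φ 0) hinj)
    exact hu.ne_zero
  · intro y l
    rw [map_add, Phi_dg h, sk_add]
    have : sk (dm 𝕜 l) = 0 := by
      ext i j
      simp only [sk, dm, Matrix.of_apply, Matrix.zero_apply, Matrix.diagonal_apply]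
      rcases lt_trichotomy i j with hij | hij | hij
      · simp [hij.ne]
      · subst hij
        simp
      · simp [hij.ne']
    rw [this, add_zero]

end Pool.Agent.H888R2.KC
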