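import Pool.Agent.H59.L.S8.H888R2.KC.Defs
import Pool.Agent.H59.L.S8.H888R2.KC.F1
import Pool.Agent.H59.L.S8.H888R2.KC.W5d

/-! W5a: the determinant of TT (helper642). -/

set_option autoImplicit false

namespace Pool.Agent.H888R2.KC

open Matrix

variable {𝕜 : Type} [RCLike 𝕜] {N : ℕ} {ι : Type} [Fintype ι]
  {Φ : EuclideanSpace ℝ ι →ₗ[ℝ] Matrix (Fin N) (Fin N) 𝕜}

namespace W5ax

/-- the multiplier -/
def mc (l : EuclideanSpace ℝ (Fin N)) (i j : Fin N) : ℝ :=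
  if i < j then l j - l i else if j < i then l i - l j else 1

theorem mc_symm (l : EuclideanSpace ℝ (Fin N)) (i j : Fin N) : mc l i j = mc l j i := by
  unfold mc
  rcases lt_trichotomy i j with h | h | h
  · rw [if_pos h, if_neg (not_lt.2 h.le), if_pos h]
  · subst h
    rfl
  · rw [if_neg (not_lt.2 h.le), if_pos h, if_pos h]

/-- the multiplied matrix -/
def mm (l : EuclideanSpace ℝ (Fin N)) (A : Matrix (Fin N) (Fin N) 𝕜) :
    Matrix (Fin N) (Fin N) 𝕜 := Matrix.of fun i j => mc l i j • A i j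

theorem mm_herm (l : EuclideanSpace ℝ (Fin N)) (A : Matrix (Fin N) (Fin N) 𝕜) (hA : Aᴴ = A) :
    (mm l A)ᴴ = mm l A := by
  ext i j
  have h1 : star (A j i) = A i j := by
    have := congrFun (congrFun hA i) j
    rwa [Matrix.conjTranspose_apply] at this
  rw [Matrix.conjTranspose_apply]
  simp only [mm, Matrix.of_apply]
  rw [star_smul, h1, mc_symm l j i]
  simp

theorem TT_apply (Ψ : EuclideanSpace ℝ ι →ₗ[ℝ] Matrix (Fin N) (Fin N) 𝕜)
    (l : EuclideanSpace ℝ (Fin N)) (x : EuclideanSpace ℝ ι) :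
    TT Ψ l x = ps Ψ (mm l (Ψ x)) := rfl

/-- the diagonal entries in the explicit frame -/
def De (𝕜 : Type) [RCLike 𝕜] {N : ℕ} (l : EuclideanSpace ℝ (Fin N)) : II 𝕜 N → ℝ :=
  Sum.elim (fun _ => 1) (fun q => l q.1.1.2 - l q.1.1.1)

theorem TT_F0 (l : EuclideanSpace ℝ (Fin N)) (x : EuclideanSpace ℝ (II 𝕜 N)) :
    TT (F0 𝕜 N) l x = WithLp.toLp 2 (fun k => De 𝕜 l k * x k) := by
  rw [TT_apply]
  rw [← ps_Phi (F0_frame 𝕜 N) (WithLp.toLp 2 (fun k => De 𝕜 l k * x k))]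
  congr 1
  ext i j
  simp only [mm, mc, F0, LinearMap.coe_mk, AddHom.coe_mk, Matrix.of_apply]
  have hup : ∀ p : {p : Fin N × Fin N // p.1 < p.2},
      up (𝕜 := 𝕜) (WithLp.toLp 2 (fun k => De 𝕜 l k * x k) : EuclideanSpace ℝ (II 𝕜 N)) p =
        (l p.1.2 - l p.1.1) • up x p := by
    intro p
    unfold up
    have e : ∑ t, (WithLp.toLp 2 (fun k => De 𝕜 l k * x k) : EuclideanSpace ℝ (II 𝕜 N))
        (Sum.inr (p, t)) • stdOrthonormalBasis ℝ 𝕜 t =
        (l p.1.2 - l p.1.1) • ∑ t, x (Sum.inr (p, t)) • stdOrthonormalBasis ℝ 𝕜 t := by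
      rw [Finset.smul_sum]
      refine Finset.sum_congr rfl fun t _ => ?_
      rw [smul_smul]
      rfl
    rw [e, smul_comm]
  rcases lt_trichotomy i j with h | h | h
  · rw [if_pos h, dif_pos h, dif_pos h, hup]
  · subst h
    rw [if_neg (lt_irrefl i), if_neg (lt_irrefl i), dif_neg (lt_irrefl i), dif_neg (lt_irrefl i),
      dif_neg (lt_irrefl i), dif_neg (lt_irrefl i)]
    simp [De]
  · rw [if_neg (not_lt.2 h.le), if_pos h, dif_neg (not_lt.2 h.le), dif_pos h,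
      dif_neg (not_lt.2 h.le), dif_pos h, hup, star_smul]
    simp

theorem det_F0 (l : EuclideanSpace ℝ (Fin N)) :
    LinearMap.det (TT (F0 𝕜 N) l) = vd l ^ (Module.finrank ℝ 𝕜) := by
  have h1 : TT (F0 𝕜 N) l = Matrix.toLin (EuclideanSpace.basisFun (II 𝕜 N) ℝ).toBasis
      (EuclideanSpace.basisFun (II 𝕜 N) ℝ).toBasis (Matrix.diagonal (De 𝕜 l)) := by
    refine (EuclideanSpace.basisFun (II 𝕜 N) ℝ).toBasis.ext fun k => ?_
    rw [Matrix.toLin_self, TT_F0, Finset.sum_eq_single k]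
    · ext m
      by_cases hm : m = k
      · subst hm
        simp
      · simp [hm]
    · intro m _ hm
      rw [Matrix.diagonal_apply_ne _ hm, zero_smul]
    · intro hk
      exact absurd (Finset.mem_univ k) hk
  rw [h1, LinearMap.det_toLin, Matrix.det_diagonal, Fintype.prod_sum_type]
  have h2 : ∏ i : Fin N, De 𝕜 l (Sum.inl i) = 1 := Finset.prod_eq_one fun i _ => rfl
  rw [h2, one_mul, Fintype.prod_prod_type]
  unfold vd
  rw [← Finset.prod_pow]
  refine Finset.prod_congr rfl fun p _ => ?_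
  simp only [De, Sum.elim_inr, Finset.prod_const, Finset.card_univ, Fintype.card_fin]

/-- change of the frame -/
noncomputable def Th (h : Fr Φ) : EuclideanSpace ℝ (II 𝕜 N) ≃ₗ[ℝ] EuclideanSpace ℝ ι where
  toFun x := ps Φ (F0 𝕜 N x)
  map_add' x y := by rw [map_add, map_add]
  map_smul' c x := by rw [map_smul, map_smul, RingHom.id_apply]
  invFun x := ps (F0 𝕜 N) (Φ x)
  left_inv x := by
    show ps (F0 𝕜 N) (Φ (ps Φ (F0 𝕜 N x))) = x
    rw [Phi_ps h _ ((F0_frame 𝕜 N).herm x), ps_Phi (F0_frame 𝕜 N)]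
  right_inv x := by
    show ps Φ (F0 𝕜 N (ps (F0 𝕜 N) (Φ x))) = x
    rw [Phi_ps (F0_frame 𝕜 N) _ (h.herm x), ps_Phi h]

end W5ax

theorem det_TT (h : Fr Φ) (l : EuclideanSpace ℝ (Fin N)) :
    LinearMap.det (TT Φ l) = vd l ^ (Module.finrank ℝ 𝕜) := by
  rw [← W5ax.det_F0 (𝕜 := 𝕜) l, ← LinearMap.det_conj (TT (F0 𝕜 N) l) (W5ax.Th h)]
  congr 1
  refine LinearMap.ext fun x => ?_
  have h1 : (W5ax.Th h).symm x = ps (F0 𝕜 N) (Φ x) := rfl
  have h2 : ∀ y, W5ax.Th h y = ps Φ (F0 𝕜 N y) := fun y => rfl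
  rw [LinearMap.comp_apply, LinearMap.comp_apply, LinearEquiv.coe_coe, LinearEquiv.coe_coe, h1,
    h2, W5ax.TT_apply, W5ax.TT_apply, Phi_ps (F0_frame 𝕜 N) _ (h.herm x),
    Phi_ps (F0_frame 𝕜 N) _ (W5ax.mm_herm l _ (h.herm x))]

end Pool.Agent.H888R2.KC
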