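import Pool.Agent.H59.L.S8.H888R2.KC.Defs
import Pool.Agent.H59.L.S8.H888R2.KC.F2
import Pool.Agent.H59.L.S8.H888R2.KC.W2b
import Pool.Agent.H59.L.S8.H888R2.KC.W4
import Pool.Agent.H59.L.S8.H888R2.KC.W5a
import Pool.Agent.H59.L.S8.H888R2.KC.W5b
import Pool.Agent.H59.L.S8.H888R2.KC.W5c
import Pool.Agent.H59.L.S8.H888R2.KC.W5d
import Pool.Agent.H59.L.S8.H888R2.KC.W6a

/-!
# KLS for conjugation invariant log-concave measures on Hermitian matrices: W6b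

Change of variables on the slice.
-/

set_option autoImplicit false

namespace Pool.Agent.H888R2.KC

open MeasureTheory Set Matrix
open scoped ENNReal InnerProductSpace
open Pool.Agent.H212R2.KLS (mu Bdd ev gr)

namespace W6bx

variable {𝕜 : Type} [RCLike 𝕜] {N : ℕ} {ι : Type} [Fintype ι]
  {Φ : EuclideanSpace ℝ ι →ₗ[ℝ] Matrix (Fin N) (Fin N) 𝕜}

theorem abs_det_cj (h : Fr Φ) (U : Matrix (Fin N) (Fin N) 𝕜)
    (hU : U ∈ Matrix.unitaryGroup (Fin N) 𝕜) : |LinearMap.det (cj Φ U)| = 1 := by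
  let f : EuclideanSpace ℝ ι →ₗᵢ[ℝ] EuclideanSpace ℝ ι :=
    { cj Φ U with norm_map' := norm_cj h U hU }
  have h1 := f.normDet_eq_one
  have h2 : f.toLinearMap = cj Φ U := rfl
  rw [h2, LinearMap.normDet_eq_abs_det] at h1
  exact h1

theorem sk_herm (A : Matrix (Fin N) (Fin N) 𝕜) (hA : Aᴴ = A) : (sk A)ᴴ = - sk A := by
  ext i j
  have hij : star (A j i) = A i j := by
    conv_rhs => rw [← hA]
    rfl
  simp only [Matrix.conjTranspose_apply, sk, Matrix.of_apply, Matrix.neg_apply]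
  rcases lt_trichotomy i j with h | h | h
  · rw [if_neg h.asymm, if_pos h, if_pos h, star_neg, hij]
  · subst h
    simp
  · rw [if_pos h, if_neg h.asymm, if_pos h, hij, neg_neg]

theorem sk_zero : sk (0 : Matrix (Fin N) (Fin N) 𝕜) = 0 := by
  ext i j
  simp [sk]

theorem continuous_vd : Continuous (vd : EuclideanSpace ℝ (Fin N) → ℝ) := by
  unfold vd
  fun_prop

theorem vd_pos (l : EuclideanSpace ℝ (Fin N)) (hl : l ∈ Ch N) : 0 < vd l := by
  unfold vd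
  apply Finset.prod_pos
  intro p _
  exact sub_pos.2 (hl p.2)

/-- the embedding of the off-diagonal part -/
noncomputable def em (𝕜 : Type) [RCLike 𝕜] (N : ℕ) (z : EuclideanSpace ℝ (JJ 𝕜 N)) :
    EuclideanSpace ℝ (II 𝕜 N) := WithLp.toLp 2 (Sum.elim (fun _ => 0) z.ofLp)

theorem continuous_em (𝕜 : Type) [RCLike 𝕜] (N : ℕ) : Continuous (em 𝕜 N) := by
  unfold em
  apply (PiLp.continuous_toLp 2 _).comp
  apply continuous_pi
  intro i
  rcases i with i | i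
  · simp only [Sum.elim_inl]
    exact continuous_const
  · simp only [Sum.elim_inr]
    fun_prop

theorem em_zero (𝕜 : Type) [RCLike 𝕜] (N : ℕ) : em 𝕜 N 0 = 0 := by
  ext i
  rcases i with i | i
  · simp [em]
  · simp [em]

theorem const_facts {J : Type} [Fintype J] (g : EuclideanSpace ℝ J → ℝ) (hg : Continuous g)
    (h1 : 0 < g 0) :
    (∫⁻ z in {z : EuclideanSpace ℝ J | ‖z‖ ^ 2 < 1 / 100}, ENNReal.ofReal (g z)) ≠ 0 ∧
    (∫⁻ z in {z : EuclideanSpace ℝ J | ‖z‖ ^ 2 < 1 / 100}, ENNReal.ofReal (g z)) ≠ ⊤ := by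
  constructor
  · have hopen : IsOpen ({z : EuclideanSpace ℝ J | ‖z‖ ^ 2 < 1 / 100} ∩ {z | 0 < g z}) := by
      apply IsOpen.inter
      · exact isOpen_lt (by fun_prop) continuous_const
      · exact isOpen_lt continuous_const hg
    have hne : ({z : EuclideanSpace ℝ J | ‖z‖ ^ 2 < 1 / 100} ∩ {z | 0 < g z}).Nonempty :=
      ⟨0, by simp, h1⟩
    have hpos := hopen.measure_pos volume hne
    intro h
    have hm : Measurable fun z : EuclideanSpace ℝ J => ENNReal.ofReal (g z) :=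
      ENNReal.measurable_ofReal.comp hg.measurable
    rw [lintegral_eq_zero_iff hm] at h
    have h2 : volume.restrict {z : EuclideanSpace ℝ J | ‖z‖ ^ 2 < 1 / 100} {z | 0 < g z} = 0 := by
      refine measure_mono_null ?_ (show _ from h)
      intro z hz
      simp only [mem_compl_iff, mem_ofPred_eq, Pi.zero_apply]
      intro h3
      exact absurd (ENNReal.ofReal_eq_zero.1 h3) (not_le.2 hz)
    rw [Measure.restrict_apply (measurableSet_lt measurable_const hg.measurable)] at h2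
    rw [Set.inter_comm] at h2
    exact absurd h2 hpos.ne'
  · have hc : IsCompact (Metric.closedBall (0 : EuclideanSpace ℝ J) 1) :=
      isCompact_closedBall 0 1
    obtain ⟨B, hB⟩ := hc.exists_bound_of_continuousOn hg.continuousOn
    have hfin : (∫⁻ _ in Metric.closedBall (0 : EuclideanSpace ℝ J) 1, ENNReal.ofReal B) ≠ ⊤ := by
      rw [setLIntegral_const]
      exact ENNReal.mul_ne_top ENNReal.ofReal_ne_top hc.measure_lt_top.ne
    refine ne_top_of_le_ne_top hfin ?_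
    · refine le_trans (lintegral_mono_set (t := Metric.closedBall (0 : EuclideanSpace ℝ J) 1) ?_) ?_
      · intro z hz
        simp only [mem_ofPred_eq] at hz
        rw [mem_closedBall_zero_iff]
        nlinarith [norm_nonneg z]
      · apply setLIntegral_mono' hc.measurableSet
        intro z hz
        apply ENNReal.ofReal_le_ofReal
        exact le_trans (le_abs_self _) (hB z hz)

end W6bx

theorem slice (𝕜 : Type) [RCLike 𝕜] (N : ℕ) :
    MeasurableSet (DD (F0 𝕜 N)) ∧ MeasurableSet (G0 (F0 𝕜 N) '' DD (F0 𝕜 N)) ∧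
    ∃ c : ℝ≥0∞, c ≠ 0 ∧ c ≠ ⊤ ∧ ∀ F : EuclideanSpace ℝ (II 𝕜 N) → ℝ≥0∞, Measurable F →
      (∀ U ∈ Matrix.unitaryGroup (Fin N) 𝕜, ∀ x, F (cj (F0 𝕜 N) U x) = F x) →
      ∫⁻ x in G0 (F0 𝕜 N) '' DD (F0 𝕜 N), F x =
        c * ∫⁻ l in Ch N, F (dg (F0 𝕜 N) l) * ENNReal.ofReal (vd l ^ (Module.finrank ℝ 𝕜)) := by
  have hfr : Fr (F0 𝕜 N) := F0_frame 𝕜 N
  obtain ⟨hcont, hdet0, hinv⟩ := MM_facts hfr
  set g : EuclideanSpace ℝ (II 𝕜 N) → ℝ := fun y =>
    |LinearMap.det (MM (F0 𝕜 N) (sk (F0 𝕜 N y)))| with hg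
  have hgc : Continuous g := hcont.abs
  set j : EuclideanSpace ℝ (II 𝕜 N) → ℝ≥0∞ := fun y => ENNReal.ofReal (g y) with hjdef
  have hj : Measurable j := ENNReal.measurable_ofReal.comp hgc.measurable
  have hj' : ∀ y l, j (y + dg (F0 𝕜 N) l) = j y := by
    intro y l
    simp only [hjdef, hg]
    rw [hinv y l]
  have hD : MeasurableSet (DD (F0 𝕜 N)) :=
    (fub_F0 𝕜 N j hj hj' (fun _ => 0) measurable_const).1
  have hderiv : ∀ y ∈ DD (F0 𝕜 N), HasFDerivWithinAt (G0 (F0 𝕜 N))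
      ((fun y => LinearMap.toContinuousLinearMap
      (cj (F0 𝕜 N) (cay (sk (F0 𝕜 N y))) ∘ₗ TT (F0 𝕜 N) (dp (F0 𝕜 N) y) ∘ₗ
        MM (F0 𝕜 N) (sk (F0 𝕜 N y)))) y) (DD (F0 𝕜 N)) y := fun y _ =>
    (G0_deriv hfr y).hasFDerivWithinAt
  have hinj : InjOn (G0 (F0 𝕜 N)) (DD (F0 𝕜 N)) := G0_injOn hfr
  refine ⟨hD, measurable_image_of_fderivWithin hD hderiv hinj, ?_⟩
  obtain ⟨hc0, hc1⟩ := W6bx.const_facts (fun z => g (W6bx.em 𝕜 N z))
    (hgc.comp (W6bx.continuous_em 𝕜 N)) (by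
      simp only [hg]
      rw [W6bx.em_zero, map_zero, W6bx.sk_zero]
      exact abs_pos.2 hdet0)
  refine ⟨_, hc0, hc1, ?_⟩
  intro F hF hFinv
  rw [lintegral_image_eq_lintegral_abs_det_fderiv_mul volume hD hderiv hinj F]
  have hH : Measurable fun l : EuclideanSpace ℝ (Fin N) =>
      F (dg (F0 𝕜 N) l) * ENNReal.ofReal (vd l ^ (Module.finrank ℝ 𝕜)) := by
    apply Measurable.mul
    · exact hF.comp (LinearMap.continuous_of_finiteDimensional (dg (F0 𝕜 N))).measurable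
    · exact ENNReal.measurable_ofReal.comp (W6bx.continuous_vd.pow _).measurable
  have hfub := (fub_F0 𝕜 N j hj hj' _ hH).2
  rw [mul_comm]
  rw [show (∫⁻ l in Ch N, F (dg (F0 𝕜 N) l) * ENNReal.ofReal (vd l ^ (Module.finrank ℝ 𝕜))) *
    (∫⁻ z in {z : EuclideanSpace ℝ (JJ 𝕜 N) | ‖z‖ ^ 2 < 1 / 100},
      ENNReal.ofReal ((fun z => g (W6bx.em 𝕜 N z)) z)) = _ from hfub.symm]
  apply setLIntegral_congr_fun hD
  intro y hy
  have hK : (sk (F0 𝕜 N y))ᴴ = - sk (F0 𝕜 N y) := W6bx.sk_herm _ (hfr.herm y)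
  have hU := (cay_unit (sk (F0 𝕜 N y)) hK).2.2
  have hdet : |(LinearMap.toContinuousLinearMap
      (cj (F0 𝕜 N) (cay (sk (F0 𝕜 N y))) ∘ₗ TT (F0 𝕜 N) (dp (F0 𝕜 N) y) ∘ₗ
        MM (F0 𝕜 N) (sk (F0 𝕜 N y)))).det| = vd (dp (F0 𝕜 N) y) ^ (Module.finrank ℝ 𝕜) * g y := by
    have e1 : (LinearMap.toContinuousLinearMap
      (cj (F0 𝕜 N) (cay (sk (F0 𝕜 N y))) ∘ₗ TT (F0 𝕜 N) (dp (F0 𝕜 N) y) ∘ₗ
        MM (F0 𝕜 N) (sk (F0 𝕜 N y)))).det = LinearMap.det
      (cj (F0 𝕜 N) (cay (sk (F0 𝕜 N y))) ∘ₗ TT (F0 𝕜 N) (dp (F0 𝕜 N) y) ∘ₗ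
        MM (F0 𝕜 N) (sk (F0 𝕜 N y))) := rfl
    rw [e1, LinearMap.det_comp, LinearMap.det_comp, abs_mul, abs_mul,
      W6bx.abs_det_cj hfr _ hU, one_mul, det_TT hfr,
      abs_of_nonneg (pow_nonneg (W6bx.vd_pos _ hy.1).le _)]
  have hG : F (G0 (F0 𝕜 N) y) = F (dg (F0 𝕜 N) (dp (F0 𝕜 N) y)) := hFinv _ hU _
  simp only
  rw [hdet, hG, ENNReal.ofReal_mul (pow_nonneg (W6bx.vd_pos _ hy.1).le _)]
  ring

end Pool.Agent.H888R2.KC
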