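import Pool.Agent.H59.L.S8.H888R2.KC.Defs
import Pool.Agent.H59.L.S8.H888R2.KC.F2
import Pool.Agent.H59.L.S8.H888R2.KC.F3
import Pool.Agent.H59.L.S8.H888R2.KC.R1
import Pool.Agent.H59.L.S8.H888R2.KC.W8
import Pool.Agent.H59.L.S8.H212R2.KLS.R4

/-!
# R3: Poincare inequality for invariant functions
-/

set_option autoImplicit false

namespace Pool.Agent.H888R2.KC

open MeasureTheory Set Matrix
open scoped ENNReal InnerProductSpace
open Pool.Agent.H212R2.KLS (mu Bdd ev gr)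

namespace R3x

variable {𝕜 : Type} [RCLike 𝕜] {N : ℕ} {ι : Type} [Fintype ι]
  {Φ : EuclideanSpace ℝ ι →ₗ[ℝ] Matrix (Fin N) (Fin N) 𝕜}

/-- the radial weight -/
noncomputable def wt (Φ : EuclideanSpace ℝ ι →ₗ[ℝ] Matrix (Fin N) (Fin N) 𝕜)
    (ρ : EuclideanSpace ℝ ι → ℝ) : EuclideanSpace ℝ (Fin N) → ℝ :=
  (Ch N).indicator fun l => ρ (dg Φ l) * vd l ^ (Module.finrank ℝ 𝕜)

theorem isOpen_Ch (N : ℕ) : IsOpen (Ch N) := by
  have h1 : Ch N = ⋂ i : Fin N, ⋂ j : Fin N, ⋂ _ : i < j,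
      {l : EuclideanSpace ℝ (Fin N) | l i < l j} := by
    ext l
    simp only [Set.mem_iInter, Ch]
    constructor
    · intro hl i j hij
      exact hl hij
    · intro hl i j hij
      exact hl i j hij
  rw [h1]
  refine isOpen_iInter_of_finite fun i => isOpen_iInter_of_finite fun j =>
    isOpen_iInter_of_finite fun _ => ?_
  exact isOpen_lt (by fun_prop) (by fun_prop)

theorem vd_pos {l : EuclideanSpace ℝ (Fin N)} (hl : l ∈ Ch N) : 0 < vd l := by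
  unfold vd
  refine Finset.prod_pos fun p _ => ?_
  have : l p.1.1 < l p.1.2 := hl p.2
  linarith

theorem vd_le {l : EuclideanSpace ℝ (Fin N)} (hl : l ∈ Ch N) (r : ℝ) (hlr : ∀ i, |l i| ≤ r) :
    vd l ≤ (2 * r) ^ (Fintype.card {p : Fin N × Fin N // p.1 < p.2}) := by
  unfold vd
  calc ∏ p : {p : Fin N × Fin N // p.1 < p.2}, (l p.1.2 - l p.1.1)
      ≤ ∏ _p : {p : Fin N × Fin N // p.1 < p.2}, (2 * r) := by
        refine Finset.prod_le_prod (fun p _ => ?_) fun p _ => ?_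
        · have : l p.1.1 < l p.1.2 := hl p.2
          linarith
        · have h1 := abs_le.mp (hlr p.1.2)
          have h2 := abs_le.mp (hlr p.1.1)
          linarith [h1.2, h2.1]
    _ = _ := by rw [Finset.prod_const, Finset.card_univ]

theorem mid_Ch {l m : EuclideanSpace ℝ (Fin N)} (hl : l ∈ Ch N) (hm : m ∈ Ch N) :
    (1 / 2 : ℝ) • (l + m) ∈ Ch N := by
  intro i j hij
  have h1 : l i < l j := hl hij
  have h2 : m i < m j := hm hij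
  simp only [PiLp.smul_apply, PiLp.add_apply, smul_eq_mul]
  linarith

theorem wt_nonneg {ρ : EuclideanSpace ℝ ι → ℝ} (hρ : ∀ x, 0 ≤ ρ x)
    (l : EuclideanSpace ℝ (Fin N)) : 0 ≤ wt Φ ρ l := by
  unfold wt
  refine Set.indicator_nonneg (fun l hl => ?_) l
  exact mul_nonneg (hρ _) (pow_nonneg (vd_pos hl).le _)

theorem wt_meas {ρ : EuclideanSpace ℝ ι → ℝ} (hρ : Measurable ρ) : Measurable (wt Φ ρ) := by
  unfold wt
  refine Measurable.indicator ?_ (isOpen_Ch N).measurableSet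
  have h1 : Continuous fun l : EuclideanSpace ℝ (Fin N) => dg Φ l :=
    LinearMap.continuous_of_finiteDimensional _
  have h2 : Continuous fun l : EuclideanSpace ℝ (Fin N) => vd l := by
    unfold vd
    refine continuous_finsetProd _ fun p _ => ?_
    fun_prop
  exact (hρ.comp h1.measurable).mul (h2.measurable.pow_const _)

/-- support and boundedness of eigenvalues -/
theorem supp_bound (h : Fr Φ) {ρ : EuclideanSpace ℝ ι → ℝ} {r : ℝ}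
    (hs : ∀ x, ¬ OpL r (Φ x) → ρ x = 0) {l : EuclideanSpace ℝ (Fin N)} (hl : ρ (dg Φ l) ≠ 0)
    (i : Fin N) : |l i| ≤ r := by
  have h1 : OpL r (Φ (dg Φ l)) := by
    by_contra hcon
    exact hl (hs _ hcon)
  rw [Phi_dg h] at h1
  exact OpL_dm r l h1 i

theorem wt_bdd (h : Fr Φ) {ρ : EuclideanSpace ℝ ι → ℝ} (hρ : ∀ x, 0 ≤ ρ x)
    (hbd : ∃ B, ∀ x, ρ x ≤ B) {r : ℝ} (hr : 0 < r) (hs : ∀ x, ¬ OpL r (Φ x) → ρ x = 0) :
    ∃ B, ∀ l, wt Φ ρ l ≤ B := by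
  obtain ⟨B, hB⟩ := hbd
  have hB0 : 0 ≤ B := (hρ 0).trans (hB 0)
  have hC0 : (0 : ℝ) ≤ ((2 * r) ^ (Fintype.card {p : Fin N × Fin N // p.1 < p.2})) ^
      (Module.finrank ℝ 𝕜) := by positivity
  refine ⟨B * ((2 * r) ^ (Fintype.card {p : Fin N × Fin N // p.1 < p.2})) ^
      (Module.finrank ℝ 𝕜), fun l => ?_⟩
  unfold wt
  by_cases hl : l ∈ Ch N
  · rw [Set.indicator_of_mem hl]
    by_cases h0 : ρ (dg Φ l) = 0
    · rw [h0, zero_mul]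
      exact mul_nonneg hB0 hC0
    · have h1 := vd_le hl r (supp_bound h hs h0)
      have h2 := (vd_pos hl).le
      exact mul_le_mul (hB _) (pow_le_pow_left₀ h2 h1 _) (pow_nonneg h2 _) hB0
  · rw [Set.indicator_of_notMem hl]
    exact mul_nonneg hB0 hC0

theorem wt_supp (h : Fr Φ) {ρ : EuclideanSpace ℝ ι → ℝ} (hb : Bdd ρ) : Bdd (wt Φ ρ) := by
  obtain ⟨R, hR⟩ := hb
  refine ⟨R, fun l hl => ?_⟩
  unfold wt
  by_cases hlc : l ∈ Ch N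
  · rw [Set.indicator_of_mem hlc, hR (dg Φ l) (by rw [norm_dg h]; exact hl), zero_mul]
  · rw [Set.indicator_of_notMem hlc]

theorem cs_sum (v : EuclideanSpace ℝ (Fin N)) : (∑ i, v i) ^ 2 ≤ N * ‖v‖ ^ 2 := by
  have h1 := sq_sum_le_card_mul_sum_sq (s := (Finset.univ : Finset (Fin N))) (f := fun i => v i)
  rw [Finset.card_univ, Fintype.card_fin] at h1
  rw [EuclideanSpace.real_norm_sq_eq]
  exact h1

theorem wt_mid (h : Fr Φ) (hN : 1 ≤ N) {ρ : EuclideanSpace ℝ ι → ℝ} (hρ : ∀ x, 0 ≤ ρ x)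
    {r : ℝ} (hr : 0 < r) (hs : ∀ x, ¬ OpL r (Φ x) → ρ x = 0) {K : ℝ}
    (hK : 0 < K) (hT : Ts Φ K ρ) (l m : EuclideanSpace ℝ (Fin N)) :
    wt Φ ρ l * wt Φ ρ m ≤ (wt Φ ρ ((1 / 2 : ℝ) • (l + m))) ^ 2 *
      Real.exp (-(min (N / (4 * r ^ 2)) (1 / K) / 4 * ‖l - m‖ ^ 2)) := by
  have hrhs : 0 ≤ (wt Φ ρ ((1 / 2 : ℝ) • (l + m))) ^ 2 *
      Real.exp (-(min (N / (4 * r ^ 2)) (1 / K) / 4 * ‖l - m‖ ^ 2)) := by positivity
  by_cases hl : l ∈ Ch N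
  swap
  · have : wt Φ ρ l = 0 := Set.indicator_of_notMem hl _
    rw [this, zero_mul]; exact hrhs
  by_cases hm : m ∈ Ch N
  swap
  · have : wt Φ ρ m = 0 := Set.indicator_of_notMem hm _
    rw [this, mul_zero]; exact hrhs
  have el : wt Φ ρ l = ρ (dg Φ l) * vd l ^ (Module.finrank ℝ 𝕜) := Set.indicator_of_mem hl _
  have em : wt Φ ρ m = ρ (dg Φ m) * vd m ^ (Module.finrank ℝ 𝕜) := Set.indicator_of_mem hm _
  have emid : wt Φ ρ ((1 / 2 : ℝ) • (l + m)) = ρ (dg Φ ((1 / 2 : ℝ) • (l + m))) *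
      vd ((1 / 2 : ℝ) • (l + m)) ^ (Module.finrank ℝ 𝕜) := Set.indicator_of_mem (mid_Ch hl hm) _
  by_cases h0l : ρ (dg Φ l) = 0
  · rw [el, h0l, zero_mul, zero_mul]; exact hrhs
  by_cases h0m : ρ (dg Φ m) = 0
  · rw [em, h0m, zero_mul, mul_zero]; exact hrhs
  have hβ : 1 ≤ Module.finrank ℝ 𝕜 := Module.finrank_pos
  have c1 := cw_mid (Module.finrank ℝ 𝕜) hβ r hr l m hl hm (supp_bound h hs h0l)
    (supp_bound h hs h0m)
  have c2 := hT (dg Φ l) (dg Φ m)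
  have e1 : (1 / 2 : ℝ) • (dg Φ l + dg Φ m) = dg Φ ((1 / 2 : ℝ) • (l + m)) := by
    rw [map_smul, map_add]
  have hNpos : (0 : ℝ) < N := by exact_mod_cast hN
  have e2 : ⟪tv Φ, dg Φ l - dg Φ m⟫_ℝ ^ 2 = (∑ i, (l i - m i)) ^ 2 / N := by
    rw [← map_sub, inner_tv_dg h, mul_pow, inv_pow, Real.sq_sqrt hNpos.le]
    simp only [PiLp.sub_apply]
    field_simp
  rw [e1, e2] at c2
  rw [el, em, emid]
  set A := ρ (dg Φ l)
  set B := ρ (dg Φ m)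
  set M := ρ (dg Φ ((1 / 2 : ℝ) • (l + m)))
  set a := vd l ^ (Module.finrank ℝ 𝕜)
  set b := vd m ^ (Module.finrank ℝ 𝕜)
  set d := vd ((1 / 2 : ℝ) • (l + m)) ^ (Module.finrank ℝ 𝕜)
  set S := ∑ i, (l i - m i) with hS
  set κ := min ((N : ℝ) / (4 * r ^ 2)) (1 / K) with hκ
  have hab : 0 ≤ a * b :=
    mul_nonneg (pow_nonneg (vd_pos hl).le _) (pow_nonneg (vd_pos hm).le _)
  have hSN : S ^ 2 ≤ N * ‖l - m‖ ^ 2 := by
    have := cs_sum (l - m)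
    simpa only [PiLp.sub_apply] using this
  have hexp : κ / 4 * ‖l - m‖ ^ 2 ≤ (N * ‖l - m‖ ^ 2 - S ^ 2) / (16 * r ^ 2) +
      S ^ 2 / N / (4 * K) := by
    have hk1 : κ ≤ N / (4 * r ^ 2) := min_le_left _ _
    have hk2 : κ ≤ 1 / K := min_le_right _ _
    have h1 : κ / (4 * N) * (N * ‖l - m‖ ^ 2 - S ^ 2) ≤
        (N * ‖l - m‖ ^ 2 - S ^ 2) / (16 * r ^ 2) := by
      rw [div_eq_mul_one_div (N * ‖l - m‖ ^ 2 - S ^ 2) (16 * r ^ 2),
        mul_comm (N * ‖l - m‖ ^ 2 - S ^ 2)]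
      refine mul_le_mul_of_nonneg_right ?_ (by linarith)
      calc κ / (4 * N) ≤ (N / (4 * r ^ 2)) / (4 * N) :=
            div_le_div_of_nonneg_right hk1 (by positivity)
        _ = 1 / (16 * r ^ 2) := by field_simp; norm_num
    have h2 : κ / (4 * N) * S ^ 2 ≤ S ^ 2 / N / (4 * K) := by
      calc κ / (4 * N) * S ^ 2 ≤ (1 / K) / (4 * N) * S ^ 2 := by
            refine mul_le_mul_of_nonneg_right ?_ (sq_nonneg _)
            exact div_le_div_of_nonneg_right hk2 (by positivity)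
        _ = S ^ 2 / N / (4 * K) := by field_simp
    have h3 : κ / 4 * ‖l - m‖ ^ 2 = κ / (4 * N) * (N * ‖l - m‖ ^ 2 - S ^ 2) +
        κ / (4 * N) * S ^ 2 := by
      field_simp
      ring
    rw [h3]
    linarith
  calc A * a * (B * b) = (A * B) * (a * b) := by ring
    _ ≤ (M ^ 2 * Real.exp (-(S ^ 2 / N / (4 * K)))) *
        (d ^ 2 * Real.exp (-((N * ‖l - m‖ ^ 2 - S ^ 2) / (16 * r ^ 2)))) :=
        mul_le_mul c2 c1 hab (by positivity)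
    _ = (M * d) ^ 2 * Real.exp (-((N * ‖l - m‖ ^ 2 - S ^ 2) / (16 * r ^ 2) +
        S ^ 2 / N / (4 * K))) := by
        rw [neg_add, Real.exp_add]; ring
    _ ≤ (M * d) ^ 2 * Real.exp (-(κ / 4 * ‖l - m‖ ^ 2)) := by
        refine mul_le_mul_of_nonneg_left ?_ (sq_nonneg _)
        exact Real.exp_le_exp.mpr (by linarith)

/-- radial integration of nonnegative continuous invariant functions -/
theorem weyl_int (h : Fr Φ) {ρ : EuclideanSpace ℝ ι → ℝ} (hρ : Dn Φ ρ) :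
    ∃ C : ℝ, 0 ≤ C ∧ ∀ φ : EuclideanSpace ℝ ι → ℝ, Continuous φ → (∀ x, 0 ≤ φ x) →
      (∀ U ∈ Matrix.unitaryGroup (Fin N) 𝕜, ∀ x, φ (cj Φ U x) = φ x) →
      ∫ x, φ x ∂(mu ρ) = C * ∫ l, φ (dg Φ l) * wt Φ ρ l := by
  obtain ⟨c, -, -, hc⟩ := weyl h
  refine ⟨c.toReal, ENNReal.toReal_nonneg, fun φ hφ h0 hinv => ?_⟩
  have hm : Measurable φ := hφ.measurable
  have hdg : Continuous fun l : EuclideanSpace ℝ (Fin N) => dg Φ l :=
    LinearMap.continuous_of_finiteDimensional _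
  rw [integral_eq_lintegral_of_nonneg_ae (Filter.Eventually.of_forall h0)
    hφ.aestronglyMeasurable]
  have e1 : ∫⁻ x, ENNReal.ofReal (φ x) ∂(mu ρ) =
      ∫⁻ x, ENNReal.ofReal (ρ x * φ x) := by
    unfold mu
    rw [lintegral_withDensity_eq_lintegral_mul _ hρ.meas.ennreal_ofReal hm.ennreal_ofReal]
    refine lintegral_congr fun x => ?_
    rw [Pi.mul_apply, ← ENNReal.ofReal_mul (hρ.nonneg x)]
  have e2 := hc (fun x => ENNReal.ofReal (ρ x * φ x)) ((hρ.meas.mul hm).ennreal_ofReal)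
    (fun U hU x => by rw [hρ.inv U hU x, hinv U hU x])
  have e3 : ∫⁻ l in Ch N, ENNReal.ofReal (ρ (dg Φ l) * φ (dg Φ l)) *
      ENNReal.ofReal (vd l ^ (Module.finrank ℝ 𝕜)) =
      ∫⁻ l, ENNReal.ofReal (φ (dg Φ l) * wt Φ ρ l) := by
    rw [← lintegral_indicator (isOpen_Ch N).measurableSet]
    refine lintegral_congr fun l => ?_
    unfold wt
    by_cases hl : l ∈ Ch N
    · rw [Set.indicator_of_mem hl, Set.indicator_of_mem hl,
        ← ENNReal.ofReal_mul (mul_nonneg (hρ.nonneg _) (h0 _))]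
      congr 1
      ring
    · rw [Set.indicator_of_notMem hl, Set.indicator_of_notMem hl, mul_zero, ENNReal.ofReal_zero]
  rw [e1, e2, e3, ENNReal.toReal_mul,
    ← integral_eq_lintegral_of_nonneg_ae (Filter.Eventually.of_forall fun l =>
      mul_nonneg (h0 _) (wt_nonneg hρ.nonneg l))
      (((hm.comp hdg.measurable).mul (wt_meas hρ.meas)).aestronglyMeasurable)]

theorem opnorm_le_one {E F : Type*} [NormedAddCommGroup E] [NormedSpace ℝ E]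
    [NormedAddCommGroup F] [NormedSpace ℝ F] (L : E →L[ℝ] F) (hL : ∀ x, ‖L x‖ = ‖x‖) :
    ‖L‖ ≤ 1 :=
  L.opNorm_le_bound zero_le_one fun x => by rw [hL x, one_mul]

theorem fderiv_comp_le {E F : Type*} [NormedAddCommGroup E] [NormedSpace ℝ E]
    [NormedAddCommGroup F] [NormedSpace ℝ F] (L : E →L[ℝ] F) (hL : ∀ x, ‖L x‖ = ‖x‖)
    (f : F → ℝ) (hf : ContDiff ℝ 1 f) (x : E) :
    ‖fderiv ℝ (fun y => f (L y)) x‖ ≤ ‖fderiv ℝ f (L x)‖ := by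
  have h1 : HasFDerivAt (fun y => f (L y)) ((fderiv ℝ f (L x)).comp L) x :=
    ((hf.differentiable (by norm_num)) (L x)).hasFDerivAt.comp x L.hasFDerivAt
  rw [h1.fderiv]
  calc ‖(fderiv ℝ f (L x)).comp L‖ ≤ ‖fderiv ℝ f (L x)‖ * ‖L‖ :=
        ContinuousLinearMap.opNorm_comp_le _ _
    _ ≤ ‖fderiv ℝ f (L x)‖ * 1 :=
        mul_le_mul_of_nonneg_left (opnorm_le_one L hL) (norm_nonneg _)
    _ = _ := mul_one _

theorem fderiv_inv_le (h : Fr Φ) (f : EuclideanSpace ℝ ι → ℝ) (hf : ContDiff ℝ 1 f)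
    (hinv : ∀ U ∈ Matrix.unitaryGroup (Fin N) 𝕜, ∀ x, f (cj Φ U x) = f x)
    (U : Matrix (Fin N) (Fin N) 𝕜) (hU : U ∈ Matrix.unitaryGroup (Fin N) 𝕜)
    (x : EuclideanSpace ℝ ι) : ‖fderiv ℝ f x‖ ≤ ‖fderiv ℝ f (cj Φ U x)‖ := by
  have h1 := fderiv_comp_le (LinearMap.toContinuousLinearMap (cj Φ U))
    (fun y => norm_cj h U hU y) f hf x
  have h2 : (fun y => f ((LinearMap.toContinuousLinearMap (cj Φ U)) y)) = f := by
    funext y
    exact hinv U hU y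
  rw [h2] at h1
  exact h1

theorem fderiv_inv (h : Fr Φ) (f : EuclideanSpace ℝ ι → ℝ) (hf : ContDiff ℝ 1 f)
    (hinv : ∀ U ∈ Matrix.unitaryGroup (Fin N) 𝕜, ∀ x, f (cj Φ U x) = f x)
    (U : Matrix (Fin N) (Fin N) 𝕜) (hU : U ∈ Matrix.unitaryGroup (Fin N) 𝕜)
    (x : EuclideanSpace ℝ ι) : ‖fderiv ℝ f (cj Φ U x)‖ = ‖fderiv ℝ f x‖ := by
  refine le_antisymm ?_ (fderiv_inv_le h f hf hinv U hU x)
  have hU' : star U ∈ Matrix.unitaryGroup (Fin N) 𝕜 := by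
    rw [Matrix.mem_unitaryGroup_iff, star_star]
    exact Matrix.mem_unitaryGroup_iff'.mp hU
  have h1 := fderiv_inv_le h f hf hinv (star U) hU' (cj Φ U x)
  rw [cj_cj h, Matrix.mem_unitaryGroup_iff'.mp hU, cj_one h] at h1
  exact h1

end R3x

open R3x in
theorem radial {𝕜 : Type} [RCLike 𝕜] {N : ℕ} {ι : Type} [Fintype ι]
    {Φ : EuclideanSpace ℝ ι →ₗ[ℝ] Matrix (Fin N) (Fin N) 𝕜}
    (h : Fr Φ) (hN : 1 ≤ N) (ρ : EuclideanSpace ℝ ι → ℝ) (hρ : Dn Φ ρ) (hb : Bdd ρ)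
    (hbd : ∃ B, ∀ x, ρ x ≤ B) (r : ℝ) (hr : 0 < r) (hs : ∀ x, ¬ OpL r (Φ x) → ρ x = 0) (K : ℝ)
    (hK : 0 < K) (hT : Ts Φ K ρ) (f : EuclideanSpace ℝ ι → ℝ) (hf : ContDiff ℝ 1 f)
    (hinv : ∀ U ∈ Matrix.unitaryGroup (Fin N) 𝕜, ∀ x, f (cj Φ U x) = f x) :
    ∃ c : ℝ, ∫ x, (f x - c) ^ 2 ∂(mu ρ) ≤
      (4 * r ^ 2 / N + K) * ∫ x, ‖fderiv ℝ f x‖ ^ 2 ∂(mu ρ) := by
  have hNpos : (0 : ℝ) < N := by exact_mod_cast hN
  set κ := min ((N : ℝ) / (4 * r ^ 2)) (1 / K) with hκ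
  have hκ0 : 0 < κ := lt_min (by positivity) (by positivity)
  set L : EuclideanSpace ℝ (Fin N) →L[ℝ] EuclideanSpace ℝ ι :=
    LinearMap.toContinuousLinearMap (dg Φ) with hL
  have hLn : ∀ l, ‖L l‖ = ‖l‖ := fun l => norm_dg h l
  have hg : ContDiff ℝ 1 (fun l => f (L l)) := hf.comp L.contDiff
  obtain ⟨c, hc⟩ := Pool.Agent.H212R2.KLS.poincare_of_strong
    (volume : Measure (EuclideanSpace ℝ (Fin N))) (wt Φ ρ) (wt_nonneg hρ.nonneg)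
    (wt_meas hρ.meas) (wt_bdd h hρ.nonneg hbd hr hs) (wt_supp h hb) κ hκ0
    (fun l m => wt_mid h hN hρ.nonneg hr hs hK hT l m) (fun l => f (L l)) hg
  refine ⟨c, ?_⟩
  obtain ⟨C, hC0, hC⟩ := weyl_int h hρ
  have hfc : Continuous f := hf.continuous
  have hdc : Continuous fun x => ‖fderiv ℝ f x‖ ^ 2 :=
    ((hf.continuous_fderiv (by norm_num)).norm).pow 2
  have e1 := hC (fun x => (f x - c) ^ 2) (by fun_prop) (fun x => sq_nonneg _)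
    (fun U hU x => by rw [hinv U hU x])
  have e2 := hC (fun x => ‖fderiv ℝ f x‖ ^ 2) hdc (fun x => sq_nonneg _)
    (fun U hU x => by rw [fderiv_inv h f hf hinv U hU x])
  rw [e1, e2]
  obtain ⟨R, hR⟩ := wt_supp (Φ := Φ) h hb
  have hint : Integrable (fun l => ‖fderiv ℝ f (dg Φ l)‖ ^ 2 * wt Φ ρ l)
      (volume : Measure (EuclideanSpace ℝ (Fin N))) := by
    have hcont : Continuous fun l => ‖fderiv ℝ f (dg Φ l)‖ ^ 2 := hdc.comp L.continuous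
    exact Pool.Agent.H212R2.KLS.R4aux.intg (wt_meas hρ.meas) (wt_nonneg hρ.nonneg)
      (wt_bdd h hρ.nonneg hbd hr hs) hR hcont
  have e3 : ∫ l, ‖fderiv ℝ (fun l => f (L l)) l‖ ^ 2 * wt Φ ρ l ≤
      ∫ l, ‖fderiv ℝ f (dg Φ l)‖ ^ 2 * wt Φ ρ l := by
    refine integral_mono_of_nonneg (Filter.Eventually.of_forall fun l =>
      mul_nonneg (sq_nonneg _) (wt_nonneg hρ.nonneg l)) hint
      (Filter.Eventually.of_forall fun l => ?_)
    refine mul_le_mul_of_nonneg_right ?_ (wt_nonneg hρ.nonneg l)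
    exact pow_le_pow_left₀ (norm_nonneg _) (fderiv_comp_le L hLn f hf l) 2
  have hJ0 : 0 ≤ ∫ l, ‖fderiv ℝ f (dg Φ l)‖ ^ 2 * wt Φ ρ l :=
    integral_nonneg fun l => mul_nonneg (sq_nonneg _) (wt_nonneg hρ.nonneg l)
  have hκ1 : κ⁻¹ ≤ 4 * r ^ 2 / N + K := by
    rcases min_choice ((N : ℝ) / (4 * r ^ 2)) (1 / K) with h1 | h1
    · rw [hκ, h1, inv_div]
      linarith
    · rw [hκ, h1, one_div, inv_inv]
      have : 0 ≤ 4 * r ^ 2 / N := by positivity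
      linarith
  have e4 : ∫ l, (f (dg Φ l) - c) ^ 2 * wt Φ ρ l ≤
      (4 * r ^ 2 / N + K) * ∫ l, ‖fderiv ℝ f (dg Φ l)‖ ^ 2 * wt Φ ρ l :=
    calc ∫ l, (f (dg Φ l) - c) ^ 2 * wt Φ ρ l
        ≤ κ⁻¹ * ∫ l, ‖fderiv ℝ (fun l => f (L l)) l‖ ^ 2 * wt Φ ρ l := hc
      _ ≤ κ⁻¹ * ∫ l, ‖fderiv ℝ f (dg Φ l)‖ ^ 2 * wt Φ ρ l :=
          mul_le_mul_of_nonneg_left e3 (inv_pos.mpr hκ0).le
      _ ≤ _ := mul_le_mul_of_nonneg_right hκ1 hJ0
  calc C * ∫ l, (f (dg Φ l) - c) ^ 2 * wt Φ ρ l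
      ≤ C * ((4 * r ^ 2 / N + K) * ∫ l, ‖fderiv ℝ f (dg Φ l)‖ ^ 2 * wt Φ ρ l) :=
        mul_le_mul_of_nonneg_left e4 hC0
    _ = _ := by ring

end Pool.Agent.H888R2.KC
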