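import Pool.Agent.H59.L.S8.H888R2.KC.Defs
import Pool.Agent.H59.L.S8.H888R2.KC.A8
import Pool.Agent.H59.L.S8.H888R2.KC.R2
import Pool.Agent.H59.L.S8.H888R2.KC.R3
import Pool.Agent.H59.L.S8.H212R2.KLS.L1
import Pool.Agent.H59.L.S8.H212R2.KLS.A8

/-!
# KLS on Hermitian matrices: local Poincare inequality (task L2)
-/

set_option autoImplicit false

namespace Pool.Agent.H888R2.KC

open MeasureTheory Set Matrix
open scoped ENNReal InnerProductSpace
open Pool.Agent.H212R2.KLS (mu Bdd ev gr ev_contDiff poly_approx)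

variable {𝕜 : Type} [RCLike 𝕜] {N : ℕ} {ι : Type} [Fintype ι]
  {Φ : EuclideanSpace ℝ ι →ₗ[ℝ] Matrix (Fin N) (Fin N) 𝕜}

namespace L2x

theorem intg {F : Type*} [NormedAddCommGroup F] [NormedSpace ℝ F] [FiniteDimensional ℝ F]
    [MeasurableSpace F] [BorelSpace F] (μ : Measure F) [IsFiniteMeasure μ]
    (hb : ∃ R, μ (Metric.closedBall 0 R)ᶜ = 0) (g : F → ℝ) (hg : Continuous g) :
    Integrable g μ := by
  obtain ⟨R, hR⟩ := hb
  have : ProperSpace F := FiniteDimensional.proper ℝ F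
  obtain ⟨C, hC⟩ := (isCompact_closedBall (0 : F) R).exists_bound_of_continuousOn hg.continuousOn
  have h1 : Metric.closedBall (0 : F) R ∈ ae μ := mem_ae_iff.2 hR
  refine Integrable.of_bound hg.aestronglyMeasurable C ?_
  filter_upwards [h1] with x hx using hC x hx

/-- the variance form -/
theorem var_le {F : Type*} [NormedAddCommGroup F] [NormedSpace ℝ F] [FiniteDimensional ℝ F]
    [MeasurableSpace F] [BorelSpace F] (μ : Measure F) [IsFiniteMeasure μ] (hμ : μ ≠ 0)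
    (hb : ∃ R, μ (Metric.closedBall 0 R)ᶜ = 0) (g : F → ℝ) (hg : Continuous g) (c : ℝ) :
    ∫ x, (g x - c) ^ 2 ∂μ = (∫ x, g x ^ 2 ∂μ - (∫ x, g x ∂μ) ^ 2 / (μ univ).toReal) +
      (μ univ).toReal * (c - (∫ x, g x ∂μ) / (μ univ).toReal) ^ 2 := by
  have hI : ∀ g : F → ℝ, Continuous g → Integrable g μ := fun g hg => intg μ hb g hg
  have hM : (μ univ).toReal ≠ 0 := by
    rw [Ne, ENNReal.toReal_eq_zero_iff, not_or]
    exact ⟨by rwa [Measure.measure_univ_eq_zero], measure_ne_top _ _⟩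
  have h1 : ∫ x, (g x - c) ^ 2 ∂μ = ∫ x, (g x ^ 2 - (2 * c) * g x + c ^ 2) ∂μ := by
    congr 1
    ext x
    ring
  rw [h1, integral_add (hI _ (by fun_prop)) (hI _ (by fun_prop)),
    integral_sub (hI _ (by fun_prop)) (hI _ (by fun_prop)), integral_const_mul,
    integral_const, smul_eq_mul, measureReal_def]
  field_simp
  ring

theorem poly_case (h : Fr Φ) (hN : 3 ≤ N) (ρ : EuclideanSpace ℝ ι → ℝ) (hρ : Dn Φ ρ)
    [IsFiniteMeasure (mu ρ)] (hb : Bdd ρ) (hball : ∃ R, (mu ρ) (Metric.closedBall 0 R)ᶜ = 0)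
    (hne : mu ρ ≠ 0) (hbd : ∃ B, ∀ x, ρ x ≤ B) (r : ℝ) (hr : 0 < r)
    (hs : ∀ x, ¬ OpL r (Φ x) → ρ x = 0) (K : ℝ) (hK : 0 < K) (hT : Ts Φ K ρ)
    (p : MvPolynomial ι ℝ) :
    ∃ c : ℝ, ∫ x, (ev p x - c) ^ 2 ∂(mu ρ) ≤
      (52 * r ^ 2 / N + K) * ∫ x, ‖fderiv ℝ (ev p) x‖ ^ 2 ∂(mu ρ) := by
  have hN3 : (3 : ℝ) ≤ N := by exact_mod_cast hN
  obtain ⟨p0, h0, h1, h2, h3, h4⟩ := angular h hN ρ hρ hb hne r hr hs p
  obtain ⟨c, hc⟩ := radial h (by omega) ρ hρ hb hbd r hr hs K hK hT (ev p0)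
    (ev_contDiff p0 1) h0
  refine ⟨c, ?_⟩
  have hcont : ∀ q : MvPolynomial ι ℝ, Continuous (ev q) := fun q =>
    (ev_contDiff q 0).continuous
  have hp := hcont p
  have hp0 := hcont p0
  have hI : ∀ g : EuclideanSpace ℝ ι → ℝ, Continuous g → Integrable g (mu ρ) := fun g hg =>
    intg (mu ρ) hball g hg
  have e1 : ∫ x, (ev p x - c) ^ 2 ∂(mu ρ) =
      ∫ x, (ev p0 x - c) ^ 2 ∂(mu ρ) + ∫ x, (ev p x - ev p0 x) ^ 2 ∂(mu ρ) := by
    have : ∫ x, (ev p x - c) ^ 2 ∂(mu ρ) = ∫ x, (((ev p0 x - c) ^ 2 +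
        (ev p x - ev p0 x) ^ 2) + (2 * (ev p0 x * (ev p x - ev p0 x)) -
        (2 * c) * (ev p x - ev p0 x))) ∂(mu ρ) := by
      congr 1
      ext x
      ring
    rw [this, integral_add (hI _ (by fun_prop)) (hI _ (by fun_prop)),
      integral_add (hI _ (by fun_prop)) (hI _ (by fun_prop)),
      integral_sub (hI _ (by fun_prop)) (hI _ (by fun_prop)), integral_const_mul,
      integral_const_mul, h1, h2]
    ring
  set G := ∫ x, ‖fderiv ℝ (ev p) x‖ ^ 2 ∂(mu ρ) with hG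
  have hG0 : 0 ≤ G := integral_nonneg fun x => by positivity
  have e4 : ∫ x, (ev p0 x - c) ^ 2 ∂(mu ρ) ≤ (4 * r ^ 2 / N + K) * G :=
    hc.trans (mul_le_mul_of_nonneg_left h4 (by positivity))
  rw [e1]
  calc _ ≤ (4 * r ^ 2 / N + K) * G + 48 * r ^ 2 / N * G := add_le_add e4 h3
    _ = (52 * r ^ 2 / N + K) * G := by ring

end L2x

open L2x in
theorem local_poincare (h : Fr Φ) (hN : 3 ≤ N) (ρ : EuclideanSpace ℝ ι → ℝ) (hρ : Dn Φ ρ)
    (hb : Bdd ρ) (hfin : mu ρ univ ≠ ⊤) (r : ℝ) (hr : 0 < r)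
    (hs : ∀ x, ¬ OpL r (Φ x) → ρ x = 0) (K : ℝ) (hK : 0 < K) (hT : Ts Φ K ρ)
    (f : EuclideanSpace ℝ ι → ℝ) (hf : ContDiff ℝ 1 f) :
    ∃ c : ℝ, ∫ x, (f x - c) ^ 2 ∂(mu ρ) ≤
      (52 * r ^ 2 / N + K) * ∫ x, ‖fderiv ℝ f x‖ ^ 2 ∂(mu ρ) := by
  by_cases hμ : mu ρ = 0
  · exact ⟨0, by simp [hμ]⟩
  have hfin' : IsFiniteMeasure (mu ρ) := ⟨lt_top_iff_ne_top.2 hfin⟩
  have hbd : ∃ B, ∀ x, ρ x ≤ B := bdd_of_finite ρ hρ.nonneg hρ.meas hρ.logc hfin hμ
  obtain ⟨R, hR⟩ := hb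
  have hball0 : (mu ρ) (Metric.closedBall 0 R)ᶜ = 0 := by
    rw [mu, withDensity_apply_eq_zero' (hρ.meas.ennreal_ofReal.aemeasurable)]
    refine measure_mono_null ?_ (measure_empty (μ := (volume : Measure (EuclideanSpace ℝ ι))))
    intro x hx
    refine hx.1 ?_
    have h2 : R < ‖x‖ := by
      have := hx.2
      rw [mem_compl_iff, mem_closedBall_zero_iff, not_le] at this
      exact this
    simp [hR x h2]
  have hball : ∃ R, (mu ρ) (Metric.closedBall 0 R)ᶜ = 0 := ⟨R, hball0⟩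
  have hP := poly_case h hN ρ hρ ⟨R, hR⟩ hball hμ hbd r hr hs K hK hT
  set M := ((mu ρ) univ).toReal with hM
  have hM0 : 0 < M := by
    refine ENNReal.toReal_pos ?_ (measure_ne_top _ _)
    rwa [Ne, Measure.measure_univ_eq_zero]
  set L : ℝ := 52 * r ^ 2 / N + K with hL
  -- polynomial approximation
  have happ : ∀ k : ℕ, ∃ p : MvPolynomial ι ℝ, ∀ x : EuclideanSpace ℝ ι, ‖x‖ ≤ R →
      |ev p x - f x| ≤ 1 / ((k : ℝ) + 1) ∧
      ‖fderiv ℝ (ev p) x - fderiv ℝ f x‖ ≤ 1 / ((k : ℝ) + 1) := fun k =>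
    poly_approx f hf R _ (by positivity)
  choose p hp using happ
  have hae : ∀ᵐ x ∂(mu ρ), ‖x‖ ≤ R := by
    have : Metric.closedBall (0 : EuclideanSpace ℝ ι) R ∈ ae (mu ρ) := mem_ae_iff.2 hball0
    filter_upwards [this] with x hx using by simpa using hx
  have hcont : ∀ q : MvPolynomial ι ℝ, Continuous (ev q) := fun q =>
    (ev_contDiff q 0).continuous
  have hI : ∀ g : EuclideanSpace ℝ ι → ℝ, Continuous g → Integrable g (mu ρ) := fun g hg =>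
    intg (mu ρ) hball g hg
  have hfc : Continuous f := hf.continuous
  have hdc : Continuous (fun x => ‖fderiv ℝ f x‖) := (hf.continuous_fderiv (by norm_num)).norm
  have hlim : Filter.Tendsto (fun k : ℕ => 1 / ((k : ℝ) + 1)) Filter.atTop (nhds 0) :=
    tendsto_one_div_add_atTop_nhds_zero_nat
  have hk1 : ∀ k : ℕ, 1 / ((k : ℝ) + 1) ≤ 1 := fun k => by
    rw [div_le_one (by positivity)]; linarith [Nat.cast_nonneg (α := ℝ) k]
  have hval : ∀ x : EuclideanSpace ℝ ι, ‖x‖ ≤ R → Filter.Tendsto (fun k => ev (p k) x) Filter.atTop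
      (nhds (f x)) := by
    intro x hx
    rw [tendsto_iff_norm_sub_tendsto_zero]
    refine squeeze_zero (fun k => norm_nonneg _) (fun k => ?_) hlim
    rw [Real.norm_eq_abs]
    exact (hp k x hx).1
  have hder : ∀ x : EuclideanSpace ℝ ι, ‖x‖ ≤ R → Filter.Tendsto (fun k => fderiv ℝ (ev (p k)) x)
      Filter.atTop (nhds (fderiv ℝ f x)) := by
    intro x hx
    rw [tendsto_iff_norm_sub_tendsto_zero]
    exact squeeze_zero (fun k => norm_nonneg _) (fun k => (hp k x hx).2) hlim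
  have hvb : ∀ x : EuclideanSpace ℝ ι, ‖x‖ ≤ R → ∀ k, |ev (p k) x| ≤ |f x| + 1 := by
    intro x hx k
    have h1 := (hp k x hx).1
    have h2 := hk1 k
    have h3 : |ev (p k) x| ≤ |ev (p k) x - f x| + |f x| := by
      simpa using abs_add_le (ev (p k) x - f x) (f x)
    linarith
  have hdb : ∀ x : EuclideanSpace ℝ ι, ‖x‖ ≤ R → ∀ k,
      ‖fderiv ℝ (ev (p k)) x‖ ≤ ‖fderiv ℝ f x‖ + 1 := by
    intro x hx k
    have h1 := (hp k x hx).2
    have h2 := hk1 k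
    have h3 : ‖fderiv ℝ (ev (p k)) x‖ ≤ ‖fderiv ℝ (ev (p k)) x - fderiv ℝ f x‖ +
        ‖fderiv ℝ f x‖ := by
      simpa using norm_add_le (fderiv ℝ (ev (p k)) x - fderiv ℝ f x) (fderiv ℝ f x)
    linarith
  have t1 : Filter.Tendsto (fun k => ∫ x, ev (p k) x ∂(mu ρ)) Filter.atTop
      (nhds (∫ x, f x ∂(mu ρ))) := by
    refine tendsto_integral_of_dominated_convergence (fun x => |f x| + 1)
      (fun k => (hcont _).aestronglyMeasurable) (hI _ (by fun_prop)) (fun k => ?_) ?_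
    · filter_upwards [hae] with x hx
      rw [Real.norm_eq_abs]
      exact hvb x hx k
    · filter_upwards [hae] with x hx using hval x hx
  have t2 : Filter.Tendsto (fun k => ∫ x, ev (p k) x ^ 2 ∂(mu ρ)) Filter.atTop
      (nhds (∫ x, f x ^ 2 ∂(mu ρ))) := by
    refine tendsto_integral_of_dominated_convergence (fun x => (|f x| + 1) ^ 2)
      (fun k => ((hcont _).pow 2).aestronglyMeasurable) (hI _ (by fun_prop)) (fun k => ?_) ?_
    · filter_upwards [hae] with x hx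
      rw [Real.norm_eq_abs, abs_pow]
      exact pow_le_pow_left₀ (abs_nonneg _) (hvb x hx k) 2
    · filter_upwards [hae] with x hx using (hval x hx).pow 2
  have t3 : Filter.Tendsto (fun k => ∫ x, ‖fderiv ℝ (ev (p k)) x‖ ^ 2 ∂(mu ρ)) Filter.atTop
      (nhds (∫ x, ‖fderiv ℝ f x‖ ^ 2 ∂(mu ρ))) := by
    refine tendsto_integral_of_dominated_convergence (fun x => (‖fderiv ℝ f x‖ + 1) ^ 2)
      (fun k => ((((ev_contDiff (p k) 1).continuous_fderiv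
        (by norm_num)).norm).pow 2).aestronglyMeasurable) (hI _ (by fun_prop)) (fun k => ?_) ?_
    · filter_upwards [hae] with x hx
      rw [Real.norm_eq_abs, abs_pow, abs_norm]
      exact pow_le_pow_left₀ (norm_nonneg _) (hdb x hx k) 2
    · filter_upwards [hae] with x hx using ((hder x hx).norm).pow 2
  have hk : ∀ k, ∫ x, ev (p k) x ^ 2 ∂(mu ρ) - (∫ x, ev (p k) x ∂(mu ρ)) ^ 2 / M ≤
      L * ∫ x, ‖fderiv ℝ (ev (p k)) x‖ ^ 2 ∂(mu ρ) := by
    intro k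
    obtain ⟨c, hc⟩ := hP (p k)
    rw [var_le (mu ρ) hμ hball (ev (p k)) (hcont _) c] at hc
    have : 0 ≤ M * (c - (∫ x, ev (p k) x ∂(mu ρ)) / M) ^ 2 := by positivity
    linarith
  have hfin2 : ∫ x, f x ^ 2 ∂(mu ρ) - (∫ x, f x ∂(mu ρ)) ^ 2 / M ≤
      L * ∫ x, ‖fderiv ℝ f x‖ ^ 2 ∂(mu ρ) :=
    le_of_tendsto_of_tendsto' (t2.sub ((t1.pow 2).div_const M)) (t3.const_mul L) hk
  refine ⟨(∫ x, f x ∂(mu ρ)) / M, ?_⟩
  rw [var_le (mu ρ) hμ hball f hfc, ← hM]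
  have hz : M * ((∫ x, f x ∂(mu ρ)) / M - (∫ x, f x ∂(mu ρ)) / M) ^ 2 = 0 := by ring
  linarith

end Pool.Agent.H888R2.KC
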