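import Pool.Agent.H59.L.S8.H888R2.KC.Defs
import Pool.Agent.H59.L.S8.H888R2.KC.F2
import Pool.Agent.H59.L.S8.H888R2.KC.L1
import Pool.Agent.H59.L.S8.H212R2.KLS.T2
import Pool.Agent.H59.L.S8.H317R2.KLS.MvTailCore

/-!
# T1: tails of the off-diagonal part of a column
-/

set_option autoImplicit false

namespace Pool.Agent.H888R2.KC

open MeasureTheory Set Matrix
open scoped ENNReal InnerProductSpace
open Pool.Agent.H212R2.KLS (mu Bdd ev gr)

namespace T1x

section refl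

variable {𝕜 : Type} [RCLike 𝕜] {N : ℕ}

theorem dot_self (v : Fin N → 𝕜) : star v ⬝ᵥ v = ((∑ k, ‖v k‖ ^ 2 : ℝ) : 𝕜) := by
  simp only [dotProduct, Pi.star_apply, map_sum]
  refine Finset.sum_congr rfl fun k _ => ?_
  rw [RCLike.star_def, RCLike.conj_mul]
  push_cast
  rfl

/-- complex Householder reflection -/
theorem house (j : Fin N) (p q : Fin N → 𝕜) (hp : p j = 0) (hq : q j = 0)
    (hpq : star p ⬝ᵥ p = star q ⬝ᵥ q) (hr : star p ⬝ᵥ q = star q ⬝ᵥ p) :
    ∃ g ∈ Matrix.unitaryGroup (Fin N) 𝕜, g *ᵥ p = q ∧ ∀ b, g j b = if b = j then 1 else 0 := by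
  by_cases hne : p = q
  · refine ⟨1, one_mem _, by rw [Matrix.one_mulVec, hne], ?_⟩
    intro b
    rw [Matrix.one_apply]
    simp only [eq_comm]
  set v : Fin N → 𝕜 := p - q with hv
  set s : 𝕜 := star v ⬝ᵥ v with hs
  have hs0 : s ≠ 0 := by
    intro h0
    rw [hs, dot_self] at h0
    have h1 : (∑ k, ‖v k‖ ^ 2 : ℝ) = 0 := by exact_mod_cast h0
    rw [Finset.sum_eq_zero_iff_of_nonneg (fun k _ => sq_nonneg _)] at h1
    apply hne
    ext k
    have h2 := h1 k (Finset.mem_univ k)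
    have h3 : v k = 0 := by
      rw [← norm_eq_zero]
      exact pow_eq_zero_iff (two_ne_zero) |>.1 h2
    exact sub_eq_zero.1 h3
  have hss : star s = s := by
    rw [hs, dot_self, RCLike.star_def, RCLike.conj_ofReal]
  have hvj : v j = 0 := by simp [hv, hp, hq]
  set g : Matrix (Fin N) (Fin N) 𝕜 := 1 - (2 / s) • Matrix.vecMulVec v (star v) with hg
  have hgt : star g = g := by
    rw [hg]
    ext a b
    simp only [Matrix.star_eq_conjTranspose, Matrix.conjTranspose_apply, Matrix.sub_apply,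
      Matrix.smul_apply, Matrix.vecMulVec_apply, smul_eq_mul, star_sub, star_mul', star_div₀, hss,
      Pi.star_apply, star_star]
    have h1 : star ((1 : Matrix (Fin N) (Fin N) 𝕜) b a) = (1 : Matrix (Fin N) (Fin N) 𝕜) a b := by
      rw [Matrix.one_apply, Matrix.one_apply]
      by_cases h : a = b
      · simp [h]
      · simp [h, Ne.symm h]
    have h2 : star (2 : 𝕜) = 2 := by simp
    rw [h1, h2]
    ring
  have hvv : Matrix.vecMulVec v (star v) * Matrix.vecMulVec v (star v) =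
      s • Matrix.vecMulVec v (star v) := by
    rw [Matrix.vecMulVec_mul_vecMulVec]
    ext a b
    simp [Matrix.vecMulVec_apply, hs]
    ring
  refine ⟨g, ?_, ?_, ?_⟩
  · rw [Matrix.mem_unitaryGroup_iff, hgt, hg, Matrix.sub_mul, Matrix.mul_sub, Matrix.mul_sub]
    simp only [Matrix.one_mul, Matrix.mul_one, Matrix.smul_mul, Matrix.mul_smul, hvv]
    ext a b
    simp only [Matrix.sub_apply, Matrix.smul_apply, smul_eq_mul]
    field_simp
    ring
  · rw [hg, Matrix.sub_mulVec, Matrix.one_mulVec, Matrix.smul_mulVec, Matrix.vecMulVec_mulVec]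
    have h1 : star v ⬝ᵥ p = s / 2 := by
      rw [hs]
      simp only [hv, star_sub, sub_dotProduct, dotProduct_sub]
      rw [← hpq, hr]
      ring
    rw [h1]
    ext i
    simp only [Pi.sub_apply, Pi.smul_apply, smul_eq_mul, MulOpposite.smul_eq_mul_unop,
      MulOpposite.unop_op]
    have : v i = p i - q i := rfl
    rw [this]
    field_simp
    ring
  · intro b
    rw [hg]
    simp only [Matrix.sub_apply, Matrix.smul_apply, Matrix.vecMulVec_apply, hvj, zero_mul,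
      smul_zero, sub_zero]
    rw [Matrix.one_apply]
    simp only [eq_comm]

/-- transitivity on vectors supported off `j` -/
theorem trans_off (j : Fin N) (p q : Fin N → 𝕜) (hp : p j = 0) (hq : q j = 0)
    (hpq : ∑ k, ‖p k‖ ^ 2 = ∑ k, ‖q k‖ ^ 2) :
    ∃ g ∈ Matrix.unitaryGroup (Fin N) 𝕜, g *ᵥ p = q ∧ ∀ b, g j b = if b = j then 1 else 0 := by
  obtain ⟨c, hc1, hcr⟩ : ∃ c : 𝕜, star c * c = 1 ∧
      star c * (star p ⬝ᵥ q) = ((‖star p ⬝ᵥ q‖ : ℝ) : 𝕜) := by
    by_cases h0 : star p ⬝ᵥ q = 0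
    · exact ⟨1, by simp, by simp [h0]⟩
    · set a := star p ⬝ᵥ q with ha
      have hn : ((‖a‖ : ℝ) : 𝕜) ≠ 0 := by
        simpa using h0
      refine ⟨a / ((‖a‖ : ℝ) : 𝕜), ?_, ?_⟩
      · rw [star_div₀, RCLike.star_def, RCLike.conj_ofReal, div_mul_div_comm, RCLike.conj_mul]
        rw [div_eq_one_iff_eq (mul_ne_zero hn hn)]
        ring
      · rw [star_div₀, RCLike.star_def, RCLike.conj_ofReal, div_mul_eq_mul_div, RCLike.conj_mul]
        rw [div_eq_iff hn]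
        ring
  obtain ⟨g, hg, hgp, hgj⟩ := house j (c • p) q (by simp [hp]) hq (by
      rw [star_smul, smul_dotProduct, dotProduct_smul, smul_smul, hc1, one_smul, dot_self,
        dot_self, hpq]) (by
      rw [Matrix.star_dotProduct q (c • p), star_smul, smul_dotProduct, smul_eq_mul, hcr,
        RCLike.star_def, RCLike.conj_ofReal])
  set d : Fin N → 𝕜 := fun k => if k = j then 1 else c with hd
  have hdd : ∀ k, star (d k) * d k = 1 := by
    intro k
    simp only [hd]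
    split_ifs
    · simp
    · exact hc1
  refine ⟨g * Matrix.diagonal d, ?_, ?_, ?_⟩
  · apply mul_mem hg
    rw [Matrix.mem_unitaryGroup_iff', Matrix.star_eq_conjTranspose,
      Matrix.diagonal_conjTranspose, Matrix.diagonal_mul_diagonal]
    rw [← Matrix.diagonal_one]
    congr 1
    funext k
    exact hdd k
  · rw [← Matrix.mulVec_mulVec, ← hgp]
    congr 1
    ext k
    rw [Matrix.mulVec_diagonal]
    simp only [hd, Pi.smul_apply, smul_eq_mul]
    split_ifs with hk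
    · rw [hk, hp]; simp
    · rfl
  · intro b
    rw [Matrix.mul_diagonal, hgj]
    simp only [hd]
    split_ifs <;> simp

theorem norm_mulVec (g : Matrix (Fin N) (Fin N) 𝕜) (hg : g ∈ Matrix.unitaryGroup (Fin N) 𝕜)
    (p : Fin N → 𝕜) : ∑ k, ‖(g *ᵥ p) k‖ ^ 2 = ∑ k, ‖p k‖ ^ 2 := by
  have h1 : star (g *ᵥ p) ⬝ᵥ (g *ᵥ p) = star p ⬝ᵥ p := by
    rw [Matrix.star_mulVec, Matrix.dotProduct_mulVec, Matrix.vecMul_vecMul]
    have h2 : gᴴ * g = 1 := Matrix.mem_unitaryGroup_iff'.1 hg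
    rw [h2, Matrix.vecMul_one]
  rw [dot_self, dot_self] at h1
  exact_mod_cast h1

end refl

section coord

variable {𝕜 : Type} [RCLike 𝕜] {N : ℕ}

/-- index of the real coordinates off `j` -/
abbrev CI (𝕜 : Type) [RCLike 𝕜] {N : ℕ} (j : Fin N) : Type :=
  {k : Fin N // k ≠ j} × Fin (Module.finrank ℝ 𝕜)

/-- the number of real coordinates off `j` -/
noncomputable def cm (𝕜 : Type) [RCLike 𝕜] {N : ℕ} (j : Fin N) : ℕ := Fintype.card (CI 𝕜 j)

/-- enumeration of the coordinates -/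
noncomputable def ce (𝕜 : Type) [RCLike 𝕜] {N : ℕ} (j : Fin N) : Fin (cm 𝕜 j) ≃ CI 𝕜 j :=
  (Fintype.equivFin (CI 𝕜 j)).symm

/-- real coordinates of the entries off `j` -/
noncomputable def vec (j : Fin N) (w : Fin N → 𝕜) : EuclideanSpace ℝ (Fin (cm 𝕜 j)) :=
  WithLp.toLp 2 fun a => ⟪stdOrthonormalBasis ℝ 𝕜 (ce 𝕜 j a).2, w (ce 𝕜 j a).1.1⟫_ℝ

theorem vec_apply (j : Fin N) (w : Fin N → 𝕜) (a : Fin (cm 𝕜 j)) :
    vec j w a = ⟪stdOrthonormalBasis ℝ 𝕜 (ce 𝕜 j a).2, w (ce 𝕜 j a).1.1⟫_ℝ := rfl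

theorem vec_sub (j : Fin N) (w w' : Fin N → 𝕜) : vec j (w - w') = vec j w - vec j w' := by
  ext a
  simp only [vec_apply, PiLp.sub_apply, Pi.sub_apply, inner_sub_right]

theorem vec_comb (j : Fin N) (s t : ℝ) (w w' : Fin N → 𝕜) :
    vec j (s • w + t • w') = s • vec j w + t • vec j w' := by
  ext a
  simp only [vec_apply, PiLp.add_apply, PiLp.smul_apply, Pi.add_apply, Pi.smul_apply,
    inner_add_right, inner_smul_right, smul_eq_mul]

theorem norm_vec (j : Fin N) (w : Fin N → 𝕜) :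
    ‖vec j w‖ ^ 2 = ∑ k : {k : Fin N // k ≠ j}, ‖w k.1‖ ^ 2 := by
  rw [EuclideanSpace.real_norm_sq_eq]
  simp only [vec_apply]
  rw [Equiv.sum_comp (ce 𝕜 j) (fun a : CI 𝕜 j => ⟪stdOrthonormalBasis ℝ 𝕜 a.2, w a.1.1⟫_ℝ ^ 2),
    Fintype.sum_prod_type]
  refine Finset.sum_congr rfl fun k _ => ?_
  have h := (stdOrthonormalBasis ℝ 𝕜).sum_sq_norm_inner_right (w k.1)
  rw [← h]
  refine Finset.sum_congr rfl fun t _ => ?_
  rw [Real.norm_eq_abs, sq_abs]

theorem norm_vec_full (j : Fin N) (w : Fin N → 𝕜) :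
    ‖vec j w‖ ^ 2 + ‖w j‖ ^ 2 = ∑ k, ‖w k‖ ^ 2 := by
  rw [norm_vec, ← Finset.add_sum_erase Finset.univ _ (Finset.mem_univ j), add_comm]
  congr 1
  rw [← Finset.sum_subtype (Finset.univ.erase j) (p := fun k => k ≠ j) (by simp)
    (fun k => ‖w k‖ ^ 2)]

theorem vec_surj (j : Fin N) (y : EuclideanSpace ℝ (Fin (cm 𝕜 j))) :
    ∃ w : Fin N → 𝕜, w j = 0 ∧ vec j w = y := by
  classical
  refine ⟨fun k => if h : k ≠ j then ∑ t, y ((ce 𝕜 j).symm (⟨k, h⟩, t)) • stdOrthonormalBasis ℝ 𝕜 t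
    else 0, by simp, ?_⟩
  ext a
  rw [vec_apply]
  have hne : (ce 𝕜 j a).1.1 ≠ j := (ce 𝕜 j a).1.2
  simp only [dif_pos hne]
  rw [(stdOrthonormalBasis ℝ 𝕜).orthonormal.inner_right_fintype]
  simp

theorem card_le (j : Fin N) (hN : 2 ≤ N) : 1 ≤ cm 𝕜 j ∧ N - 1 ≤ cm 𝕜 j ∧ cm 𝕜 j ≤ 2 * (N - 1) := by
  have h1 : cm 𝕜 j = (N - 1) * Module.finrank ℝ 𝕜 := by
    rw [cm, Fintype.card_prod, Fintype.card_fin]
    congr 1
    rw [Fintype.card_subtype_compl, Fintype.card_fin, Fintype.card_subtype_eq]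
  have h2 : Module.finrank ℝ 𝕜 ≤ 2 := RCLike.finrank_le_two 𝕜
  have h3 : 0 < Module.finrank ℝ 𝕜 := Module.finrank_pos
  rw [h1]
  refine ⟨?_, ?_, ?_⟩
  · nlinarith [Nat.sub_le N 1, (by omega : 1 ≤ N - 1)]
  · nlinarith [(by omega : 1 ≤ N - 1)]
  · nlinarith [(by omega : 1 ≤ N - 1)]

end coord

section maps

variable {𝕜 : Type} [RCLike 𝕜] {N : ℕ} {ι : Type} [Fintype ι]
  {Φ : EuclideanSpace ℝ ι →ₗ[ℝ] Matrix (Fin N) (Fin N) 𝕜}

/-- real coordinates of the column `j` off `j` -/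
noncomputable def yv (Φ : EuclideanSpace ℝ ι →ₗ[ℝ] Matrix (Fin N) (Fin N) 𝕜) (j : Fin N) :
    EuclideanSpace ℝ ι →ₗ[ℝ] EuclideanSpace ℝ (Fin (cm 𝕜 j)) where
  toFun x := vec j fun k => Φ x k j
  map_add' x y := by
    ext a
    simp only [vec_apply, map_add, Matrix.add_apply, inner_add_right, PiLp.add_apply]
  map_smul' c x := by
    ext a
    simp only [vec_apply, map_smul, Matrix.smul_apply, inner_smul_right, PiLp.smul_apply,
      RingHom.id_apply, smul_eq_mul]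

omit [Fintype ι] in
theorem yv_def (j : Fin N) (x : EuclideanSpace ℝ ι) : yv Φ j x = vec j fun k => Φ x k j := rfl

theorem yv_continuous (j : Fin N) : Continuous (yv Φ j) :=
  (yv Φ j).continuous_of_finiteDimensional

theorem norm_yv_le (h : Fr Φ) (j : Fin N) (x : EuclideanSpace ℝ ι) : ‖yv Φ j x‖ ≤ ‖x‖ := by
  have h1 := norm_vec_full j (fun k => Φ x k j)
  have h2 := h.iso x
  rw [Finset.sum_comm] at h2
  have h3 : ∑ k, ‖Φ x k j‖ ^ 2 ≤ ∑ l, ∑ k, ‖Φ x k l‖ ^ 2 :=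
    Finset.single_le_sum (f := fun l => ∑ k, ‖Φ x k l‖ ^ 2)
      (fun l _ => Finset.sum_nonneg fun k _ => sq_nonneg _) (Finset.mem_univ j)
  have h4 : ‖yv Φ j x‖ ^ 2 ≤ ‖x‖ ^ 2 := by
    rw [yv_def]
    have := sq_nonneg ‖Φ x j j‖
    linarith
  exact le_of_sq_le_sq h4 (norm_nonneg x)

omit [Fintype ι] in
theorem entry_le (j i : Fin N) (hij : i ≠ j) (x : EuclideanSpace ℝ ι) :
    ‖Φ x i j‖ ≤ ‖yv Φ j x‖ := by
  have h1 : ‖Φ x i j‖ ^ 2 ≤ ‖yv Φ j x‖ ^ 2 := by
    rw [yv_def, norm_vec]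
    exact Finset.single_le_sum (f := fun k : {k : Fin N // k ≠ j} => ‖Φ x k.1 j‖ ^ 2)
      (fun k _ => sq_nonneg _) (Finset.mem_univ (⟨i, hij⟩ : {k : Fin N // k ≠ j}))
  exact le_of_sq_le_sq h1 (norm_nonneg _)

theorem yv_cj (h : Fr Φ) (j : Fin N) (V : Matrix (Fin N) (Fin N) 𝕜)
    (hV : ∀ b, V j b = if b = j then 1 else 0) (x : EuclideanSpace ℝ ι) :
    yv Φ j (cj Φ V x) = vec j (V *ᵥ fun k => Φ x k j) := by
  rw [yv_def, Phi_cj h]
  congr 1
  funext k
  rw [Matrix.mul_assoc, Matrix.mul_apply, Matrix.mulVec, dotProduct]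
  refine Finset.sum_congr rfl fun a _ => ?_
  congr 1
  rw [Matrix.mul_apply, Finset.sum_eq_single j]
  · rw [Matrix.conjTranspose_apply, hV]; simp
  · intro b _ hb
    rw [Matrix.conjTranspose_apply, hV, if_neg hb]; simp
  · simp

theorem vec_unitary (j : Fin N) (V : Matrix (Fin N) (Fin N) 𝕜)
    (hU : V ∈ Matrix.unitaryGroup (Fin N) 𝕜)
    (hV : ∀ b, V j b = if b = j then 1 else 0) (w w' : Fin N → 𝕜) :
    ‖vec j (V *ᵥ w) - vec j (V *ᵥ w')‖ = ‖vec j w - vec j w'‖ := by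
  rw [← vec_sub, ← vec_sub, ← Matrix.mulVec_sub]
  set d := w - w'
  have h1 := norm_vec_full j (V *ᵥ d)
  have h2 := norm_vec_full j d
  have h3 := norm_mulVec V hU d
  have h4 : (V *ᵥ d) j = d j := by
    rw [Matrix.mulVec, dotProduct, Finset.sum_eq_single j]
    · rw [hV]; simp
    · intro b _ hb
      rw [hV, if_neg hb]; simp
    · simp
  rw [h4] at h1
  have h5 : ‖vec j (V *ᵥ d)‖ ^ 2 = ‖vec j d‖ ^ 2 := by linarith
  exact (sq_eq_sq₀ (norm_nonneg _) (norm_nonneg _)).1 h5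

theorem lin_ball {W : Type} [NormedAddCommGroup W] [NormedSpace ℝ W] [MeasurableSpace W]
    [BorelSpace W] (ρ : EuclideanSpace ℝ ι → ℝ) (h0 : ∀ x, 0 ≤ ρ x) (hm : Measurable ρ)
    (hlc : ∀ x y : EuclideanSpace ℝ ι, ∀ t : ℝ, 0 < t → t < 1 →
      ρ x ^ (1 - t) * ρ y ^ t ≤ ρ ((1 - t) • x + t • y))
    (L : EuclideanSpace ℝ ι →ₗ[ℝ] W) (hL : Continuous L) (d : ℝ) (y z : W)
    (t : ℝ) (ht0 : 0 < t) (ht1 : t < 1) :
    mu ρ {X | L X ∈ Metric.closedBall y d} ^ (1 - t) *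
      mu ρ {X | L X ∈ Metric.closedBall z d} ^ t ≤
    mu ρ {X | L X ∈ Metric.closedBall ((1 - t) • y + t • z) d} := by
  have hms : ∀ y : W, MeasurableSet {X : EuclideanSpace ℝ ι | L X ∈ Metric.closedBall y d} :=
    fun y => (Metric.isClosed_closedBall.preimage hL).measurableSet
  have hρm : Measurable fun x => ENNReal.ofReal (ρ x) := ENNReal.measurable_ofReal.comp hm
  have he : ∀ y : W, mu ρ {X | L X ∈ Metric.closedBall y d} =
      ∫⁻ X, {X : EuclideanSpace ℝ ι | L X ∈ Metric.closedBall y d}.indicator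
        (fun x => ENNReal.ofReal (ρ x)) X := by
    intro y
    rw [mu, withDensity_apply _ (hms y), lintegral_indicator (hms y)]
  rw [he y, he z, he]
  apply Pool.Agent.H212R2.KLS.PL volume t ht0 ht1 _ _ _ (hρm.indicator (hms y))
    (hρm.indicator (hms z)) (hρm.indicator (hms _))
  intro a b
  by_cases ha : a ∈ {X : EuclideanSpace ℝ ι | L X ∈ Metric.closedBall y d}
  · by_cases hb : b ∈ {X : EuclideanSpace ℝ ι | L X ∈ Metric.closedBall z d}
    · have hab : (1 - t) • a + t • b ∈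
          {X : EuclideanSpace ℝ ι | L X ∈ Metric.closedBall ((1 - t) • y + t • z) d} := by
        show L ((1 - t) • a + t • b) ∈ Metric.closedBall ((1 - t) • y + t • z) d
        have ha' : L a ∈ Metric.closedBall y d := ha
        have hb' : L b ∈ Metric.closedBall z d := hb
        rw [map_add, map_smul, map_smul, mem_closedBall_iff_norm]
        rw [mem_closedBall_iff_norm] at ha' hb'
        have e : (1 - t) • L a + t • L b - ((1 - t) • y + t • z) =
            (1 - t) • (L a - y) + t • (L b - z) := by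
          rw [smul_sub, smul_sub]; abel
        rw [e]
        calc ‖(1 - t) • (L a - y) + t • (L b - z)‖
            ≤ ‖(1 - t) • (L a - y)‖ + ‖t • (L b - z)‖ := norm_add_le _ _
          _ = (1 - t) * ‖L a - y‖ + t * ‖L b - z‖ := by
              rw [norm_smul, norm_smul, Real.norm_eq_abs, Real.norm_eq_abs,
                abs_of_pos ht0, abs_of_pos (by linarith)]
          _ ≤ (1 - t) * d + t * d := by
              apply add_le_add
              · exact mul_le_mul_of_nonneg_left ha' (by linarith)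
              · exact mul_le_mul_of_nonneg_left hb' ht0.le
          _ = d := by ring
      rw [indicator_of_mem ha, indicator_of_mem hb, indicator_of_mem hab,
        ENNReal.ofReal_rpow_of_nonneg (h0 a) (by linarith),
        ENNReal.ofReal_rpow_of_nonneg (h0 b) ht0.le,
        ← ENNReal.ofReal_mul (Real.rpow_nonneg (h0 a) _)]
      exact ENNReal.ofReal_le_ofReal (hlc a b t ht0 ht1)
    · rw [indicator_of_notMem hb, ENNReal.zero_rpow_of_pos ht0, mul_zero]
      exact zero_le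
  · rw [indicator_of_notMem ha, ENNReal.zero_rpow_of_pos (by linarith), zero_mul]
    exact zero_le

/-- the vector of the coordinate functional `a` of `yv` -/
theorem exists_th (h : Fr Φ) (j : Fin N) (a : Fin (cm 𝕜 j)) :
    ∃ θ : EuclideanSpace ℝ ι, ‖θ‖ ≤ 1 ∧ ∀ x, ⟪θ, x⟫_ℝ = yv Φ j x a := by
  let l : EuclideanSpace ℝ ι →ₗ[ℝ] ℝ :=
    { toFun := fun x => yv Φ j x a
      map_add' := fun x y => by rw [map_add]; rfl
      map_smul' := fun c x => by rw [map_smul]; rfl }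
  refine ⟨(InnerProductSpace.toDual ℝ _).symm (LinearMap.toContinuousLinearMap l), ?_, ?_⟩
  · rw [LinearIsometryEquiv.norm_map]
    apply ContinuousLinearMap.opNorm_le_bound _ zero_le_one
    intro x
    rw [one_mul]
    show ‖yv Φ j x a‖ ≤ ‖x‖
    refine le_trans ?_ (norm_yv_le h j x)
    exact PiLp.norm_apply_le (yv Φ j x) a
  · intro x
    rw [InnerProductSpace.toDual_symm_apply]
    rfl

theorem second_moment (h : Fr Φ) (j : Fin N) (ρ : EuclideanSpace ℝ ι → ℝ) (hb : Bdd ρ)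
    (h1 : mu ρ univ = 1) (s : ℝ) (hs : 0 < s)
    (hmom : ∀ θ : EuclideanSpace ℝ ι, ∫ x, ⟪θ, x⟫_ℝ ^ 2 ∂(mu ρ) ≤ s * ‖θ‖ ^ 2) :
    ∫⁻ X, ENNReal.ofReal (‖yv Φ j X‖ ^ 2) ∂(mu ρ) ≤ ENNReal.ofReal (cm 𝕜 j * s) := by
  have : IsProbabilityMeasure (mu ρ) := ⟨h1⟩
  obtain ⟨R, hR⟩ := hb
  choose th hth1 hth using fun a => exists_th h j a
  have hint : ∀ i : Fin (cm 𝕜 j), Integrable (fun X => ⟪th i, X⟫_ℝ ^ 2) (mu ρ) := by
    intro i
    refine Integrable.of_bound ?_ ((‖th i‖ * R) ^ 2) ?_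
    · exact ((continuous_const.inner continuous_id).pow 2).aestronglyMeasurable
    · filter_upwards [Pool.Agent.H212R2.KLS.T2.ae_bdd ρ R hR] with x hx
      rw [Real.norm_eq_abs, abs_of_nonneg (sq_nonneg _)]
      have h2 := abs_real_inner_le_norm (th i) x
      have h3 : |⟪th i, x⟫_ℝ| ≤ ‖th i‖ * R :=
        le_trans h2 (mul_le_mul_of_nonneg_left hx (norm_nonneg _))
      rw [← sq_abs]
      exact pow_le_pow_left₀ (abs_nonneg _) h3 2
  have e : ∀ X, ‖yv Φ j X‖ ^ 2 = ∑ i, ⟪th i, X⟫_ℝ ^ 2 := by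
    intro X
    rw [EuclideanSpace.real_norm_sq_eq]
    simp only [hth]
  simp only [e]
  rw [← ofReal_integral_eq_lintegral_ofReal (integrable_finsetSum _ fun i _ => hint i)
    (Filter.Eventually.of_forall fun X => Finset.sum_nonneg fun i _ => sq_nonneg _)]
  apply ENNReal.ofReal_le_ofReal
  rw [integral_finsetSum _ fun i _ => hint i]
  calc ∑ i : Fin (cm 𝕜 j), ∫ X, ⟪th i, X⟫_ℝ ^ 2 ∂(mu ρ) ≤ ∑ _i : Fin (cm 𝕜 j), s := by
        apply Finset.sum_le_sum
        intro i _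
        refine le_trans (hmom (th i)) ?_
        have : ‖th i‖ ^ 2 ≤ 1 := by
          have h3 := norm_nonneg (th i)
          have h4 := hth1 i
          nlinarith
        nlinarith
    _ = cm 𝕜 j * s := by simp

theorem yv_tail (h : Fr Φ) (j : Fin N) (hm : 1 ≤ cm 𝕜 j) (ρ : EuclideanSpace ℝ ι → ℝ)
    (hρ : Dn Φ ρ) (hb : Bdd ρ) (h1 : mu ρ univ = 1) (s : ℝ) (hs : 0 < s)
    (hmom : ∀ θ : EuclideanSpace ℝ ι, ∫ x, ⟪θ, x⟫_ℝ ^ 2 ∂(mu ρ) ≤ s * ‖θ‖ ^ 2) (r : ℝ) :
    mu ρ {X | r ≤ ‖yv Φ j X‖} ≤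
      ENNReal.ofReal (Real.exp (cm 𝕜 j * (5 / 2 - r / (20 * Real.sqrt (cm 𝕜 j * s))))) := by
  have hP : IsProbabilityMeasure (mu ρ) := ⟨h1⟩
  have hm0 : (0 : ℝ) < cm 𝕜 j := by exact_mod_cast hm
  have hσ : 0 < Real.sqrt (cm 𝕜 j * s) := Real.sqrt_pos.2 (by positivity)
  have hmeas : Measurable fun X => yv Φ j X := (yv_continuous j).measurable
  have hL : IsProbabilityMeasure ((mu ρ).map fun X => yv Φ j X) :=
    Measure.isProbabilityMeasure_map hmeas.aemeasurable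
  have hball : ∀ y : EuclideanSpace ℝ (Fin (cm 𝕜 j)), ∀ d : ℝ,
      ((mu ρ).map fun X => yv Φ j X) (Metric.closedBall y d) =
      mu ρ {X | yv Φ j X ∈ Metric.closedBall y d} := fun y d =>
    Measure.map_apply hmeas Metric.isClosed_closedBall.measurableSet
  have key := Pool.Agent.H317R2.KLS.core_tail hm ((mu ρ).map fun X => yv Φ j X)
    (Real.sqrt (cm 𝕜 j * s)) hσ ?_ ?_ ?_ r
  · have hset : MeasurableSet {y : EuclideanSpace ℝ (Fin (cm 𝕜 j)) | r ≤ ‖y‖} :=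
      (isClosed_le continuous_const continuous_norm).measurableSet
    rw [Measure.map_apply hmeas hset] at key
    exact key
  · intro y z t ht0 ht1
    rw [hball, hball, hball, ENNReal.toReal_rpow, ENNReal.toReal_rpow, ← ENNReal.toReal_mul]
    exact ENNReal.toReal_mono (measure_ne_top _ _) (lin_ball ρ hρ.nonneg hρ.meas hρ.logc
      (yv Φ j) (yv_continuous j) _ y z t ht0 ht1)
  · intro y z hyz
    obtain ⟨w, hw0, hw⟩ := vec_surj j y
    obtain ⟨w', hw0', hw'⟩ := vec_surj j z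
    have hn : ∑ k, ‖w k‖ ^ 2 = ∑ k, ‖w' k‖ ^ 2 := by
      rw [← norm_vec_full j w, ← norm_vec_full j w', hw, hw', hw0, hw0', hyz]
    obtain ⟨g, hg, hgw, hgj⟩ := trans_off j w w' hw0 hw0' hn
    rw [hball, hball]
    have hinv := (Dn.basic h hρ).1 g hg
    have hgm : Measurable (cj Φ g) := by
      apply Continuous.measurable
      exact (cj Φ g).continuous_of_finiteDimensional
    have hset : MeasurableSet {X | yv Φ j X ∈ Metric.closedBall z (√(cm 𝕜 j * s) / 100)} :=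
      (Metric.isClosed_closedBall.preimage (yv_continuous j)).measurableSet
    conv_rhs => rw [← hinv, Measure.map_apply hgm hset]
    congr 1
    ext X
    show yv Φ j X ∈ Metric.closedBall y _ ↔ yv Φ j (cj Φ g X) ∈ Metric.closedBall z _
    rw [mem_closedBall_iff_norm, mem_closedBall_iff_norm, yv_cj h j g hgj, ← hw, ← hw', ← hgw,
      vec_unitary j g hg hgj]
    rfl
  · have hset : MeasurableSet {y : EuclideanSpace ℝ (Fin (cm 𝕜 j)) |
        2 * Real.sqrt (cm 𝕜 j * s) < ‖y‖} :=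
      (isOpen_lt continuous_const continuous_norm).measurableSet
    rw [Measure.map_apply hmeas hset]
    have h2 := second_moment h j ρ hb h1 s hs hmom
    have h3 := mul_meas_ge_le_lintegral₀ (μ := mu ρ)
      (f := fun X => ENNReal.ofReal (‖yv Φ j X‖ ^ 2)) (by
        apply Measurable.aemeasurable
        exact ENNReal.measurable_ofReal.comp ((yv_continuous j).norm.pow 2).measurable)
      (ENNReal.ofReal (4 * (cm 𝕜 j * s)))
    have h4 : (fun X => yv Φ j X) ⁻¹' {y : EuclideanSpace ℝ (Fin (cm 𝕜 j)) |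
          2 * Real.sqrt (cm 𝕜 j * s) < ‖y‖} ⊆
        {X | ENNReal.ofReal (4 * (cm 𝕜 j * s)) ≤ ENNReal.ofReal (‖yv Φ j X‖ ^ 2)} := by
      intro X hX
      have hX' : 2 * Real.sqrt (cm 𝕜 j * s) < ‖yv Φ j X‖ := hX
      show ENNReal.ofReal (4 * (cm 𝕜 j * s)) ≤ ENNReal.ofReal (‖yv Φ j X‖ ^ 2)
      apply ENNReal.ofReal_le_ofReal
      have h5 : (2 * Real.sqrt (cm 𝕜 j * s)) ^ 2 = 4 * (cm 𝕜 j * s) := by
        rw [mul_pow, Real.sq_sqrt (by positivity)]; norm_num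
      rw [← h5]
      exact pow_le_pow_left₀ (by positivity) hX'.le 2
    have h5 := le_trans (mul_le_mul_right (measure_mono (μ := mu ρ) h4)
      (ENNReal.ofReal (4 * (cm 𝕜 j * s)))) (le_trans h3 h2)
    have h6 : ENNReal.ofReal (cm 𝕜 j * s) =
        ENNReal.ofReal (4 * (cm 𝕜 j * s)) * ENNReal.ofReal (1 / 4) := by
      rw [← ENNReal.ofReal_mul (by positivity)]
      congr 1; ring
    rw [h6] at h5
    refine (ENNReal.mul_le_mul_iff_right ?_ ENNReal.ofReal_ne_top).1 h5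
    rw [Ne, ENNReal.ofReal_eq_zero, not_le]
    positivity

end maps

end T1x

variable {𝕜 : Type} [RCLike 𝕜] {N : ℕ} {ι : Type} [Fintype ι]
  {Φ : EuclideanSpace ℝ ι →ₗ[ℝ] Matrix (Fin N) (Fin N) 𝕜}

theorem col_tail (h : Fr Φ) (hN : 2 ≤ N) (ρ : EuclideanSpace ℝ ι → ℝ) (hρ : Dn Φ ρ) (hb : Bdd ρ)
    (h1 : mu ρ univ = 1) (s : ℝ) (hs : 0 < s)
    (hmom : ∀ θ : EuclideanSpace ℝ ι, ∫ x, ⟪θ, x⟫_ℝ ^ 2 ∂(mu ρ) ≤ s * ‖θ‖ ^ 2)
    (i j : Fin N) (hij : i ≠ j) (u : ℝ) :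
    mu ρ {x | u * Real.sqrt (N * s) ≤ ‖Φ x i j‖} ≤
      ENNReal.ofReal (Real.exp (N * (5 - u / 30))) := by
  have hP : IsProbabilityMeasure (mu ρ) := ⟨h1⟩
  have hN0 : (0 : ℝ) < N := by exact_mod_cast (by omega : 0 < N)
  rcases lt_or_ge u 0 with hu | hu
  · calc mu ρ {x | u * Real.sqrt (N * s) ≤ ‖Φ x i j‖} ≤ 1 := prob_le_one
      _ = ENNReal.ofReal 1 := ENNReal.ofReal_one.symm
      _ ≤ _ := by
        apply ENNReal.ofReal_le_ofReal
        apply Real.one_le_exp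
        apply mul_nonneg hN0.le
        linarith
  obtain ⟨hm1, hm2, hm3⟩ := T1x.card_le (𝕜 := 𝕜) j hN
  have hmR1 : (1 : ℝ) ≤ T1x.cm 𝕜 j := by exact_mod_cast hm1
  have hmR2 : (N : ℝ) ≤ 2 * T1x.cm 𝕜 j := by
    have : N ≤ 2 * T1x.cm 𝕜 j := by omega
    exact_mod_cast this
  have hmR3 : (T1x.cm 𝕜 j : ℝ) ≤ 2 * N := by
    have : T1x.cm 𝕜 j ≤ 2 * N := by omega
    exact_mod_cast this
  refine le_trans (measure_mono (t := {X | u * Real.sqrt (N * s) ≤ ‖T1x.yv Φ j X‖}) ?_)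
    (le_trans (T1x.yv_tail h j hm1 ρ hρ hb h1 s hs hmom (u * Real.sqrt (N * s))) ?_)
  · intro x hx
    exact le_trans hx (T1x.entry_le j i hij x)
  apply ENNReal.ofReal_le_ofReal
  apply Real.exp_le_exp.2
  set m : ℝ := (T1x.cm 𝕜 j : ℝ) with hm
  have hm0 : 0 < m := by linarith
  set A := Real.sqrt (N * s) with hA
  set B := Real.sqrt (m * s) with hB
  have hA0 : 0 < A := Real.sqrt_pos.2 (by positivity)
  have hB0 : 0 < B := Real.sqrt_pos.2 (by positivity)
  have hA2 : A ^ 2 = N * s := Real.sq_sqrt (by positivity)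
  have hB2 : B ^ 2 = m * s := Real.sq_sqrt (by positivity)
  have hkey : 2 * N * B ≤ 3 * m * A := by
    have h2 : (2 * N * B) ^ 2 ≤ (3 * m * A) ^ 2 := by
      rw [mul_pow, mul_pow, mul_pow, mul_pow, hA2, hB2]
      have h3 : 0 ≤ N * m * s * (9 * m - 4 * N) := by
        apply mul_nonneg (by positivity)
        linarith
      nlinarith
    exact le_of_sq_le_sq h2 (by positivity)
  have h4 : N * (u / 30) ≤ m * (u * A / (20 * B)) := by
    rw [mul_div_assoc', mul_div_assoc', div_le_div_iff₀ (by norm_num) (by positivity)]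
    nlinarith [mul_le_mul_of_nonneg_left hkey hu]
  have h5 : m * (5 / 2) ≤ N * 5 := by linarith
  have h6 : m * (5 / 2 - u * A / (20 * B)) = m * (5 / 2) - m * (u * A / (20 * B)) := by ring
  rw [h6]
  linarith

end Pool.Agent.H888R2.KC
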