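import Pool.Agent.H59.L.S8.H888R2.KC.Defs

/-!
# Task U1: one-dimensional weighted Poincare inequality
-/

set_option autoImplicit false

namespace Pool.Agent.H888R2.KC

open MeasureTheory Set

namespace U1x

/-- Hardy type inequality on an interval -/
theorem hardy (Z M : ℝ → ℝ) (hZ : ∀ x, 0 < Z x) (hZc : Continuous Z) (hM : ContDiff ℝ 1 M)
    (m b R : ℝ) (hmb : m ≤ b) (hG : ∀ x ∈ Icc m b, ∫ v in x..b, Z v ≤ R * Z x) :
    ∫ x in m..b, (M x - M m) ^ 2 * Z x ≤ 4 * R ^ 2 * ∫ x in m..b, (deriv M x) ^ 2 * Z x := by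
  have hMc : Continuous M := hM.continuous
  have hM'c : Continuous (deriv M) := hM.continuous_deriv (le_refl _)
  have hMd : ∀ x, HasDerivAt M (deriv M x) x := fun x =>
    (hM.differentiable (by norm_num) x).hasDerivAt
  have hZI : ∀ a c, IntervalIntegrable Z volume a c := fun a c => hZc.intervalIntegrable a c
  have hGd : ∀ x, HasDerivAt (fun x => ∫ v in x..b, Z v) (-Z x) x := fun x =>
    intervalIntegral.integral_hasDerivAt_left (hZI x b)
      (hZc.stronglyMeasurableAtFilter _ _) hZc.continuousAt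
  have hGc : Continuous fun x => ∫ v in x..b, Z v :=
    continuous_iff_continuousAt.mpr fun x => (hGd x).continuousAt
  have hφd : ∀ x, HasDerivAt (fun x => (M x - M m) ^ 2) (2 * (M x - M m) * deriv M x) x := by
    intro x
    have := ((hMd x).sub_const (M m)).mul ((hMd x).sub_const (M m))
    have e : (fun x => (M x - M m) ^ 2) = fun x => (M x - M m) * (M x - M m) := by
      funext y
      ring
    rw [e]
    have e2 : 2 * (M x - M m) * deriv M x =
        deriv M x * (M x - M m) + (M x - M m) * deriv M x := by ring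
    rw [e2]
    exact this
  have hparts := intervalIntegral.integral_mul_deriv_eq_deriv_mul (a := m) (b := b)
    (u := fun x => (M x - M m) ^ 2) (v := fun x => ∫ v in x..b, Z v)
    (u' := fun x => 2 * (M x - M m) * deriv M x) (v' := fun x => -Z x)
    (fun x _ => hφd x) (fun x _ => hGd x)
    (Continuous.intervalIntegrable (by fun_prop) _ _) (Continuous.intervalIntegrable (by fun_prop) _ _)
  have h1 : ∫ x in m..b, (M x - M m) ^ 2 * Z x =
      ∫ x in m..b, 2 * (M x - M m) * deriv M x * ∫ v in x..b, Z v := by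
    have h2 : ∫ x in m..b, (M x - M m) ^ 2 * -Z x = -∫ x in m..b, (M x - M m) ^ 2 * Z x := by
      rw [← intervalIntegral.integral_neg]
      refine intervalIntegral.integral_congr fun x _ => ?_
      ring
    rw [h2] at hparts
    simp only [intervalIntegral.integral_same, sub_self, mul_zero, ne_eq, OfNat.ofNat_ne_zero,
      not_false_eq_true, zero_pow, zero_mul, zero_sub] at hparts
    linarith
  have h3 : ∫ x in m..b, 2 * (M x - M m) * deriv M x * ∫ v in x..b, Z v ≤
      ∫ x in m..b, (1 / 2 * ((M x - M m) ^ 2 * Z x) + 2 * R ^ 2 * ((deriv M x) ^ 2 * Z x)) := by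
    refine intervalIntegral.integral_mono_on hmb (Continuous.intervalIntegrable (by fun_prop) _ _)
      (Continuous.intervalIntegrable (by fun_prop) _ _) fun x hx => ?_
    have hG0 : 0 ≤ ∫ v in x..b, Z v := intervalIntegral.integral_nonneg hx.2 fun v _ => (hZ v).le
    have hGR := hG x hx
    have hzx := hZ x
    have e1 : 2 * (M x - M m) * deriv M x * ∫ v in x..b, Z v ≤
        2 * |(M x - M m) * deriv M x| * (R * Z x) := by
      have a1 : (M x - M m) * deriv M x ≤ |(M x - M m) * deriv M x| := le_abs_self _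
      calc 2 * (M x - M m) * deriv M x * ∫ v in x..b, Z v
          = 2 * ((M x - M m) * deriv M x) * ∫ v in x..b, Z v := by ring
        _ ≤ 2 * |(M x - M m) * deriv M x| * ∫ v in x..b, Z v :=
            mul_le_mul_of_nonneg_right (by linarith) hG0
        _ ≤ 2 * |(M x - M m) * deriv M x| * (R * Z x) :=
            mul_le_mul_of_nonneg_left hGR (by positivity)
    have e2 : 2 * |(M x - M m) * deriv M x| * (R * Z x) ≤
        1 / 2 * ((M x - M m) ^ 2 * Z x) + 2 * R ^ 2 * ((deriv M x) ^ 2 * Z x) := by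
      have a2 : 2 * |(M x - M m) * deriv M x| * R ≤
          1 / 2 * (M x - M m) ^ 2 + 2 * R ^ 2 * (deriv M x) ^ 2 := by
        rw [abs_mul]
        have s1 : (M x - M m) ^ 2 = |M x - M m| ^ 2 := (sq_abs _).symm
        have s2 : (deriv M x) ^ 2 = |deriv M x| ^ 2 := (sq_abs _).symm
        rw [s1, s2]
        nlinarith [sq_nonneg (|M x - M m| - 2 * R * |deriv M x|)]
      calc 2 * |(M x - M m) * deriv M x| * (R * Z x)
          = (2 * |(M x - M m) * deriv M x| * R) * Z x := by ring
        _ ≤ (1 / 2 * (M x - M m) ^ 2 + 2 * R ^ 2 * (deriv M x) ^ 2) * Z x :=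
            mul_le_mul_of_nonneg_right a2 hzx.le
        _ = _ := by ring
    exact e1.trans e2
  rw [intervalIntegral.integral_add (Continuous.intervalIntegrable (by fun_prop) _ _)
    (Continuous.intervalIntegrable (by fun_prop) _ _), intervalIntegral.integral_const_mul,
    intervalIntegral.integral_const_mul, ← h1] at h3
  linarith

theorem lc_swap (Z : ℝ → ℝ) (hZ : ∀ x, 0 < Z x)
    (hlc : ∀ a b t : ℝ, 0 < t → t < 1 → Z a ^ (1 - t) * Z b ^ t ≤ Z ((1 - t) * a + t * b))
    (m x u : ℝ) (hx : m ≤ x) (hu : 0 ≤ u) : Z (x + u) * Z m ≤ Z x * Z (m + u) := by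
  rcases hx.eq_or_lt with rfl | hx
  · exact le_of_eq (mul_comm _ _)
  rcases hu.eq_or_lt with rfl | hu
  · simp
  have hd : 0 < x - m + u := by linarith
  set t := (x - m) / (x - m + u) with ht
  have ht0 : 0 < t := div_pos (by linarith) hd
  have ht1 : t < 1 := by
    rw [ht, div_lt_one hd]
    linarith
  have h1 := hlc m (x + u) t ht0 ht1
  have h2 := hlc (x + u) m t ht0 ht1
  have e1 : (1 - t) * m + t * (x + u) = x := by
    have : t * (x - m + u) = x - m := by
      rw [ht]
      field_simp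
    linarith
  have e2 : (1 - t) * (x + u) + t * m = m + u := by
    have : t * (x - m + u) = x - m := by
      rw [ht]
      field_simp
    linarith
  rw [e1] at h1
  rw [e2] at h2
  have hm := hZ m
  have hxu := hZ (x + u)
  calc Z (x + u) * Z m
      = (Z m ^ (1 - t) * Z (x + u) ^ t) * (Z (x + u) ^ (1 - t) * Z m ^ t) := by
        have a1 : Z m ^ (1 - t) * Z m ^ t = Z m := by
          rw [← Real.rpow_add hm]
          simp
        have a2 : Z (x + u) ^ t * Z (x + u) ^ (1 - t) = Z (x + u) := by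
          rw [← Real.rpow_add hxu]
          simp
        calc Z (x + u) * Z m
            = (Z (x + u) ^ t * Z (x + u) ^ (1 - t)) * (Z m ^ (1 - t) * Z m ^ t) := by rw [a1, a2]
          _ = _ := by ring
    _ ≤ Z x * Z (m + u) := mul_le_mul h1 h2 (by positivity) (hZ x).le

theorem half (Z M : ℝ → ℝ) (hZ : ∀ x, 0 < Z x) (hZc : Continuous Z)
    (hlc : ∀ a b t : ℝ, 0 < t → t < 1 → Z a ^ (1 - t) * Z b ^ t ≤ Z ((1 - t) * a + t * b))
    (hZi : Integrable Z) (hM : ContDiff ℝ 1 M) (m b : ℝ) (hmb : m ≤ b) :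
    ∫ x in m..b, (M x - M m) ^ 2 * Z x ≤
      4 * ((∫ x, Z x) / Z m) ^ 2 * ∫ x in m..b, (deriv M x) ^ 2 * Z x := by
  refine hardy Z M hZ hZc hM m b _ hmb fun x hx => ?_
  have hm := hZ m
  have h1 : (∫ v in x..b, Z v) * Z m ≤ Z x * ∫ v, Z v := by
    calc (∫ v in x..b, Z v) * Z m = ∫ v in x..b, Z v * Z m :=
          (intervalIntegral.integral_mul_const _ _).symm
      _ ≤ ∫ v in x..b, Z x * Z (v - (x - m)) := by
          refine intervalIntegral.integral_mono_on hx.2
            (Continuous.intervalIntegrable (by fun_prop) _ _)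
            (Continuous.intervalIntegrable (by fun_prop) _ _) fun v hv => ?_
          have := lc_swap Z hZ hlc m x (v - x) hx.1 (by linarith [hv.1])
          have e1 : x + (v - x) = v := by ring
          have e2 : m + (v - x) = v - (x - m) := by ring
          rwa [e1, e2] at this
      _ = Z x * ∫ v in x..b, Z (v - (x - m)) := intervalIntegral.integral_const_mul _ _
      _ = Z x * ∫ v in (x - (x - m))..(b - (x - m)), Z v := by
          rw [intervalIntegral.integral_comp_sub_right]
      _ ≤ Z x * ∫ v, Z v := by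
          refine mul_le_mul_of_nonneg_left ?_ (hZ x).le
          rw [intervalIntegral.integral_of_le (by linarith [hx.2])]
          exact setIntegral_le_integral hZi (Filter.Eventually.of_forall fun v => (hZ v).le)
  rw [div_mul_eq_mul_div, le_div_iff₀ hm]
  linarith [mul_comm (Z x) (∫ v, Z v)]

theorem half_left (Z M : ℝ → ℝ) (hZ : ∀ x, 0 < Z x) (hZc : Continuous Z)
    (hlc : ∀ a b t : ℝ, 0 < t → t < 1 → Z a ^ (1 - t) * Z b ^ t ≤ Z ((1 - t) * a + t * b))
    (hZi : Integrable Z) (hM : ContDiff ℝ 1 M) (m b : ℝ) (hmb : b ≤ m) :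
    ∫ x in b..m, (M x - M m) ^ 2 * Z x ≤
      4 * ((∫ x, Z x) / Z m) ^ 2 * ∫ x in b..m, (deriv M x) ^ 2 * Z x := by
  have h := half (fun x => Z (-x)) (fun x => M (-x)) (fun x => hZ _) (by fun_prop)
    (fun a b t h0 h1 => by
      have := hlc (-a) (-b) t h0 h1
      have e : (1 - t) * -a + t * -b = -((1 - t) * a + t * b) := by ring
      rwa [e] at this) (hZi.comp_neg) (hM.comp contDiff_neg) (-m) (-b) (by linarith)
  have e1 : ∫ x in (-m)..(-b), (M (-x) - M (- -m)) ^ 2 * Z (-x) =
      ∫ x in b..m, (M x - M m) ^ 2 * Z x := by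
    have := intervalIntegral.integral_comp_neg (a := -m) (b := -b)
      (f := fun x => (M x - M m) ^ 2 * Z x)
    simp only [neg_neg] at this ⊢
    exact this
  have e2 : ∫ x in (-m)..(-b), (deriv (fun x => M (-x)) x) ^ 2 * Z (-x) =
      ∫ x in b..m, (deriv M x) ^ 2 * Z x := by
    have := intervalIntegral.integral_comp_neg (a := -m) (b := -b)
      (f := fun x => (deriv M x) ^ 2 * Z x)
    simp only [neg_neg] at this
    rw [← this]
    refine intervalIntegral.integral_congr fun x _ => ?_
    have : deriv (fun x => M (-x)) x = -deriv M (-x) := deriv_comp_neg M x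
    simp only [this]
    ring
  have e3 : ∫ x, Z (-x) = ∫ x, Z x := integral_neg_eq_self Z volume
  simp only [e2, e3] at h
  rw [e1] at h
  simpa using h

end U1x

open U1x in
theorem one_dim (Z M : ℝ → ℝ) (hZ : ∀ x, 0 < Z x) (hZc : Continuous Z)
    (hlc : ∀ a b t : ℝ, 0 < t → t < 1 → Z a ^ (1 - t) * Z b ^ t ≤ Z ((1 - t) * a + t * b))
    (hZi : Integrable Z) (σ : ℝ) (hσ : 0 < σ) (hZ2 : Integrable fun x => x ^ 2 * Z x)
    (hmom : ∫ x, x ^ 2 * Z x ≤ σ ^ 2 * ∫ x, Z x) (hM : ContDiff ℝ 1 M)
    (hMb : ∃ B, ∀ x, |M x| ≤ B) (hMi : Integrable fun x => (deriv M x) ^ 2 * Z x) :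
    ∃ c : ℝ, ∫ x, (M x - c) ^ 2 * Z x ≤ 128 * σ ^ 2 * ∫ x, (deriv M x) ^ 2 * Z x := by
  have hI : 0 < ∫ x, Z x := by
    rw [integral_pos_iff_support_of_nonneg (fun x => (hZ x).le) hZi]
    have : Function.support Z = univ := by
      ext x
      simp [(hZ x).ne']
    rw [this]
    simp
  -- the choice of `m`
  obtain ⟨m, hm, hmax⟩ := isCompact_Icc.exists_isMaxOn (s := Icc (-(2 * σ)) (2 * σ))
    ⟨0, by constructor <;> linarith⟩ hZc.continuousOn
  have hI2 : ∫ x, Z x ≤ 16 * σ / 3 * Z m := by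
    have h1 : ∫ x in Icc (-(2 * σ)) (2 * σ), Z x ≤ 4 * σ * Z m := by
      have h2 : ∫ x in Icc (-(2 * σ)) (2 * σ), Z x ≤ ∫ x in Icc (-(2 * σ)) (2 * σ), Z m := by
        refine setIntegral_mono_on hZi.integrableOn (by simp) measurableSet_Icc fun x hx => ?_
        exact hmax hx
      rw [setIntegral_const] at h2
      simp only [Measure.real, Real.volume_Icc, smul_eq_mul] at h2
      rw [ENNReal.toReal_ofReal (by linarith)] at h2
      calc _ ≤ _ := h2
        _ = _ := by ring
    have h3 : ∫ x, Z x ≤ (∫ x in Icc (-(2 * σ)) (2 * σ), Z x) +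
        1 / (4 * σ ^ 2) * ∫ x, x ^ 2 * Z x := by
      rw [← integral_indicator measurableSet_Icc, ← integral_const_mul,
        ← integral_add (hZi.indicator measurableSet_Icc) (hZ2.const_mul _)]
      refine integral_mono hZi ((hZi.indicator measurableSet_Icc).add (hZ2.const_mul _)) fun x => ?_
      have hz := hZ x
      by_cases hx : x ∈ Icc (-(2 * σ)) (2 * σ)
      · simp only [Set.indicator_of_mem hx]
        have : 0 ≤ 1 / (4 * σ ^ 2) * (x ^ 2 * Z x) := by positivity
        linarith
      · simp only [Set.indicator_of_notMem hx, zero_add]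
        have hx2 : 4 * σ ^ 2 ≤ x ^ 2 := by
          by_contra hcon
          push Not at hcon
          apply hx
          have : |x| < 2 * σ := by
            apply abs_lt_of_sq_lt_sq _ (by linarith)
            nlinarith
          exact ⟨(abs_lt.mp this).1.le, (abs_lt.mp this).2.le⟩
        have h5 : 1 ≤ 1 / (4 * σ ^ 2) * x ^ 2 := by
          rw [one_div, inv_mul_eq_div, one_le_div (by positivity)]
          exact hx2
        calc Z x = 1 * Z x := (one_mul _).symm
          _ ≤ (1 / (4 * σ ^ 2) * x ^ 2) * Z x := mul_le_mul_of_nonneg_right h5 hz.le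
          _ = _ := by ring
    have h4 : 1 / (4 * σ ^ 2) * ∫ x, x ^ 2 * Z x ≤ 1 / 4 * ∫ x, Z x := by
      calc 1 / (4 * σ ^ 2) * ∫ x, x ^ 2 * Z x
          ≤ 1 / (4 * σ ^ 2) * (σ ^ 2 * ∫ x, Z x) :=
            mul_le_mul_of_nonneg_left hmom (by positivity)
        _ = 1 / 4 * ∫ x, Z x := by field_simp
    linarith
  have hR : ((∫ x, Z x) / Z m) ^ 2 ≤ 32 * σ ^ 2 := by
    have h1 : (∫ x, Z x) / Z m ≤ 16 * σ / 3 := by
      rw [div_le_iff₀ (hZ m)]
      exact hI2
    have h0 : 0 ≤ (∫ x, Z x) / Z m := div_nonneg hI.le (hZ m).le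
    nlinarith
  have hMc : Continuous M := hM.continuous
  refine ⟨M m, ?_⟩
  -- integrability
  obtain ⟨B, hB⟩ := hMb
  have hint : Integrable fun x => (M x - M m) ^ 2 * Z x := by
    refine Integrable.bdd_mul (c := (2 * B) ^ 2) hZi (by fun_prop) (Filter.Eventually.of_forall fun x => ?_)
    rw [Real.norm_eq_abs, abs_of_nonneg (sq_nonneg _)]
    have h1 := abs_le.mp (hB x)
    have h2 := abs_le.mp (hB m)
    apply sq_le_sq'
    · linarith
    · linarith
  have hlim := intervalIntegral_tendsto_integral hint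
    (Filter.tendsto_neg_atTop_atBot.atBot_add (tendsto_const_nhds (x := m)))
    (Filter.tendsto_id.atTop_add (tendsto_const_nhds (x := m)))
  refine le_of_tendsto hlim ?_
  filter_upwards [Filter.eventually_ge_atTop (0 : ℝ)] with T hT
  have hc1 : ∀ a b, IntervalIntegrable (fun x => (M x - M m) ^ 2 * Z x) volume a b :=
    fun a b => hint.intervalIntegrable
  have hc2 : ∀ a b, IntervalIntegrable (fun x => (deriv M x) ^ 2 * Z x) volume a b :=
    fun a b => hMi.intervalIntegrable
  have h1 := half Z M hZ hZc hlc hZi hM m (id T + m) (by simpa using hT)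
  have h2 := half_left Z M hZ hZc hlc hZi hM m (-T + m) (by linarith)
  have h3 : ∫ x in (-T + m)..(id T + m), (deriv M x) ^ 2 * Z x ≤ ∫ x, (deriv M x) ^ 2 * Z x := by
    rw [intervalIntegral.integral_of_le (by simp only [id]; linarith)]
    exact setIntegral_le_integral hMi (Filter.Eventually.of_forall fun x =>
      mul_nonneg (sq_nonneg _) (hZ x).le)
  have h4 : 0 ≤ ∫ x in (-T + m)..(id T + m), (deriv M x) ^ 2 * Z x :=
    intervalIntegral.integral_nonneg (by simp only [id]; linarith) fun x _ =>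
      mul_nonneg (sq_nonneg _) (hZ x).le
  rw [← intervalIntegral.integral_add_adjacent_intervals (hc1 (-T + m) m) (hc1 m (id T + m))]
  have h5 := intervalIntegral.integral_add_adjacent_intervals (hc2 (-T + m) m) (hc2 m (id T + m))
  calc _ ≤ 4 * ((∫ x, Z x) / Z m) ^ 2 * (∫ x in (-T + m)..m, (deriv M x) ^ 2 * Z x) +
        4 * ((∫ x, Z x) / Z m) ^ 2 * ∫ x in m..(id T + m), (deriv M x) ^ 2 * Z x :=
        add_le_add h2 h1
    _ = 4 * ((∫ x, Z x) / Z m) ^ 2 * ∫ x in (-T + m)..(id T + m), (deriv M x) ^ 2 * Z x := by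
        rw [← h5]
        ring
    _ ≤ 4 * (32 * σ ^ 2) * ∫ x, (deriv M x) ^ 2 * Z x := by
        apply mul_le_mul _ h3 h4 (by positivity)
        linarith
    _ = 128 * σ ^ 2 * ∫ x, (deriv M x) ^ 2 * Z x := by ring

end Pool.Agent.H888R2.KC
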