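import Pool.Agent.H59.L.S8.H888R2.KC.Defs
import Pool.Agent.H59.L.S8.H888R2.KC.U1
import Pool.Agent.H59.L.S8.H888R2.KC.U2
import Pool.Agent.H59.L.S8.H888R2.KC.U2c

/-!
# U3: removing a one-dimensional Gaussian tilt
-/

set_option autoImplicit false

namespace Pool.Agent.H888R2.KC

open MeasureTheory Set Matrix
open scoped ENNReal InnerProductSpace
open Pool.Agent.H212R2.KLS (mu Bdd ev gr)

variable {ι : Type} [Fintype ι]

namespace U3x

/-- the Gaussian weight -/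
noncomputable abbrev W (e : EuclideanSpace ℝ ι) (K τ : ℝ) (x : EuclideanSpace ℝ ι) : ℝ :=
  Real.exp (-((⟪e, x⟫_ℝ - τ) ^ 2 / (2 * K)))

theorem W_pos (e : EuclideanSpace ℝ ι) (K τ : ℝ) (x : EuclideanSpace ℝ ι) : 0 < W e K τ x :=
  Real.exp_pos _

theorem W_cont (e : EuclideanSpace ℝ ι) (K τ : ℝ) : Continuous (W e K τ) := by
  unfold W
  fun_prop

theorem intg (μ : Measure (EuclideanSpace ℝ ι)) [IsFiniteMeasure μ]
    (hb : ∃ R, μ (Metric.closedBall 0 R)ᶜ = 0) (g : EuclideanSpace ℝ ι → ℝ) (hg : Continuous g) :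
    Integrable g μ := by
  obtain ⟨R, hR⟩ := hb
  obtain ⟨C, hC⟩ := (isCompact_closedBall (0 : EuclideanSpace ℝ ι) R).exists_bound_of_continuousOn
    hg.continuousOn
  refine Integrable.of_bound hg.aestronglyMeasurable C ?_
  have h1 : ∀ᵐ x ∂μ, x ∈ Metric.closedBall (0 : EuclideanSpace ℝ ι) R := by
    rw [ae_iff]
    exact hR
  filter_upwards [h1] with x hx
  exact hC x hx

theorem int3 (μ : Measure (EuclideanSpace ℝ ι)) (g1 g2 g3 : EuclideanSpace ℝ ι → ℝ) (a b c : ℝ)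
    (i1 : Integrable g1 μ) (i2 : Integrable g2 μ) (i3 : Integrable g3 μ) :
    ∫ x, (a * g1 x + b * g2 x + c * g3 x) ∂μ =
      a * ∫ x, g1 x ∂μ + b * ∫ x, g2 x ∂μ + c * ∫ x, g3 x ∂μ := by
  have j1 : Integrable (fun x => a * g1 x) μ := i1.const_mul a
  have j2 : Integrable (fun x => b * g2 x) μ := i2.const_mul b
  have j3 : Integrable (fun x => c * g3 x) μ := i3.const_mul c
  have j12 : Integrable (fun x => a * g1 x + b * g2 x) μ := j1.add j2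
  rw [integral_add j12 j3, integral_add j1 j2, integral_const_mul, integral_const_mul,
    integral_const_mul]

/-- Cauchy-Schwarz -/
theorem cs (μ : Measure (EuclideanSpace ℝ ι)) [IsFiniteMeasure μ]
    (hb : ∃ R, μ (Metric.closedBall 0 R)ᶜ = 0) (u v w : EuclideanSpace ℝ ι → ℝ)
    (hu : Continuous u) (hv : Continuous v) (hw : Continuous w) (hw0 : ∀ x, 0 ≤ w x) :
    (∫ x, u x * v x * w x ∂μ) ^ 2 ≤ (∫ x, u x ^ 2 * w x ∂μ) * ∫ x, v x ^ 2 * w x ∂μ := by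
  have h1 : ∀ t : ℝ, 0 ≤ (∫ x, v x ^ 2 * w x ∂μ) * (t * t) + (-2 * ∫ x, u x * v x * w x ∂μ) * t +
      ∫ x, u x ^ 2 * w x ∂μ := by
    intro t
    have i1 := intg μ hb (fun x => v x ^ 2 * w x) (by fun_prop)
    have i2 := intg μ hb (fun x => u x * v x * w x) (by fun_prop)
    have i3 := intg μ hb (fun x => u x ^ 2 * w x) (by fun_prop)
    have h2 : 0 ≤ ∫ x, (u x - t * v x) ^ 2 * w x ∂μ :=
      integral_nonneg fun x => mul_nonneg (sq_nonneg _) (hw0 x)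
    have h3 : ∫ x, (u x - t * v x) ^ 2 * w x ∂μ = (∫ x, v x ^ 2 * w x ∂μ) * (t * t) +
        (-2 * ∫ x, u x * v x * w x ∂μ) * t + ∫ x, u x ^ 2 * w x ∂μ := by
      have h4 : (fun x => (u x - t * v x) ^ 2 * w x) = fun x => (t * t) * (v x ^ 2 * w x) +
          (-2 * t) * (u x * v x * w x) + 1 * (u x ^ 2 * w x) := by
        funext x; ring
      rw [h4, int3 μ (fun x => v x ^ 2 * w x) (fun x => u x * v x * w x)
        (fun x => u x ^ 2 * w x) (t * t) (-2 * t) 1 i1 i2 i3]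
      ring
    rw [h3] at h2
    exact h2
  have h5 := discrim_le_zero h1
  unfold discrim at h5
  nlinarith

/-- expanding the square around the mean -/
theorem expand (μ : Measure (EuclideanSpace ℝ ι)) [IsFiniteMeasure μ]
    (hb : ∃ R, μ (Metric.closedBall 0 R)ᶜ = 0) (f w : EuclideanSpace ℝ ι → ℝ)
    (hf : Continuous f) (hw : Continuous w) (m : ℝ) (hm : ∫ x, f x * w x ∂μ = m * ∫ x, w x ∂μ)
    (c : ℝ) : ∫ x, (f x - c) ^ 2 * w x ∂μ =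
      ∫ x, (f x - m) ^ 2 * w x ∂μ + (m - c) ^ 2 * ∫ x, w x ∂μ := by
  have i1 := intg μ hb (fun x => (f x - m) ^ 2 * w x) (by fun_prop)
  have i2 := intg μ hb (fun x => f x * w x) (by fun_prop)
  have i3 := intg μ hb (fun x => w x) hw
  have h4 : (fun x => (f x - c) ^ 2 * w x) = fun x => 1 * ((f x - m) ^ 2 * w x) +
      (2 * (m - c)) * (f x * w x) + ((m - c) ^ 2 - 2 * (m - c) * m) * w x := by
    funext x; ring
  rw [h4, int3 μ (fun x => (f x - m) ^ 2 * w x) (fun x => f x * w x) (fun x => w x) 1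
    (2 * (m - c)) ((m - c) ^ 2 - 2 * (m - c) * m) i1 i2 i3, hm]
  ring

theorem main (μ : Measure (EuclideanSpace ℝ ι)) [IsFiniteMeasure μ] [NeZero μ]
    (hb : ∃ R, μ (Metric.closedBall 0 R)ᶜ = 0)
    (e : EuclideanSpace ℝ ι) (he : ‖e‖ ≤ 1) (K : ℝ) (hK : 0 < K)
    (hmom : ∫ x, ⟪e, x⟫_ℝ ^ 2 ∂μ ≤ K * (μ univ).toReal)
    (hlcZ : ∀ a b t : ℝ, 0 < t → t < 1 → (∫ x, W e K a x ∂μ) ^ (1 - t) *
      (∫ x, W e K b x ∂μ) ^ t ≤ ∫ x, W e K ((1 - t) * a + t * b) x ∂μ)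
    (hloc : ∀ (τ : ℝ) (f : EuclideanSpace ℝ ι → ℝ), ContDiff ℝ 1 f →
      ∃ c : ℝ, ∫ x, (f x - c) ^ 2 * W e K τ x ∂μ ≤
        2 * K * ∫ x, ‖fderiv ℝ f x‖ ^ 2 * W e K τ x ∂μ)
    (f : EuclideanSpace ℝ ι → ℝ) (hf : ContDiff ℝ 1 f) :
    ∃ c : ℝ, ∫ x, (f x - c) ^ 2 ∂μ ≤ 1100 * K * ∫ x, ‖fderiv ℝ f x‖ ^ 2 ∂μ := by
  have hfc : Continuous f := hf.continuous
  have hdc : Continuous fun x => ‖fderiv ℝ f x‖ ^ 2 :=
    ((hf.continuous_fderiv (by norm_num)).norm).pow 2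
  have hlc : Continuous fun x : EuclideanSpace ℝ ι => ⟪e, x⟫_ℝ := by fun_prop
  have hWc := W_cont e K
  set Z : ℝ → ℝ := fun τ => ∫ x, W e K τ x ∂μ with hZdef
  set A : ℝ → ℝ := fun τ => ∫ x, f x * W e K τ x ∂μ with hAdef
  set D : ℝ → ℝ := fun τ => ∫ x, ‖fderiv ℝ f x‖ ^ 2 * W e K τ x ∂μ with hDdef
  set Z' : ℝ → ℝ := fun τ => ∫ x, ((⟪e, x⟫_ℝ - τ) / K) * W e K τ x ∂μ with hZ'def
  set A' : ℝ → ℝ := fun τ => ∫ x, f x * ((⟪e, x⟫_ℝ - τ) / K) * W e K τ x ∂μ with hA'def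
  have hZpos : ∀ τ, 0 < Z τ := fun τ =>
    integral_exp_pos (intg μ hb (W e K τ) (hWc τ))
  obtain ⟨hZd, hZ'c⟩ := tilt_deriv μ hb e K hK (fun _ => (1 : ℝ)) continuous_const
  simp only [one_mul] at hZd hZ'c
  have hZd : ∀ τ, HasDerivAt Z (Z' τ) τ := hZd
  have hZ'c : Continuous Z' := hZ'c
  obtain ⟨hAd, hA'c⟩ := tilt_deriv μ hb e K hK f hfc
  have hAd : ∀ τ, HasDerivAt A (A' τ) τ := hAd
  have hA'c : Continuous A' := hA'c
  have hZc : Continuous Z := continuous_iff_continuousAt.2 fun τ => (hZd τ).continuousAt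
  have hAc : Continuous A := continuous_iff_continuousAt.2 fun τ => (hAd τ).continuousAt
  obtain ⟨hZi, hZI, hZ2i, hZ2I⟩ := tilt_fub μ hb e K hK (fun _ => (1 : ℝ)) continuous_const
  simp only [one_mul] at hZi hZI
  have hZi : Integrable Z := hZi
  obtain ⟨hDi, hDI, -, -⟩ := tilt_fub μ hb e K hK (fun x => ‖fderiv ℝ f x‖ ^ 2) hdc
  have hDi : Integrable D := hDi
  set G : ℝ := Real.sqrt (2 * Real.pi * K) with hG
  have hGpos : 0 < G := Real.sqrt_pos.2 (by positivity)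
  set J : ℝ := ∫ x, ‖fderiv ℝ f x‖ ^ 2 ∂μ with hJ
  have hJ0 : 0 ≤ J := integral_nonneg fun x => by positivity
  have hDI : ∫ τ, D τ = G * J := hDI
  -- the mean
  set M : ℝ → ℝ := fun τ => A τ / Z τ with hMdef
  have hMm : ∀ τ, ∫ x, f x * W e K τ x ∂μ = M τ * ∫ x, W e K τ x ∂μ := fun τ => by
    show A τ = A τ / Z τ * Z τ
    rw [div_mul_cancel₀ _ (hZpos τ).ne']
  have hMd : ∀ τ, HasDerivAt M ((A' τ * Z τ - A τ * Z' τ) / Z τ ^ 2) τ := fun τ =>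
    (hAd τ).div (hZd τ) (hZpos τ).ne'
  have hMderiv : deriv M = fun τ => (A' τ * Z τ - A τ * Z' τ) / Z τ ^ 2 :=
    funext fun τ => (hMd τ).deriv
  have hM'c : Continuous (deriv M) := by
    rw [hMderiv]
    exact ((hA'c.mul hZc).sub (hAc.mul hZ'c)).div (hZc.pow 2) fun τ => (pow_pos (hZpos τ) 2).ne'
  have hMc1 : ContDiff ℝ 1 M :=
    contDiff_one_iff_deriv.2 ⟨fun τ => (hMd τ).differentiableAt, hM'c⟩
  have hMc : Continuous M := hMc1.continuous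
  -- variance bounds
  have hvar : ∀ (g : EuclideanSpace ℝ ι → ℝ) (_ : ContDiff ℝ 1 g) (τ m : ℝ),
      ∫ x, g x * W e K τ x ∂μ = m * ∫ x, W e K τ x ∂μ →
      ∫ x, (g x - m) ^ 2 * W e K τ x ∂μ ≤ 2 * K * ∫ x, ‖fderiv ℝ g x‖ ^ 2 * W e K τ x ∂μ := by
    intro g hg τ m hm
    obtain ⟨c, hc⟩ := hloc τ g hg
    have h1 := expand μ hb g (W e K τ) hg.continuous (hWc τ) m hm c
    have h2 : 0 ≤ (m - c) ^ 2 * ∫ x, W e K τ x ∂μ := mul_nonneg (sq_nonneg _) (hZpos τ).le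
    linarith
  -- the derivative of the mean
  have hM'Z : ∀ τ, deriv M τ ^ 2 * Z τ ≤ 4 * D τ := by
    intro τ
    set T : ℝ := (∫ x, ⟪e, x⟫_ℝ * W e K τ x ∂μ) / Z τ with hT
    have hTm : ∫ x, ⟪e, x⟫_ℝ * W e K τ x ∂μ = T * ∫ x, W e K τ x ∂μ := by
      show _ = (∫ x, ⟪e, x⟫_ℝ * W e K τ x ∂μ) / Z τ * Z τ
      rw [div_mul_cancel₀ _ (hZpos τ).ne']
    have hlC : ContDiff ℝ 1 fun x : EuclideanSpace ℝ ι => ⟪e, x⟫_ℝ := (innerSL ℝ e).contDiff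
    have v1 := hvar f hf τ (M τ) (hMm τ)
    have v2 := hvar (fun x => ⟪e, x⟫_ℝ) hlC τ T hTm
    have hfd : ∀ x : EuclideanSpace ℝ ι, ‖fderiv ℝ (fun x => ⟪e, x⟫_ℝ) x‖ ^ 2 ≤ 1 := by
      intro x
      have h1 : fderiv ℝ (fun x : EuclideanSpace ℝ ι => ⟪e, x⟫_ℝ) x = innerSL ℝ e :=
        (innerSL ℝ e).hasFDerivAt.fderiv
      rw [h1, innerSL_apply_norm]
      exact pow_le_one₀ (norm_nonneg _) he
    have v3 : ∫ x, ‖fderiv ℝ (fun x : EuclideanSpace ℝ ι => ⟪e, x⟫_ℝ) x‖ ^ 2 * W e K τ x ∂μ ≤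
        Z τ := by
      refine integral_mono_of_nonneg (Filter.Eventually.of_forall fun x =>
        mul_nonneg (by positivity) (W_pos e K τ x).le) (intg μ hb _ (hWc τ))
        (Filter.Eventually.of_forall fun x => ?_)
      have := mul_le_mul_of_nonneg_right (hfd x) (W_pos e K τ x).le
      rwa [one_mul] at this
    have hcs := cs μ hb (fun x => f x - M τ) (fun x => ⟪e, x⟫_ℝ - T) (W e K τ)
      (by fun_prop) (by fun_prop) (hWc τ) (fun x => (W_pos e K τ x).le)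
    have i1 := intg μ hb (fun x => f x * W e K τ x) (by fun_prop)
    have i2 := intg μ hb (fun x => W e K τ x) (hWc τ)
    have i3 := intg μ hb (fun x => (f x - M τ) * (⟪e, x⟫_ℝ - T) * W e K τ x) (by fun_prop)
    -- `M' Z = K⁻¹ ∫ (f - M) (ℓ - T) W`
    have hkey : deriv M τ * Z τ =
        K⁻¹ * ∫ x, (f x - M τ) * (⟪e, x⟫_ℝ - T) * W e K τ x ∂μ := by
      have h1 : deriv M τ * Z τ = A' τ - M τ * Z' τ := by
        rw [hMderiv]
        show (A' τ * Z τ - A τ * Z' τ) / Z τ ^ 2 * Z τ = A' τ - A τ / Z τ * Z' τ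
        have := (hZpos τ).ne'
        field_simp
      have i4 := intg μ hb (fun x => f x * ((⟪e, x⟫_ℝ - τ) / K) * W e K τ x) (by fun_prop)
      have i5 := intg μ hb (fun x => ((⟪e, x⟫_ℝ - τ) / K) * W e K τ x) (by fun_prop)
      have h2 : A' τ - M τ * Z' τ = ∫ x, (f x * ((⟪e, x⟫_ℝ - τ) / K) * W e K τ x -
          M τ * (((⟪e, x⟫_ℝ - τ) / K) * W e K τ x)) ∂μ := by
        rw [integral_sub i4 (i5.const_mul _), integral_const_mul]
      have h3 : (fun x => f x * ((⟪e, x⟫_ℝ - τ) / K) * W e K τ x -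
          M τ * (((⟪e, x⟫_ℝ - τ) / K) * W e K τ x)) = fun x =>
          (K⁻¹ * ((f x - M τ) * (⟪e, x⟫_ℝ - T) * W e K τ x) +
            (K⁻¹ * (T - τ)) * (f x * W e K τ x)) + (-(K⁻¹ * (T - τ) * M τ)) * W e K τ x := by
        funext x
        field_simp
        ring
      rw [h1, h2, h3, int3 μ (fun x => (f x - M τ) * (⟪e, x⟫_ℝ - T) * W e K τ x)
        (fun x => f x * W e K τ x) (fun x => W e K τ x) K⁻¹ (K⁻¹ * (T - τ))
        (-(K⁻¹ * (T - τ) * M τ)) i3 i1 i2, hMm τ]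
      ring
    set X := ∫ x, (f x - M τ) * (⟪e, x⟫_ℝ - T) * W e K τ x ∂μ with hX
    have hD0 : 0 ≤ D τ := integral_nonneg fun x => mul_nonneg (by positivity) (W_pos e K τ x).le
    have hXle : X ^ 2 ≤ (2 * K * D τ) * (2 * K * Z τ) := by
      refine hcs.trans (mul_le_mul v1 (v2.trans ?_) ?_ (by positivity))
      · exact mul_le_mul_of_nonneg_left v3 (by positivity)
      · exact integral_nonneg fun x => mul_nonneg (sq_nonneg _) (W_pos e K τ x).le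
    have h5 : (deriv M τ * Z τ) ^ 2 ≤ 4 * D τ * Z τ := by
      rw [hkey, mul_pow]
      have h6 : (K⁻¹) ^ 2 * ((2 * K * D τ) * (2 * K * Z τ)) = 4 * D τ * Z τ := by
        field_simp
        ring
      rw [← h6]
      exact mul_le_mul_of_nonneg_left hXle (by positivity)
    have h7 : (deriv M τ ^ 2 * Z τ) * Z τ ≤ (4 * D τ) * Z τ := by
      calc (deriv M τ ^ 2 * Z τ) * Z τ = (deriv M τ * Z τ) ^ 2 := by ring
        _ ≤ _ := h5
    exact le_of_mul_le_mul_right h7 (hZpos τ)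
  -- boundedness of the mean
  have hMb : ∃ B, ∀ τ, |M τ| ≤ B := by
    obtain ⟨R, hR⟩ := hb
    obtain ⟨C, hC⟩ := (isCompact_closedBall (0 : EuclideanSpace ℝ ι) R).exists_bound_of_continuousOn
      hfc.continuousOn
    refine ⟨C, fun τ => ?_⟩
    have hae : ∀ᵐ x ∂μ, x ∈ Metric.closedBall (0 : EuclideanSpace ℝ ι) R := by
      rw [ae_iff]
      exact hR
    have h1 : |A τ| ≤ C * Z τ := by
      have h2 : |A τ| ≤ ∫ x, C * W e K τ x ∂μ := by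
        rw [← Real.norm_eq_abs]
        refine norm_integral_le_of_norm_le ((intg μ ⟨R, hR⟩ _ (hWc τ)).const_mul C) ?_
        filter_upwards [hae] with x hx
        rw [norm_mul, Real.norm_of_nonneg (W_pos e K τ x).le]
        exact mul_le_mul_of_nonneg_right (hC x hx) (W_pos e K τ x).le
      rwa [integral_const_mul] at h2
    show |A τ / Z τ| ≤ C
    rw [abs_div, abs_of_pos (hZpos τ), div_le_iff₀ (hZpos τ)]
    exact h1
  have hM'i : Integrable fun τ => deriv M τ ^ 2 * Z τ := by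
    refine Integrable.mono' (hDi.const_mul 4) ((hM'c.pow 2).mul hZc).aestronglyMeasurable
      (Filter.Eventually.of_forall fun τ => ?_)
    rw [Real.norm_of_nonneg (mul_nonneg (sq_nonneg _) (hZpos τ).le)]
    exact hM'Z τ
  have hmomZ : ∫ τ, τ ^ 2 * Z τ ≤ (Real.sqrt (2 * K)) ^ 2 * ∫ τ, Z τ := by
    have h1 : ∫ τ, τ ^ 2 * Z τ = G * ∫ x, (⟪e, x⟫_ℝ ^ 2 + K) ∂μ := hZ2I
    have h2 : ∫ τ, Z τ = G * ∫ _x, (1 : ℝ) ∂μ := hZI
    rw [h1, h2, Real.sq_sqrt (by positivity)]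
    have h3 : ∫ x, (⟪e, x⟫_ℝ ^ 2 + K) ∂μ = ∫ x, ⟪e, x⟫_ℝ ^ 2 ∂μ + K * (μ univ).toReal := by
      rw [integral_add (intg μ hb _ (by fun_prop)) (integrable_const _), integral_const,
        smul_eq_mul, mul_comm K]
      rfl
    have h4 : ∫ _x, (1 : ℝ) ∂μ = (μ univ).toReal := by
      rw [integral_const, smul_eq_mul, mul_one]
      rfl
    rw [h3, h4]
    nlinarith
  obtain ⟨c, hc⟩ := one_dim Z M hZpos hZc hlcZ hZi (Real.sqrt (2 * K))
    (Real.sqrt_pos.2 (by positivity)) hZ2i hmomZ hMc1 hMb hM'i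
  rw [Real.sq_sqrt (by positivity)] at hc
  refine ⟨c, ?_⟩
  have hfin : ∫ τ, deriv M τ ^ 2 * Z τ ≤ 4 * (G * J) := by
    calc ∫ τ, deriv M τ ^ 2 * Z τ ≤ ∫ τ, 4 * D τ := integral_mono hM'i (hDi.const_mul 4) hM'Z
      _ = 4 * (G * J) := by rw [integral_const_mul, hDI]
  obtain ⟨hFi, hFI, -, -⟩ := tilt_fub μ hb e K hK (fun x => (f x - c) ^ 2) (by fun_prop)
  obtain ⟨B, hB⟩ := hMb
  have hMi : Integrable fun τ => (M τ - c) ^ 2 * Z τ := by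
    refine Integrable.mono' (hZi.const_mul ((B + |c|) ^ 2))
      (((hMc.sub continuous_const).pow 2).mul hZc).aestronglyMeasurable
      (Filter.Eventually.of_forall fun τ => ?_)
    rw [Real.norm_of_nonneg (mul_nonneg (sq_nonneg _) (hZpos τ).le)]
    refine mul_le_mul_of_nonneg_right ?_ (hZpos τ).le
    rw [← sq_abs]
    refine pow_le_pow_left₀ (abs_nonneg _) ?_ 2
    exact (abs_sub _ _).trans (add_le_add (hB τ) le_rfl)
  have hpt : ∀ τ, ∫ x, (f x - c) ^ 2 * W e K τ x ∂μ ≤ 2 * K * D τ + (M τ - c) ^ 2 * Z τ := by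
    intro τ
    rw [expand μ hb f (W e K τ) hfc (hWc τ) (M τ) (hMm τ) c]
    exact add_le_add (hvar f hf τ (M τ) (hMm τ)) le_rfl
  have hint : G * ∫ x, (f x - c) ^ 2 ∂μ ≤ 2 * K * (G * J) + ∫ τ, (M τ - c) ^ 2 * Z τ := by
    calc G * ∫ x, (f x - c) ^ 2 ∂μ = ∫ τ : ℝ, ∫ x, (f x - c) ^ 2 * W e K τ x ∂μ := hFI.symm
      _ ≤ ∫ τ, (2 * K * D τ + (M τ - c) ^ 2 * Z τ) :=
        integral_mono hFi ((hDi.const_mul _).add hMi) hpt
      _ = 2 * K * (G * J) + ∫ τ, (M τ - c) ^ 2 * Z τ := by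
        rw [integral_add (hDi.const_mul _) hMi, integral_const_mul, hDI]
  have h9 : G * ∫ x, (f x - c) ^ 2 ∂μ ≤ G * (1026 * K * J) := by
    calc G * ∫ x, (f x - c) ^ 2 ∂μ ≤ 2 * K * (G * J) + ∫ τ, (M τ - c) ^ 2 * Z τ := hint
      _ ≤ 2 * K * (G * J) + 128 * (2 * K) * (4 * (G * J)) := by
        refine add_le_add le_rfl (hc.trans ?_)
        exact mul_le_mul_of_nonneg_left hfin (by positivity)
      _ = G * (1026 * K * J) := by ring
  have h10 := le_of_mul_le_mul_left h9 hGpos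
  have h11 : 0 ≤ K * J := mul_nonneg hK.le hJ0
  linarith

end U3x

theorem untilt (ρ : EuclideanSpace ℝ ι → ℝ) (h0 : ∀ x, 0 ≤ ρ x) (hm : Measurable ρ)
    (hlc : ∀ x y : EuclideanSpace ℝ ι, ∀ t : ℝ, 0 < t → t < 1 →
      ρ x ^ (1 - t) * ρ y ^ t ≤ ρ ((1 - t) • x + t • y)) (hb : Bdd ρ) (hfin : mu ρ univ ≠ ⊤)
    (e : EuclideanSpace ℝ ι) (he : ‖e‖ ≤ 1) (K : ℝ) (hK : 0 < K)
    (hmom : ∫ x, ⟪e, x⟫_ℝ ^ 2 ∂(mu ρ) ≤ K * (mu ρ univ).toReal)
    (hloc : ∀ (τ : ℝ) (f : EuclideanSpace ℝ ι → ℝ), ContDiff ℝ 1 f →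
      ∃ c : ℝ, ∫ x, (f x - c) ^ 2 * Real.exp (-((⟪e, x⟫_ℝ - τ) ^ 2 / (2 * K))) ∂(mu ρ) ≤
        2 * K * ∫ x, ‖fderiv ℝ f x‖ ^ 2 * Real.exp (-((⟪e, x⟫_ℝ - τ) ^ 2 / (2 * K))) ∂(mu ρ))
    (f : EuclideanSpace ℝ ι → ℝ) (hf : ContDiff ℝ 1 f) :
    ∃ c : ℝ, ∫ x, (f x - c) ^ 2 ∂(mu ρ) ≤ 1100 * K * ∫ x, ‖fderiv ℝ f x‖ ^ 2 ∂(mu ρ) := by
  by_cases hμ : mu ρ = 0
  · refine ⟨0, ?_⟩
    rw [hμ]
    simp
  have : NeZero (mu ρ) := ⟨hμ⟩
  have : IsFiniteMeasure (mu ρ) := ⟨lt_top_iff_ne_top.2 hfin⟩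
  have hbd : ∃ R, mu ρ (Metric.closedBall 0 R)ᶜ = 0 := by
    obtain ⟨R, hR⟩ := hb
    refine ⟨R, ?_⟩
    unfold mu
    rw [withDensity_apply _ Metric.isClosed_closedBall.measurableSet.compl]
    refine setLIntegral_eq_zero Metric.isClosed_closedBall.measurableSet.compl ?_
    intro x hx
    have h1 : R < ‖x‖ := by
      rw [mem_compl_iff, mem_closedBall_zero_iff, not_le] at hx
      exact hx
    show ENNReal.ofReal (ρ x) = 0
    rw [hR x h1]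
    simp
  exact U3x.main (mu ρ) hbd e he K hK hmom
    (fun a b t ht0 ht1 => tilt_lc ρ h0 hm hlc hfin e K hK a b t ht0 ht1) hloc f hf

end Pool.Agent.H888R2.KC
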